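import Pool.Agent.Y192.KC.ZDefs

/-!
The function field of a projective variety, and its embeddings.
-/

set_option autoImplicit false

namespace Pool.Agent.Y192.KC

open MvPolynomial Metric FF Pool.Agent.W602.GT Pool.Agent.Y192.OG Pool.Agent.W603.BP

variable {n r : ℕ}

/-- homogenization -/
theorem exists_hom (P : MvPolynomial (Fin n) ℂ) :
    ∃ (f : MvPolynomial (Fin (n + 1)) ℂ) (k : ℕ), f.IsHomogeneous k ∧
      ∀ (L : Type) [Field L] [Algebra ℂ L] (y : Fin n → L),
        aeval (Fin.cons (α := fun _ => L) 1 y) f = aeval y P := by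
  induction P using MvPolynomial.induction_on with
  | C a =>
    refine ⟨C a, 0, isHomogeneous_C _ _, fun L _ _ y => ?_⟩
    rw [algHom_C, algHom_C]
  | add p q hp hq =>
    obtain ⟨f, k, h1, h2⟩ := hp
    obtain ⟨g, l, h3, h4⟩ := hq
    refine ⟨X 0 ^ l * f + X 0 ^ k * g, l + k, ?_, fun L _ _ y => ?_⟩
    · refine IsHomogeneous.add ((isHomogeneous_X_pow _ _).mul h1) ?_
      rw [add_comm l k]
      exact (isHomogeneous_X_pow _ _).mul h3
    · rw [map_add, map_mul, map_mul, map_pow, map_pow, aeval_X, Fin.cons_zero, one_pow, one_pow,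
        one_mul, one_mul, h2, h4, map_add]
  | mul_X p i hp =>
    obtain ⟨f, k, h1, h2⟩ := hp
    refine ⟨f * X i.succ, k + 1, h1.mul (isHomogeneous_X _ _), fun L _ _ y => ?_⟩
    rw [map_mul, h2, map_mul, aeval_X, aeval_X, Fin.cons_succ]

theorem ep_laur {K : Type} [Field K] [Algebra ℂ K] (x : Fin n → Kˣ)
    (f : MvPolynomial (Fin (n + 1)) ℂ) :
    ep x (laur f) = aeval (Fin.cons (α := fun _ => K) 1 (fun i => (x i : K))) f := by
  unfold laur
  rw [← AlgHom.comp_apply, comp_aeval]
  congr 2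
  funext i
  refine Fin.cases ?_ (fun i => ?_) i
  · rw [Fin.cons_zero, Fin.cons_zero, map_one]
  · rw [Fin.cons_succ, Fin.cons_succ, ep_single, one_smul]
    congr 1
    unfold xm
    rw [Finset.prod_eq_single i]
    · rw [Pi.single_eq_same, zpow_one]
    · intro j _ hj
      rw [Pi.single_eq_of_ne hj, zpow_zero]
    · intro h
      exact absurd (Finset.mem_univ i) h

theorem aeval_homog {L : Type} [Field L] [Algebra ℂ L] {f : MvPolynomial (Fin (n + 1)) ℂ} {k : ℕ}
    (hf : f.IsHomogeneous k) (c : L) (u : Fin (n + 1) → L) :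
    aeval (fun i => c * u i) f = c ^ k * aeval u f := by
  rw [aeval_def, aeval_def, eval₂_eq, eval₂_eq, Finset.mul_sum]
  refine Finset.sum_congr rfl fun d hd => ?_
  have h1 := hf (mem_support_iff.mp hd)
  rw [Finsupp.weight_apply] at h1
  simp only [Pi.one_apply, smul_eq_mul, mul_one] at h1
  have h2 : ∏ i ∈ d.support, (c * u i) ^ d i = c ^ k * ∏ i ∈ d.support, u i ^ d i := by
    rw [← h1, Finsupp.sum, ← Finset.prod_pow_eq_pow_sum, ← Finset.prod_mul_distrib]
    exact Finset.prod_congr rfl fun i _ => by rw [mul_pow]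
  rw [h2]
  ring

/-- the dehomogenization -/
theorem aeval_cons {L : Type} [Field L] [Algebra ℂ L] {f : MvPolynomial (Fin (n + 1)) ℂ} {k : ℕ}
    (hf : f.IsHomogeneous k) (u : Fin (n + 1) → L) (h0 : u 0 ≠ 0) :
    aeval (Fin.cons (α := fun _ => L) 1 (fun i : Fin n => u i.succ / u 0)) f = 0 ↔
      aeval u f = 0 := by
  have h1 : (Fin.cons (α := fun _ => L) 1 (fun i : Fin n => u i.succ / u 0)) =
      fun i => (u 0)⁻¹ * u i := by
    funext i
    refine Fin.cases ?_ (fun i => ?_) i
    · rw [Fin.cons_zero, inv_mul_cancel₀ h0]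
    · rw [Fin.cons_succ, div_eq_mul_inv, mul_comm]
  rw [h1, aeval_homog hf, mul_eq_zero]
  constructor
  · rintro (h | h)
    · exact absurd h (pow_ne_zero _ (inv_ne_zero h0))
    · exact h
  · exact Or.inr

/-- the function field of `Z` -/
theorem exists_K (X : ZCov n r) : ∃ (K : Type) (_ : Field K) (_ : Algebra ℂ K) (x : Fin n → Kˣ),
    (∀ (f : MvPolynomial (Fin (n + 1)) ℂ) (k : ℕ), f.IsHomogeneous k →
      (ep x (laur f) = 0 ↔ f ∈ X.I)) ∧
    IntermediateField.adjoin ℂ (Set.range fun i => (x i : K)) = ⊤ := by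
  have hp := X.prime
  let R := MvPolynomial (Fin (n + 1)) ℂ ⧸ X.I
  let F0 := FractionRing R
  let ξ : Fin (n + 1) → F0 := fun i => algebraMap R F0 (Ideal.Quotient.mk X.I (MvPolynomial.X i))
  have hξ : ∀ i, ξ i ≠ 0 := by
    intro i h
    have h1 := (IsFractionRing.injective R F0) (h.trans (map_zero _).symm)
    exact X.hX i (Ideal.Quotient.eq_zero_iff_mem.mp h1)
  have hae : ∀ f : MvPolynomial (Fin (n + 1)) ℂ,
      aeval ξ f = algebraMap R F0 (Ideal.Quotient.mk X.I f) := by
    intro f
    have h1 : aeval ξ = ((IsScalarTower.toAlgHom ℂ R F0).comp (Ideal.Quotient.mkₐ ℂ X.I)) := by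
      apply MvPolynomial.algHom_ext
      intro i
      rw [aeval_X]
      rfl
    rw [h1]
    rfl
  let K := IntermediateField.adjoin ℂ (Set.range fun i : Fin n => ξ i.succ / ξ 0)
  let x0 : Fin n → K := fun i => ⟨ξ i.succ / ξ 0, IntermediateField.subset_adjoin _ _ ⟨i, rfl⟩⟩
  have hx0 : ∀ i, x0 i ≠ 0 := by
    intro i h
    have h1 : ξ i.succ / ξ 0 = 0 := congrArg Subtype.val h
    exact (div_ne_zero (hξ _) (hξ 0)) h1
  refine ⟨K, inferInstance, inferInstance, fun i => Units.mk0 (x0 i) (hx0 i), ?_, ?_⟩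
  · intro f k hf
    rw [ep_laur]
    have h1 : aeval (Fin.cons (α := fun _ => F0) 1 (fun i : Fin n => ξ i.succ / ξ 0)) f =
        K.val (aeval (Fin.cons (α := fun _ => K) 1
          (fun i => ((Units.mk0 (x0 i) (hx0 i) : Kˣ) : K))) f) := by
      rw [← AlgHom.comp_apply, comp_aeval]
      congr 2
      funext i
      refine Fin.cases ?_ (fun i => ?_) i
      · rw [Fin.cons_zero, Fin.cons_zero, map_one]
      · rw [Fin.cons_succ, Fin.cons_succ]
        rfl
    have h2 : aeval (Fin.cons (α := fun _ => K) 1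
          (fun i => ((Units.mk0 (x0 i) (hx0 i) : Kˣ) : K))) f = 0 ↔
        aeval (Fin.cons (α := fun _ => F0) 1 (fun i : Fin n => ξ i.succ / ξ 0)) f = 0 := by
      rw [h1]
      exact (map_eq_zero_iff K.val K.val.injective).symm
    rw [h2, aeval_cons hf ξ (hξ 0), hae, map_eq_zero_iff _ (IsFractionRing.injective R F0)]
    exact Ideal.Quotient.eq_zero_iff_mem
  · have h3 : (Set.range fun i => ((Units.mk0 (x0 i) (hx0 i) : Kˣ) : K)) = Set.range x0 := rfl
    rw [h3]
    apply IntermediateField.lift_injective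
    rw [IntermediateField.lift_top, IntermediateField.lift_adjoin]
    congr 1
    rw [← Set.range_comp]
    rfl

/-- embeddings of the function field -/
theorem exists_emb {K : Type} [Field K] [Algebra ℂ K] (x : Fin n → K)
    (hgen : IntermediateField.adjoin ℂ (Set.range x) = ⊤) {L : Type} [Field L] [Algebra ℂ L]
    (y : Fin n → L) (hxy : ∀ P : MvPolynomial (Fin n) ℂ, aeval x P = 0 ↔ aeval y P = 0) :
    ∃ φ : K →ₐ[ℂ] L, ∀ i, φ (x i) = y i := by
  have hK : ∀ z : K, ∃ P Q : MvPolynomial (Fin n) ℂ, aeval x Q ≠ 0 ∧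
      z = aeval x P / aeval x Q := by
    intro z
    have hz : z ∈ IntermediateField.adjoin ℂ (Set.range x) := by
      rw [hgen]
      exact IntermediateField.mem_top
    obtain ⟨P, Q, h⟩ := (IntermediateField.mem_adjoin_range_iff ℂ x z).mp hz
    by_cases h0 : aeval x Q = 0
    · refine ⟨0, 1, by rw [map_one]; exact one_ne_zero, ?_⟩
      rw [h, h0, div_zero, map_zero, zero_div]
    · exact ⟨P, Q, h0, h⟩
  choose P Q hQ hz using hK
  have hQy : ∀ z, aeval y (Q z) ≠ 0 := fun z h => hQ z ((hxy _).mpr h)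
  have key : ∀ (A B : MvPolynomial (Fin n) ℂ), aeval x B ≠ 0 →
      aeval y (P (aeval x A / aeval x B)) / aeval y (Q (aeval x A / aeval x B)) =
        aeval y A / aeval y B := by
    intro A B hB
    have hBy : aeval y B ≠ 0 := fun h => hB ((hxy _).mpr h)
    rw [div_eq_div_iff (hQy _) hBy]
    have h1 := hz (aeval x A / aeval x B)
    rw [div_eq_div_iff hB (hQ _)] at h1
    have h2 : aeval x (A * Q (aeval x A / aeval x B) - P (aeval x A / aeval x B) * B) = 0 := by
      rw [map_sub, map_mul, map_mul, h1, sub_self]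
    have h3 := (hxy _).mp h2
    rw [map_sub, map_mul, map_mul, sub_eq_zero] at h3
    exact h3.symm
  let φ0 : K →+* L :=
    { toFun := fun z => aeval y (P z) / aeval y (Q z)
      map_one' := by
        have := key 1 1 (by rw [map_one]; exact one_ne_zero)
        rw [map_one, map_one, div_one, div_one] at this
        exact this
      map_zero' := by
        have := key 0 1 (by rw [map_one]; exact one_ne_zero)
        rw [map_zero, map_zero, zero_div, zero_div] at this
        exact this
      map_mul' := by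
        intro a b
        have h1 := key (P a * P b) (Q a * Q b) (by rw [map_mul]; exact mul_ne_zero (hQ a) (hQ b))
        have h2 : aeval x (P a * P b) / aeval x (Q a * Q b) = a * b := by
          rw [map_mul, map_mul, ← div_mul_div_comm, ← hz a, ← hz b]
        rw [h2] at h1
        rw [h1, map_mul, map_mul, div_mul_div_comm]
      map_add' := by
        intro a b
        have h1 := key (P a * Q b + Q a * P b) (Q a * Q b)
          (by rw [map_mul]; exact mul_ne_zero (hQ a) (hQ b))
        have h2 : aeval x (P a * Q b + Q a * P b) / aeval x (Q a * Q b) = a + b := by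
          rw [map_add, map_mul, map_mul, map_mul, ← div_add_div _ _ (hQ a) (hQ b), ← hz a, ← hz b]
        rw [h2] at h1
        rw [h1, map_add, map_mul, map_mul, map_mul, div_add_div _ _ (hQy a) (hQy b)] }
  have hφ : ∀ A : MvPolynomial (Fin n) ℂ, φ0 (aeval x A) = aeval y A := by
    intro A
    have h1 := key A 1 (by rw [map_one]; exact one_ne_zero)
    rw [map_one, div_one, map_one, div_one] at h1
    exact h1
  refine ⟨{ φ0 with
      commutes' := fun c => ?_ }, fun i => ?_⟩
  · have h1 := hφ (C c)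
    rw [algHom_C, algHom_C] at h1
    exact h1
  · have h1 := hφ (MvPolynomial.X i)
    rw [aeval_X, aeval_X] at h1
    exact h1

/-- the vanishing of polynomials at the coordinates of the generic points -/
theorem zero_iff {X : ZCov n r} {K : Type} [Field K] [Algebra ℂ K] {x : Fin n → Kˣ}
    (hx : ∀ (f : MvPolynomial (Fin (n + 1)) ℂ) (k : ℕ), f.IsHomogeneous k →
      (ep x (laur f) = 0 ↔ f ∈ X.I))
    {m : ℕ} {L : Type} [Field L] [Algebra ℂ L] {t : Fin (n + 1) → L} {w : Fin r → L}
    (hF : ZField X m L t w) (P : MvPolynomial (Fin n) ℂ) :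
    aeval (fun i => (x i : K)) P = 0 ↔ aeval (fun i : Fin n => t i.succ ^ m / t 0 ^ m) P = 0 := by
  obtain ⟨f, k, h1, h2⟩ := exists_hom P
  rw [← h2, ← h2, ← ep_laur, hx f k h1, ← hF.van f k h1]
  exact (aeval_cons h1 (fun i => t i ^ m) (pow_ne_zero _ hF.ne)).symm

theorem emb {X : ZCov n r} {K : Type} [Field K] [Algebra ℂ K] {x : Fin n → Kˣ}
    (hx : ∀ (f : MvPolynomial (Fin (n + 1)) ℂ) (k : ℕ), f.IsHomogeneous k →
      (ep x (laur f) = 0 ↔ f ∈ X.I))
    (hgen : IntermediateField.adjoin ℂ (Set.range fun i => (x i : K)) = ⊤)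
    {m : ℕ} {L : Type} [Field L] [Algebra ℂ L] {t : Fin (n + 1) → L} {w : Fin r → L}
    (hF : ZField X m L t w) :
    ∃ φ : K →ₐ[ℂ] L, ∀ i, φ (x i : K) = t i.succ ^ m / t 0 ^ m :=
  exists_emb (fun i => (x i : K)) hgen _ (zero_iff hx hF)

theorem trdeg_eq {X : ZCov n r} {K : Type} [Field K] [Algebra ℂ K] {x : Fin n → Kˣ}
    (hx : ∀ (f : MvPolynomial (Fin (n + 1)) ℂ) (k : ℕ), f.IsHomogeneous k →
      (ep x (laur f) = 0 ↔ f ∈ X.I))
    (hgen : IntermediateField.adjoin ℂ (Set.range fun i => (x i : K)) = ⊤)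
    {m : ℕ} (hm : 0 < m) (he : ∀ j, X.e j ∣ m) {L : Type} [Field L] [Algebra ℂ L]
    {t : Fin (n + 1) → L} {w : Fin r → L} (hF : ZField X m L t w) :
    Algebra.trdeg ℂ L = Algebra.trdeg ℂ K := by
  obtain ⟨φ, hφ⟩ := emb hx hgen hF
  let _ : Algebra K L := φ.toRingHom.toAlgebra
  have : IsScalarTower ℂ K L := IsScalarTower.of_algebraMap_eq fun c => (φ.commutes c).symm
  have halg : ∀ z : L, IsAlgebraic K z := by
    have h1 : ∀ i, IsAlgebraic K (t i / t 0) := by
      intro i
      refine Fin.cases ?_ (fun i => ?_) i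
      · rw [div_self hF.ne]
        exact isAlgebraic_one
      · have h2 : IsAlgebraic K ((t i.succ / t 0) ^ m) := by
          rw [div_pow, ← hφ i]
          exact isAlgebraic_algebraMap (A := L) (x i : K)
        exact h2.of_pow hm
    have h3 : ∀ j, IsAlgebraic K (w j / t 0 ^ X.wt m j) := by
      intro j
      have h4 : (w j / t 0 ^ X.wt m j) ^ X.e j = algebraMap K L (ep x (laur (X.F j))) := by
        rw [div_pow, hF.eqn, ← pow_mul]
        have h5 : X.wt m j * X.e j = m * X.d j := by
          unfold Cov.wt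
          exact Nat.div_mul_cancel ((he j).mul_right _)
        rw [h5]
        change _ = φ _
        rw [ep_laur, ← AlgHom.comp_apply, comp_aeval]
        have h6 : (fun i => φ ((Fin.cons (α := fun _ => K) 1 (fun i => (x i : K))) i)) =
            fun i => (t 0 ^ m)⁻¹ * t i ^ m := by
          funext i
          refine Fin.cases ?_ (fun i => ?_) i
          · rw [Fin.cons_zero, map_one, inv_mul_cancel₀ (pow_ne_zero _ hF.ne)]
          · rw [Fin.cons_succ, hφ, div_eq_mul_inv, mul_comm]
        rw [h6, aeval_homog (X.hF j), inv_pow, ← pow_mul, div_eq_mul_inv, mul_comm]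
      have h7 : IsAlgebraic K ((w j / t 0 ^ X.wt m j) ^ X.e j) := by
        rw [h4]
        exact isAlgebraic_algebraMap _
      exact h7.of_pow (X.he j)
    have hsub : (⊤ : IntermediateField ℂ L) ≤ (algebraicClosure K L).restrictScalars ℂ := by
      rw [← hF.gen]
      apply IntermediateField.adjoin_le_iff.mpr
      rintro z (⟨i, rfl⟩ | ⟨j, rfl⟩)
      · exact mem_algebraicClosure_iff.mpr (h1 i)
      · exact mem_algebraicClosure_iff.mpr (h3 j)
    intro z
    exact mem_algebraicClosure_iff.mp (hsub (IntermediateField.mem_top (x := z)))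
  have : Algebra.IsAlgebraic K L := ⟨halg⟩
  have h8 := trdeg_add_eq ℂ K (A := L)
  rw [trdeg_eq_zero (R := K) (A := L), add_zero] at h8
  exact h8.symm

end Pool.Agent.Y192.KC
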