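import Pool.Agent.Y192.KC.PrDefs
import Pool.Agent.Y192.KC.ZK
import Pool.Agent.W602.GT.Sys

/-!
The projective case: rational curves, general type.
-/

set_option autoImplicit false

namespace Pool.Agent.Y192.KC

open MvPolynomial Metric FF Pool.Agent.W602.GT

variable {n r : ℕ}

theorem brody_rational {X : Cov n r} {m : ℕ} {L : Type} [Field L] [Algebra ℂ L]
    {t : Fin (n + 1) → L} {w : Fin r → L} (h : PseudoBrody X m t w) : PseudoRational X m t w := by
  obtain ⟨B, D, h1, h2, h3⟩ := h
  refine ⟨B, D, h1, h2, fun p s hps z => ?_⟩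
  refine h3 (fun z i => (p i).eval z) (fun z j => (s j).eval z) ⟨?_, ?_, hps.mem, hps.nonconst⟩ z
  · rw [differentiable_pi]
    exact fun i => (p i).differentiable
  · rw [differentiable_pi]
    exact fun j => (s j).differentiable

/-- scaling of weighted homogeneous polynomials -/
theorem wh_scale {X : Cov n r} {m : ℕ} {B : Poly n r} {D : ℕ} (hB : WH X m B D) (c : ℂ)
    (u : Fin (n + 1) → ℂ) (v : Fin r → ℂ) :
    eval (Sum.elim (fun i => c * u i) (fun j => c ^ X.wt m j * v j)) B =
      c ^ D * eval (Sum.elim u v) B := by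
  rw [eval_eq, eval_eq, Finset.mul_sum]
  refine Finset.sum_congr rfl fun d hd => ?_
  have h1 := hB (mem_support_iff.mp hd)
  rw [Finsupp.weight_apply] at h1
  have h2 : ∏ i ∈ d.support, (Sum.elim (fun i => c * u i) (fun j => c ^ X.wt m j * v j) i) ^ d i =
      c ^ D * ∏ i ∈ d.support, (Sum.elim u v i) ^ d i := by
    rw [← h1, Finsupp.sum, ← Finset.prod_pow_eq_pow_sum, ← Finset.prod_mul_distrib]
    refine Finset.prod_congr rfl fun i _ => ?_
    rcases i with i | j
    · simp only [Sum.elim_inl, smul_eq_mul, mul_one]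
      rw [mul_pow]
    · simp only [Sum.elim_inr, smul_eq_mul]
      rw [mul_pow, ← pow_mul, mul_comm (X.wt m j)]
  rw [h2]
  ring

theorem rational_gm {X : Cov n r} (hG : X.G = 1) {m : ℕ} (he : ∀ j, X.e j ∣ m) {L : Type}
    [Field L] [Algebra ℂ L] {t : Fin (n + 1) → L} {w : Fin r → L}
    (heqn : ∀ j, w j ^ X.e j = aeval (fun i => t i ^ m) (X.F j))
    (h : PseudoRational X m t w) : PseudoGm X m t w := by
  classical
  obtain ⟨B, D, h1, h2, h3⟩ := h
  refine ⟨B, D, h1, h2, fun p s hps z hz => ?_⟩
  -- a nonzero coordinate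
  have hex : ∃ i, p i ≠ 0 := by
    obtain ⟨i, hi⟩ := Function.ne_iff.mp (hps.mem 1 one_ne_zero).1
    exact ⟨i, fun h0 => hi (by rw [h0]; simp)⟩
  obtain ⟨i0, hi0, hmin⟩ := Finset.exists_min_image (Finset.univ.filter fun i => p i ≠ 0)
    (fun i => (p i).rootMultiplicity 0) (by
      obtain ⟨i, hi⟩ := hex
      exact ⟨i, Finset.mem_filter.mpr ⟨Finset.mem_univ _, hi⟩⟩)
  have hi0' : p i0 ≠ 0 := (Finset.mem_filter.mp hi0).2
  set a := (p i0).rootMultiplicity 0 with ha
  have hp : ∀ i, ∃ p' : Polynomial ℂ, p i = Polynomial.X ^ a * p' := by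
    intro i
    by_cases h0 : p i = 0
    · exact ⟨0, by rw [h0, mul_zero]⟩
    · have h4 := hmin i (Finset.mem_filter.mpr ⟨Finset.mem_univ _, h0⟩)
      have h5 : Polynomial.X ^ a ∣ p i := by
        have h6 := (Polynomial.le_rootMultiplicity_iff h0 (a := (0 : ℂ)) (n := a)).mp h4
        rwa [Polynomial.C_0, sub_zero] at h6
      exact h5
  choose p' hp' using hp
  have hp0 : (p' i0).eval 0 ≠ 0 := by
    intro h0
    have h4 : Polynomial.X ∣ p' i0 := by
      rw [← sub_zero Polynomial.X, ← Polynomial.C_0]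
      exact Polynomial.dvd_iff_isRoot.mpr h0
    obtain ⟨q, hq⟩ := h4
    have h5 : a + 1 ≤ (p i0).rootMultiplicity 0 := by
      rw [Polynomial.le_rootMultiplicity_iff hi0', Polynomial.C_0, sub_zero]
      refine ⟨q, ?_⟩
      rw [hp' i0, hq]
      ring
    omega
  -- the equations
  have heq : ∀ j, s j ^ X.e j = aeval (fun i => p i ^ m) (X.F j) := by
    intro j
    have h4 : ∀ z, z ≠ 0 → ((s j ^ X.e j : Polynomial ℂ)).eval z =
        (aeval (fun i => p i ^ m) (X.F j) : Polynomial ℂ).eval z := by
      intro z hz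
      -- the weighted homogeneous equation
      set Q : Poly n r := MvPolynomial.X (Sum.inr j) ^ X.e j -
        aeval (fun i => (MvPolynomial.X (Sum.inl i) : Poly n r) ^ m) (X.F j) with hQ
      have hw : X.wt m j * X.e j = m * X.d j := by
        unfold Cov.wt
        exact Nat.div_mul_cancel ((he j).mul_right _)
      have hQ1 : WH X m Q (m * X.d j) := by
        unfold WH
        rw [hQ]
        refine (weightedHomogeneousSubmodule ℂ _ _).sub_mem ?_ ?_
        · have h5 : IsWeightedHomogeneous (Sum.elim (fun _ => 1) (X.wt m))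
              ((MvPolynomial.X (Sum.inr j) : Poly n r) ^ X.e j) (X.e j • X.wt m j) :=
            (isWeightedHomogeneous_X ℂ (Sum.elim (fun _ => 1) (X.wt m)) (Sum.inr j)).pow _
          rw [smul_eq_mul, mul_comm, hw] at h5
          exact h5
        · rw [aeval_def, eval₂_eq]
          refine Submodule.sum_mem _ fun d hd => ?_
          have h5 := X.hF j (mem_support_iff.mp hd)
          rw [Finsupp.weight_apply] at h5
          simp only [Pi.one_apply, smul_eq_mul, mul_one] at h5
          have h6 : IsWeightedHomogeneous (Sum.elim (fun _ => 1) (X.wt m))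
              (∏ i ∈ d.support, ((MvPolynomial.X (Sum.inl i) : Poly n r) ^ m) ^ d i)
              (∑ i ∈ d.support, d i • (m • 1)) := by
            refine IsWeightedHomogeneous.prod _ _ _ fun i _ => ?_
            exact (((isWeightedHomogeneous_X ℂ (Sum.elim (fun _ => 1) (X.wt m)) (Sum.inl i)).pow
              _).pow _)
          have h7 : ∑ i ∈ d.support, d i • (m • 1) = m * X.d j := by
            rw [← h5, Finsupp.sum, Finset.mul_sum]
            refine Finset.sum_congr rfl fun i _ => ?_
            simp only [smul_eq_mul, mul_one]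
            rw [mul_comm]
          rw [h7] at h6
          have h8 := (isWeightedHomogeneous_C (σ := Fin (n + 1) ⊕ Fin r)
            (Sum.elim (fun _ => 1) (X.wt m)) (coeff d (X.F j))).mul h6
          rw [zero_add] at h8
          exact h8
      have hQ2 : aeval (Sum.elim t w) Q = 0 := by
        rw [hQ, map_sub, map_pow, aeval_X, Sum.elim_inr, heqn j, ← AlgHom.comp_apply, comp_aeval]
        simp only [map_pow, aeval_X, Sum.elim_inl]
        exact sub_self _
      have h9 := (hps.mem z hz).2.1 Q _ hQ1 hQ2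
      rw [hQ, map_sub, map_pow, eval_X, Sum.elim_inr] at h9
      have h10 : eval (Sum.elim (fun i => (p i).eval z) (fun j => (s j).eval z))
          (aeval (fun i => (MvPolynomial.X (Sum.inl i) : Poly n r) ^ m) (X.F j)) =
          (aeval (fun i => p i ^ m) (X.F j) : Polynomial ℂ).eval z := by
        rw [aeval_def, aeval_def, eval₂_eq, eval₂_eq, map_sum, Polynomial.eval_finsetSum]
        refine Finset.sum_congr rfl fun d _ => ?_
        rw [map_mul, Polynomial.eval_mul, map_prod, Polynomial.eval_prod]
        congr 1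
        · simp
        · refine Finset.prod_congr rfl fun i _ => ?_
          rw [map_pow, map_pow, eval_X, Sum.elim_inl, Polynomial.eval_pow, Polynomial.eval_pow]
      rw [h10, sub_eq_zero] at h9
      rw [Polynomial.eval_pow]
      exact h9
    refine Polynomial.eq_of_infinite_eval_eq _ _ ((Set.infinite_of_finite_compl (s := {0}ᶜ) ?_).mono
      fun z hz => h4 z hz)
    rw [compl_compl]
    exact Set.finite_singleton _
  have hs : ∀ j, ∃ s' : Polynomial ℂ, s j = Polynomial.X ^ (a * X.wt m j) * s' := by
    intro j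
    by_cases h0 : s j = 0
    · exact ⟨0, by rw [h0, mul_zero]⟩
    have hw : X.wt m j * X.e j = m * X.d j := by
      unfold Cov.wt
      exact Nat.div_mul_cancel ((he j).mul_right _)
    have h4 : Polynomial.X ^ (a * X.wt m j * X.e j) ∣ s j ^ X.e j := by
      rw [heq j, mul_assoc, hw, aeval_def, eval₂_eq]
      refine Finset.dvd_sum fun d hd => ?_
      refine Dvd.dvd.mul_left ?_ _
      have h5 := X.hF j (mem_support_iff.mp hd)
      rw [Finsupp.weight_apply] at h5
      simp only [Pi.one_apply, smul_eq_mul, mul_one] at h5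
      have h6 : (Polynomial.X : Polynomial ℂ) ^ (a * (m * X.d j)) =
          ∏ i ∈ d.support, ((Polynomial.X ^ a) ^ m) ^ d i := by
        rw [Finset.prod_pow_eq_pow_sum, ← pow_mul, ← pow_mul, ← h5, Finsupp.sum]
      rw [h6]
      refine Finset.prod_dvd_prod_of_dvd _ _ fun i _ => ?_
      exact pow_dvd_pow_of_dvd (pow_dvd_pow_of_dvd ⟨p' i, hp' i⟩ _) _
    have h5 : Polynomial.X ^ (a * X.wt m j) ∣ s j := by
      have h6 : ((Polynomial.X : Polynomial ℂ) ^ (a * X.wt m j)) ^ X.e j ∣ s j ^ X.e j := by
        rw [← pow_mul]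
        exact h4
      exact (IsIntegrallyClosed.pow_dvd_pow_iff (X.he j).ne').mp h6
    exact h5
  choose s' hs' using hs
  have hev : ∀ z : ℂ, (fun i => (p i).eval z) = (fun i => z ^ a * (p' i).eval z) ∧
      (fun j => (s j).eval z) = (fun j => (z ^ a) ^ X.wt m j * (s' j).eval z) := by
    intro z
    constructor
    · funext i
      rw [hp' i, Polynomial.eval_mul, Polynomial.eval_pow, Polynomial.eval_X]
    · funext j
      rw [hs' j, Polynomial.eval_mul, Polynomial.eval_pow, Polynomial.eval_X, pow_mul]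
  have hsame : ∀ z : ℂ, z ≠ 0 → Same X m (fun i => (p' i).eval z) (fun j => (s' j).eval z)
      (fun i => (p i).eval z) (fun j => (s j).eval z) := by
    intro z hz
    refine ⟨z ^ a, pow_ne_zero _ hz, fun i => congrFun (hev z).1 i, fun j => congrFun (hev z).2 j⟩
  -- all points
  have hvan : ∀ (Q : Poly n r) (E : ℕ), WH X m Q E → aeval (Sum.elim t w) Q = 0 →
      ∀ z : ℂ, eval (Sum.elim (fun i => (p' i).eval z) (fun j => (s' j).eval z)) Q = 0 := by
    intro Q E hQ hQ0
    set q : Polynomial ℂ := aeval (Sum.elim p' s') Q with hq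
    have hqe : ∀ z : ℂ, q.eval z =
        eval (Sum.elim (fun i => (p' i).eval z) (fun j => (s' j).eval z)) Q := by
      intro z
      rw [hq, aeval_def, eval₂_eq, eval_eq, Polynomial.eval_finsetSum]
      refine Finset.sum_congr rfl fun d _ => ?_
      rw [Polynomial.eval_mul, Polynomial.eval_prod]
      congr 1
      · simp
      · refine Finset.prod_congr rfl fun i _ => ?_
        rw [Polynomial.eval_pow]
        rcases i with i | i <;> rfl
    have hq0 : q = 0 := by
      refine Polynomial.eq_zero_of_infinite_isRoot q ((Set.infinite_of_finite_compl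
        (s := {0}ᶜ) ?_).mono fun z hz => ?_)
      · rw [compl_compl]
        exact Set.finite_singleton _
      · have h4 := (hps.mem z hz).2.1 Q E hQ hQ0
        rw [(hev z).1, (hev z).2, wh_scale hQ] at h4
        rcases mul_eq_zero.mp h4 with h5 | h5
        · exact absurd h5 (pow_ne_zero _ (pow_ne_zero _ hz))
        · change q.eval z = 0
          rw [hqe, h5]
    intro z
    rw [← hqe, hq0, Polynomial.eval_zero]
  have hne : ∀ z : ℂ, (fun i => (p' i).eval z) ≠ 0 := by
    intro z h0
    by_cases hz : z = 0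
    · have := congrFun h0 i0
      rw [hz] at this
      exact hp0 this
    · apply (hps.mem z hz).1
      rw [(hev z).1]
      funext i
      have := congrFun h0 i
      simp only [Pi.zero_apply] at this ⊢
      rw [this, mul_zero]
  have hline : LineCurve X m t w p' s' := by
    refine ⟨fun z => ⟨hne z, fun Q E hQ hQ0 => hvan Q E hQ hQ0 z, ?_⟩, ?_⟩
    · rw [hG, map_one]
      exact one_ne_zero
    · obtain ⟨z1, z2, g1, g2, g3⟩ := hps.nonconst
      refine ⟨z1, z2, fun h4 => g3 ?_⟩
      obtain ⟨c0, c1, c2, c3⟩ := h4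
      obtain ⟨b0, b1, b2, b3⟩ := hsame z1 g1
      obtain ⟨d0, d1, d2, d3⟩ := hsame z2 g2
      refine ⟨d0 * c0 / b0, div_ne_zero (mul_ne_zero d1 c1) b1, fun i => ?_, fun j => ?_⟩
      · rw [d2, c2, b2]
        field_simp
      · rw [d3, c3, b3, div_pow, mul_pow]
        have := pow_ne_zero (X.wt m j) b1
        field_simp
  have h4 := h3 p' s' hline z
  rw [(hev z).1, (hev z).2, wh_scale h1, h4, mul_zero]

/-- general type in the projective case -/
theorem general_iff {X : Cov n r} (hG : X.G = 1) {m : ℕ} {L : Type} [Field L] [Algebra ℂ L]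
    {t : Fin (n + 1) → L} (d : ℕ) :
    LogGeneralType ℂ L d (OffG X m t) ↔ GeneralType ℂ L d := by
  have hq : X.q = 0 := by
    have h1 := X.hG
    rw [hG] at h1
    exact h1.inj_right (isHomogeneous_one _ _) one_ne_zero
  have hoff : OffG X m t = fun _ => False := by
    funext P
    apply propext
    refine ⟨fun h => ?_, False.elim⟩
    obtain ⟨i0, hi0⟩ := Finite.exists_min fun i => P.ord (t i)
    have h1 := h (P.ord (t i0)) hi0 ⟨i0, rfl⟩
    rw [hG, hq, map_one, P.ord_one] at h1
    simp at h1
  rw [hoff]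
  refine ⟨general_of_log, ?_⟩
  rintro ⟨h1, N, hN, ω, h2, h3, h4⟩
  refine ⟨h1, N, hN, ω, h2, fun P hP j D hD => ?_, fun P hP _ => h3 P hP, h4⟩
  refine h3 P hP j D fun i f hf => ?_
  have h5 := hD i f
  by_cases h0 : f = 0
  · rw [h0, map_zero]
    exact Or.inl rfl
  · have h6 : D i f = f * (D i f / f) := by field_simp
    rw [h6]
    exact P.reg_mul hf h5

end Pool.Agent.Y192.KC
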