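import Pool.Agent.Y192.KC.SMain
import Pool.Agent.Y192.KC.Proj

/-!
The projective case: lemmas.
-/

set_option autoImplicit false

namespace Pool.Agent.Y192.KC

open MvPolynomial Metric FF Pool.Agent.W602.GT

variable {n r : ℕ}

theorem off_false {X : Cov n r} (hG : X.G = 1) {m : ℕ} {L : Type} [Field L] [Algebra ℂ L]
    {t : Fin (n + 1) → L} : OffG X m t = fun _ => False := by
  have hq : X.q = 0 := by
    have h1 := X.hG
    rw [hG] at h1
    exact h1.inj_right (isHomogeneous_one _ _) one_ne_zero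
  funext P
  apply propext
  refine ⟨fun h => ?_, False.elim⟩
  obtain ⟨i0, hi0⟩ := Finite.exists_min fun i => P.ord (t i)
  have h1 := h (P.ord (t i0)) hi0 ⟨i0, rfl⟩
  rw [hG, hq, map_one, P.ord_one] at h1
  simp at h1

theorem alg_of_top {N : ℕ} {K : Type} [Field K] [Algebra ℂ K] (x : Fin N → K)
    (hgen : IntermediateField.adjoin ℂ (Set.range x) = ⊤) :
    Algebra.IsAlgebraic (Algebra.adjoin ℂ (Set.range x)) K := by
  refine ⟨fun z => ?_⟩
  have hz : z ∈ IntermediateField.adjoin ℂ (Set.range x) := by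
    rw [hgen]
    exact IntermediateField.mem_top
  obtain ⟨P, Q, h⟩ := (IntermediateField.mem_adjoin_range_iff ℂ x z).mp hz
  have hm : ∀ P : MvPolynomial (Fin N) ℂ, aeval x P ∈ Algebra.adjoin ℂ (Set.range x) := by
    intro P
    rw [Algebra.adjoin_range_eq_range_aeval]
    exact ⟨P, rfl⟩
  have h1 : ∀ P : MvPolynomial (Fin N) ℂ,
      IsAlgebraic (Algebra.adjoin ℂ (Set.range x)) (aeval x P) := fun P =>
    isAlgebraic_algebraMap (⟨aeval x P, hm P⟩ : Algebra.adjoin ℂ (Set.range x))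
  rw [h, div_eq_mul_inv]
  exact (h1 P).mul (h1 Q).inv

end Pool.Agent.Y192.KC
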