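import Pool.Agent.Y192.KC.Stm

/-!
Statements of the steps for covers of arbitrary subvarieties of tori. Each `St_` is a proposition
that is proved in another file.
-/

set_option autoImplicit false

namespace Pool.Agent.Y192.KC

open MvPolynomial Metric FF Pool.Agent.W602.GT Pool.Agent.Y192.OG Pool.Agent.W603.BP

/-- the homomorphism of rings of Laurent polynomials given by monomials -/
noncomputable def lm {ρ N : ℕ} (γ : Fin ρ → Fin N → ℤ) : Lau ρ →ₐ[ℂ] Lau N :=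
  AddMonoidAlgebra.lift ℂ (Lau N) (Fin ρ → ℤ)
    { toFun := fun a => AddMonoidAlgebra.single (∑ i, a.toAdd i • γ i) (1 : ℂ)
      map_one' := by
        simp only [toAdd_one, Pi.zero_apply, zero_smul, Finset.sum_const_zero]
        rfl
      map_mul' := fun a a' => by
        rw [AddMonoidAlgebra.single_mul_single, mul_one]
        congr 1
        rw [← Finset.sum_add_distrib]
        refine Finset.sum_congr rfl fun i _ => ?_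
        rw [toAdd_mul, Pi.add_apply, add_smul] }

/-- the modulus of the orders, with `e = 0` for infinite multiplicity -/
def md (m e : ℕ) : ℕ := if e = 0 then m else e

/-- homogeneous polynomials with respect to integral weights -/
def HomL {k : Type} [Field k] {b : ℕ} (l : Fin b → ℤ) (A : MvPolynomial (Fin b) k) : Prop :=
  ∃ a : ℤ, ∀ c ∈ A.support, ∑ i, l i * c i = a

/-- curves whose orders of contact with the coordinate hyperplanes are divisible by `m` and whose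
orders of contact with `F j = 0` are divisible by `e j` (by `m` if `e j = 0`) -/
structure AdmG {N r : ℕ} (F : Fin r → Lau N) (e : Fin r → ℕ) (m : ℕ) (c : Curve N) : Prop where
  div : ∀ i, ∀ z ∈ Ext c.r0, (m : ℤ) ∣ c.oX i z
  root : ∀ j, c.ev (F j) ≠ 0 → ∀ z ∈ Ext c.r0, ∃ a : ℤ,
    c.ord z (c.ev (F j)) = ((md m (e j) * a : ℤ) : WithTop ℤ)

/-- the curve extends to infinity -/
def ExtC {N : ℕ} (c : Curve N) : Prop :=
  ∀ i, ∃ S : ℂ → ℂ, MeromorphicAt (fun w => S w⁻¹) 0 ∧ ∃ R0 : ℝ, ∀ z, R0 < ‖z‖ →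
    c.X i z = S z * c.X 0 z

/-- the monomial with exponent `γ` is meromorphic at infinity -/
def MInf {N : ℕ} (c : Curve N) (γ : Fin N → ℤ) : Prop :=
  ∃ S : ℂ → ℂ, MeromorphicAt (fun w => S w⁻¹) 0 ∧ ∃ R0 : ℝ, ∀ z ∈ c.U, R0 < ‖z‖ →
    c.monf γ z = S z

/-- quotients of curves: the curve given by finitely many monomials -/
def St_quot : Prop :=
  ∀ (N ρ : ℕ) (c : Curve N) (γ : Fin ρ → Fin N → ℤ), ∃ c' : Curve ρ, c'.r0 = c.r0 + 1 ∧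
    (∀ z ∈ Ext c'.r0, z ∈ c.U → z ∈ c'.U ∧ ∀ i, c'.xf i z = c.monf (γ i) z) ∧
    (∀ m : ℕ, (∀ i, ∀ z ∈ Ext c.r0, (m : ℤ) ∣ c.oX i z) →
      ∀ i, ∀ z ∈ Ext c'.r0, (m : ℤ) ∣ c'.oX i z) ∧
    (∀ g : Lau ρ, c'.ev g = 0 ↔ c.ev (lm γ g) = 0) ∧
    ∀ g : Lau ρ, ∀ z ∈ Ext c'.r0, c'.ord z (c'.ev g) = c.ord z (c.ev (lm γ g))

/-- the theorem for curves, for a squarefree polynomial over the field of the characters which are
trivial on the stabilizer -/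
def St_T : Prop :=
  ∀ (N : ℕ) (K : Type) [Field K] [Algebra ℂ K] (x : Fin N → Kˣ) (Γ₀ : Submodule ℤ (Fin N → ℤ)),
    Sat Γ₀ → (∀ g ∈ RingHom.ker (ep x), ∀ q, comp Γ₀ q g ∈ RingHom.ker (ep x)) →
    (∀ Γ, Sat Γ → (∀ g ∈ RingHom.ker (ep x), ∀ q, comp Γ q g ∈ RingHom.ker (ep x)) → Γ₀ ≤ Γ) →
    ∀ (b : ℕ) (bt : Fin b → Fin N → ℤ) (co : (Fin N → ℤ) →+ (Fin b → ℤ)), Splt Γ₀ bt co →
    ∀ (F : MvPolynomial (Fin b) (F0 x Γ₀)) (g : F0 x Γ₀) (f : Lau N), F ≠ 0 → Squarefree F →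
      g ≠ 0 → ep x f = (g : K) * aeval (fun j => (xm x (bt j) : K)) F →
      (∀ l : Fin b → ℤ, l ≠ 0 → ¬ HomL l F) →
    ∃ (μ : ℕ) (G : Lau N), ep x G ≠ 0 ∧ ∀ c : Curve N,
      (∀ z ∈ Ext c.r0, (∃ i, c.X i z = 0) → ∃ i, (μ : ℕ∞) ≤ analyticOrderAt (c.X i) z) →
      (∀ g, ep x g = 0 → c.ev g = 0) → (∀ z ∈ c.U, c.ord z (c.ev f) ≠ 1) → c.ev G ≠ 0 → ExtC c

/-- the essential part of finitely many polynomials: the product `g` of the prime factors whose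
multiplicity in some `F j` is not divisible by `e j` -/
def St_badG : Prop :=
  ∀ (k K : Type) [Field k] [CharZero k] [Field K] [Algebra k K] (b r : ℕ) (X : Fin b → K)
    (F : Fin r → MvPolynomial (Fin b) k) (e : Fin r → ℕ), AlgebraicIndependent k X →
    (∀ j, F j ≠ 0) →
    ∃ (g : MvPolynomial (Fin b) k) (H S : Fin r → MvPolynomial (Fin b) k) (m0 : ℕ)
      (Z : Finset (MvPolynomial (Fin b) k)),
      Squarefree g ∧ (∀ j, F j = H j * S j ^ e j) ∧ (∀ l, HomL l g → ∀ j, HomL l (H j)) ∧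
      ∀ m, m0 ≤ m → ∀ (R : Subring K) (v : R → WithTop ℤ), IsV v →
        (∀ a ∈ Z, aeval X a ∈ R) → ∀ (gr : R) (Fr : Fin r → R) (Xr : Fin b → R),
        (gr : K) = aeval X g → (∀ j, (Fr j : K) = aeval X (F j)) → (∀ i, (Xr i : K) = X i) →
        (∀ i, v (Xr i) = 0) →
        (∀ j, ∃ a : ℤ, v (Fr j) = ((md m (e j) * a : ℤ) : WithTop ℤ)) → v gr ≠ 1

/-- one step: reduction to a smaller torus, or the theorem for curves -/
def St_step : Prop :=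
  ∀ (N r : ℕ) (K : Type) [Field K] [Algebra ℂ K] (x : Fin N → Kˣ)
    (Γ₀ : Submodule ℤ (Fin N → ℤ)), Sat Γ₀ →
    (∀ g ∈ RingHom.ker (ep x), ∀ q, comp Γ₀ q g ∈ RingHom.ker (ep x)) →
    (∀ Γ, Sat Γ → (∀ g ∈ RingHom.ker (ep x), ∀ q, comp Γ q g ∈ RingHom.ker (ep x)) → Γ₀ ≤ Γ) →
    ∀ (F : Fin r → Lau N) (e : Fin r → ℕ), (∀ j, ep x (F j) ≠ 0) →
    (∃ l : Fin N → ℤ, l ≠ 0 ∧ (∀ m ∈ Γ₀, ∑ i, l i * m i = 0) ∧
      ∃ (A D S : Fin r → Lau N) (a : Fin r → Fin N → ℤ), ∀ j,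
        (∀ m ∈ (D j).coeff.support, m ∈ Γ₀) ∧ (∀ m ∈ (A j).coeff.support, ∑ i, l i * m i = 0) ∧
        ep x (D j) ≠ 0 ∧ ep x (A j) ≠ 0 ∧ ep x (S j) ≠ 0 ∧
        ep x (D j * F j) = ep x (A j * AddMonoidAlgebra.single (a j) 1 * S j ^ e j)) ∨
    ∃ (μ : ℕ) (G W : Lau N), ep x G ≠ 0 ∧ ep x W ≠ 0 ∧ (∀ m ∈ W.coeff.support, m ∈ Γ₀) ∧
      ∀ m, μ ≤ m → ∀ c : Curve N, AdmG F e m c → (∀ g, ep x g = 0 → c.ev g = 0) →
        (∀ z ∈ c.U, c.ord z (c.ev W) = 0) → c.ev G ≠ 0 → ExtC c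

/-- passing to a subgroup of characters -/
def St_desc : Prop :=
  ∀ (N : ℕ) (K : Type) [Field K] [Algebra ℂ K] (x : Fin N → Kˣ)
    (Γ₀ Γ : Submodule ℤ (Fin N → ℤ)), Sat Γ₀ → Sat Γ → Γ₀ ≤ Γ →
    (∀ g ∈ RingHom.ker (ep x), ∀ q, comp Γ₀ q g ∈ RingHom.ker (ep x)) →
    (∀ Γ, Sat Γ → (∀ g ∈ RingHom.ker (ep x), ∀ q, comp Γ q g ∈ RingHom.ker (ep x)) → Γ₀ ≤ Γ) →
    ∃ (ρ : ℕ) (γ : Fin ρ → Fin N → ℤ) (Γ' : Submodule ℤ (Fin ρ → ℤ)),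
      (Γ ≠ ⊤ → ρ < N) ∧ ρ ≤ N ∧ (∀ a : Fin ρ → ℤ, ∑ i, a i • γ i = 0 → a = 0) ∧
      (∀ m, m ∈ Γ ↔ ∃ a : Fin ρ → ℤ, m = ∑ i, a i • γ i) ∧
      (∀ a, a ∈ Γ' ↔ ∑ i, a i • γ i ∈ Γ₀) ∧ Sat Γ' ∧
      (∀ g : Lau ρ, ep (fun i => xm x (γ i)) g = ep x (lm γ g)) ∧
      (∀ g ∈ RingHom.ker (ep fun i => xm x (γ i)), ∀ q,
        comp Γ' q g ∈ RingHom.ker (ep fun i => xm x (γ i))) ∧
      ∀ Γ'', Sat Γ'' → (∀ g ∈ RingHom.ker (ep fun i => xm x (γ i)), ∀ q,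
        comp Γ'' q g ∈ RingHom.ker (ep fun i => xm x (γ i))) → Γ' ≤ Γ''

/-- the theorem for an irreducible subvariety of a torus -/
def St_prime : Prop :=
  ∀ (N r : ℕ) (K : Type) [Field K] [Algebra ℂ K] (x : Fin N → Kˣ) (F : Fin r → Lau N)
    (e : Fin r → ℕ), (∀ j, ep x (F j) ≠ 0) →
    ∃ (Γ : Submodule ℤ (Fin N → ℤ)) (A D S : Fin r → Lau N) (a : Fin r → Fin N → ℤ) (m0 : ℕ)
      (G : Lau N), Sat Γ ∧ ep x G ≠ 0 ∧
      (∀ g ∈ RingHom.ker (ep x), ∀ q, comp Γ q g ∈ RingHom.ker (ep x)) ∧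
      (∀ j, (∀ m ∈ (D j).coeff.support, m ∈ Γ) ∧ (∀ m ∈ (A j).coeff.support, m ∈ Γ) ∧
        D j ∣ G ∧ A j ∣ G ∧ S j ∣ G ∧
        ep x (D j * F j) = ep x (A j * AddMonoidAlgebra.single (a j) 1 * S j ^ e j)) ∧
      ∀ m, m0 ≤ m → (∀ j, e j ≠ 0 → e j ∣ m) → ∀ c : Curve N, AdmG F e m c →
        (∀ g, ep x g = 0 → c.ev g = 0) → c.ev G ≠ 0 → ∀ γ ∈ Γ, MInf c γ

/-- The point `x0` of the torus lies on an orbit of a nontrivial one-parameter group on which the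
equations `g = 0`, `g ∈ I`, are satisfied and the `F j` are products of a monomial and an
`e j`-th power, or zero. -/
def OrbPt {N r : ℕ} (I : Ideal (Lau N)) (F : Fin r → Lau N) (e : Fin r → ℕ)
    (x0 : Fin N → ℂ) : Prop :=
  ∃ l : Fin N → ℤ, l ≠ 0 ∧
    (∀ g ∈ I, ∀ s : ℂ, s ≠ 0 → lev g (fun i => s ^ l i * x0 i) = 0) ∧
    ∀ j, (∀ s : ℂ, s ≠ 0 → lev (F j) (fun i => s ^ l i * x0 i) = 0) ∨
      ∃ (k : ℤ) (S : Lau N), lev S x0 ≠ 0 ∧ lev (F j) x0 ≠ 0 ∧ ∀ s : ℂ, s ≠ 0 →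
        lev (F j) (fun i => s ^ l i * x0 i) * lev S x0 ^ e j
          = s ^ k * lev (F j) x0 * lev S (fun i => s ^ l i * x0 i) ^ e j

/-- entire curves in a closed subset of a torus, highly ramified over the boundary -/
def St_core : Prop :=
  ∀ (N r : ℕ) (I : Ideal (Lau N)) (F : Fin r → Lau N) (e : Fin r → ℕ),
    ∃ m0 : ℕ, ∀ m, m0 ≤ m → (∀ j, e j ≠ 0 → e j ∣ m) →
      ∀ U : Fin (N + 1) → ℂ → ℂ, (∀ i, Differentiable ℂ (U i)) →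
      (∀ z, ∃ i, U i z ≠ 0) → (∀ i, ∃ z, U i z ≠ 0) →
      (∀ i z, ∃ a : ℕ, analyticOrderAt (U i) z = ((m * a : ℕ) : ℕ∞)) →
      (∀ g ∈ I, ∀ z, (∀ i, U i z ≠ 0) → lev g (tor fun i => U i z) = 0) →
      (∀ j, (∀ z, (∀ i, U i z ≠ 0) → lev (F j) (tor fun i => U i z) = 0) ∨
        ∀ z, ∃ a : ℤ, meromorphicOrderAt (fun z => lev (F j) (tor fun i => U i z)) z
          = ((md m (e j) * a : ℤ) : WithTop ℤ)) →
      (∃ z z' i, U i z * U 0 z' ≠ U i z' * U 0 z) →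
      {z | (∀ i, U i z ≠ 0) ∧ ¬ OrbPt I F e (tor fun i => U i z)}.Countable

end Pool.Agent.Y192.KC
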