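import Pool.Agent.Y192.KC.ZDefs

/-!
The projective case: rational curves.
-/

set_option autoImplicit false

namespace Pool.Agent.Y192.KC

open MvPolynomial Metric FF Pool.Agent.W602.GT

variable {n r : ℕ} (X : Cov n r) (m : ℕ) {L : Type} [Field L] [Algebra ℂ L]
  (t : Fin (n + 1) → L) (w : Fin r → L)

/-- (nonconstant) morphisms from the affine line to the variety, given by polynomials without common
zeros; if the variety is projective, these are the rational curves in it -/
structure LineCurve (p : Fin (n + 1) → Polynomial ℂ) (s : Fin r → Polynomial ℂ) : Prop where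
  mem : ∀ z, Pt X m t w (fun i => (p i).eval z) (fun j => (s j).eval z)
  nonconst : ∃ z z', ¬ Same X m (fun i => (p i).eval z) (fun j => (s j).eval z)
    (fun i => (p i).eval z') (fun j => (s j).eval z')

/-- the rational curves lie in a proper closed subset -/
def PseudoRational : Prop :=
  ∃ (B : Poly n r) (D : ℕ), WH X m B D ∧ aeval (Sum.elim t w) B ≠ 0 ∧
    ∀ p s, LineCurve X m t w p s → ∀ z,
      eval (Sum.elim (fun i => (p i).eval z) (fun j => (s j).eval z)) B = 0

end Pool.Agent.Y192.KC
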