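import Pool.Agent.Y192.KC.ZK

/-!
The main theorem for covers of arbitrary projective varieties, from the steps.
-/

set_option autoImplicit false

namespace Pool.Agent.Y192.KC

open MvPolynomial Metric FF Pool.Agent.W602.GT Pool.Agent.Y192.OG Pool.Agent.W603.BP

/-- ideals which are homogeneous modulo a subgroup of exponents are homogeneous for the weights
which are trivial on the subgroup -/
theorem wpart_mem {N : ℕ} {I : Ideal (Lau N)} {Γ : Submodule ℤ (Fin N → ℤ)}
    (hhom : ∀ g ∈ I, ∀ q, comp Γ q g ∈ I) {l : Fin N → ℤ} (hl : ∀ m ∈ Γ, ∑ i, l i * m i = 0) :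
    ∀ g ∈ I, ∀ k, wpart l k g ∈ I := by
  classical
  intro g hg k
  have hch : ∀ q : (Fin N → ℤ) ⧸ Γ, ∃ m, Γ.mkQ m = q := fun q => Γ.mkQ_surjective q
  choose b hb using hch
  have hlb : ∀ m, ∑ i, l i * m i = ∑ i, l i * b (Γ.mkQ m) i := by
    intro m
    have h1 : m - b (Γ.mkQ m) ∈ Γ := by
      rw [← Submodule.Quotient.mk_eq_zero Γ]
      change Γ.mkQ (m - b (Γ.mkQ m)) = 0
      rw [map_sub, hb, sub_self]
    have h2 := hl _ h1
    simp only [Pi.sub_apply, mul_sub, Finset.sum_sub_distrib] at h2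
    linarith
  rw [← sum_comp Γ (wpart l k g)]
  refine I.sum_mem fun q _ => ?_
  have hcw : comp Γ q (wpart l k g) = if ∑ i, l i * b q i = k then comp Γ q g else 0 := by
    apply AddMonoidAlgebra.coeff_injective
    ext m
    rw [comp_coeff, wpart_coeff]
    by_cases h1 : Γ.mkQ m = q
    · rw [if_pos h1, hlb m, h1]
      by_cases h2 : ∑ i, l i * b q i = k
      · rw [if_pos h2, if_pos h2, comp_coeff, if_pos h1]
      · rw [if_neg h2, if_neg h2]
        rfl
    · rw [if_neg h1]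
      by_cases h2 : ∑ i, l i * b q i = k
      · rw [if_pos h2, comp_coeff, if_neg h1]
      · rw [if_neg h2]
        rfl
  rw [hcw]
  split_ifs
  · exact hhom g hg q
  · exact I.zero_mem

/-- if the subgroup of `St_prime` is not everything, there is a one-parameter group -/
theorem redL_of {N r : ℕ} {K : Type} [Field K] [Algebra ℂ K] {x : Fin N → Kˣ} {F : Fin r → Lau N}
    {e : Fin r → ℕ} {Γ : Submodule ℤ (Fin N → ℤ)} {A D S : Fin r → Lau N}
    {a : Fin r → Fin N → ℤ} {G : Lau N} (hs : Sat Γ) (hG : ep x G ≠ 0)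
    (hk : ∀ g ∈ RingHom.ker (ep x), ∀ q, comp Γ q g ∈ RingHom.ker (ep x))
    (hj : ∀ j, (∀ m ∈ (D j).coeff.support, m ∈ Γ) ∧ (∀ m ∈ (A j).coeff.support, m ∈ Γ) ∧
        D j ∣ G ∧ A j ∣ G ∧ S j ∣ G ∧
        ep x (D j * F j) = ep x (A j * AddMonoidAlgebra.single (a j) 1 * S j ^ e j))
    (hne : Γ ≠ ⊤) : RedL x F e := by
  obtain ⟨l, hl0, hl⟩ := exists_func hs hne
  have hdvd : ∀ B : Lau N, B ∣ G → ep x B ≠ 0 := by
    rintro B ⟨C, hC⟩ h
    rw [hC, map_mul, h, zero_mul] at hG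
    exact hG rfl
  refine ⟨l, hl0, wpart_mem hk hl, A, D, S, a, fun j => ?_⟩
  obtain ⟨h1, h2, h3, h4, h5, h6⟩ := hj j
  exact ⟨fun m hm => hl m (h1 m hm), fun m hm => hl m (h2 m hm), hdvd _ h3, hdvd _ h4, hdvd _ h5,
    h6⟩

theorem mainZ (h_prime : St_prime) (h_zred : St_zred) (h_zdisc : St_zdisc) (h_zexp : St_zexp)
    (h_zgm : St_zgm) (h_zngt : St_zngt) (h_zlg : St_zlg) (h_zup : St_zup) {n r : ℕ}
    (X : ZCov n r) :
    ∃ m0 : ℕ, ∀ m, m0 ≤ m → (∀ j, X.e j ∣ m) →
      ∀ (L : Type) [Field L] [Algebra ℂ L] (t : Fin (n + 1) → L) (w : Fin r → L),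
      ZField X m L t w → ∀ d : ℕ, 1 ≤ d → Algebra.trdeg ℂ L = d →
      [LogGeneralType ℂ L d (OffG X.toCov m t), PseudoPicard X.toCov m t w,
        PseudoBrody X.toCov m t w, PseudoGm X.toCov m t w, ¬ ZRed X].TFAE := by
  classical
  have hrest : ∀ m, 0 < m → (∀ j, X.e j ∣ m) →
      ∀ (L : Type) [Field L] [Algebra ℂ L] (t : Fin (n + 1) → L) (w : Fin r → L),
      ZField X m L t w → ∀ d : ℕ,
      (LogGeneralType ℂ L d (OffG X.toCov m t) → ¬ ZRed X) ∧
      (PseudoPicard X.toCov m t w → PseudoBrody X.toCov m t w) ∧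
      (PseudoBrody X.toCov m t w → PseudoGm X.toCov m t w) ∧
      (PseudoGm X.toCov m t w → ¬ ZRed X) := by
    intro m hm he L _ _ t w hF d
    exact ⟨fun h hR => h_zngt n r X m hm he hR L t w hF d h, (h_zexp n r X m hm he L t w hF).1,
      (h_zexp n r X m hm he L t w hF).2, fun h hR => h_zgm n r X m hm he hR L t w hF h⟩
  by_cases hR : ZRed X
  · refine ⟨1, fun m hm he L _ _ t w hF d hd _ => ?_⟩
    obtain ⟨a1, a2, a3, a4⟩ := hrest m hm he L t w hF d
    tfae_have 1 → 5 := a1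
    tfae_have 2 → 3 := a2
    tfae_have 3 → 4 := a3
    tfae_have 4 → 5 := a4
    tfae_have 5 → 1 := fun h => absurd hR h
    tfae_have 5 → 2 := fun h => absurd hR h
    tfae_finish
  · obtain ⟨K, i1, i2, x, hx, hgen⟩ := exists_K X
    have hRL : ¬ RedL x X.FL X.eL := fun h => hR (h_zred n r X K x hx h)
    have hFne : ∀ j, ep x (X.FL j) ≠ 0 := by
      intro j
      refine Fin.cases ?_ (fun j => ?_) j
      · intro h
        exact X.hGI ((hx X.G X.q X.hG).mp h)
      · intro h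
        exact X.hFI j ((hx (X.F j) (X.d j) (X.hF j)).mp h)
    obtain ⟨Γ, A, D, S, a, m0, G, hs, hG, hk, hj, hcurves⟩ :=
      h_prime n (r + 1) K x X.FL X.eL hFne
    have htop : Γ = ⊤ := by
      by_contra hne
      exact hRL (redL_of hs hG hk hj hne)
    by_cases hd : ∃ d : ℕ, 1 ≤ d ∧ Algebra.trdeg ℂ K = d
    · obtain ⟨d, hd1, hd2⟩ := hd
      obtain ⟨m1, hm1⟩ := h_zup n r X K x d hd1 hx hgen
        (h_zlg n (r + 1) K x X.FL X.eL d hFne hgen hd2 hd1 hRL)
      refine ⟨max 1 (max m1 m0), fun m hm he L _ _ t w hF d' _ hd'2 => ?_⟩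
      have hm0 : 0 < m := lt_of_lt_of_le one_pos ((le_max_left _ _).trans hm)
      have hdd : d' = d := by
        have h1 := trdeg_eq hx hgen hm0 he hF
        rw [hd'2, hd2] at h1
        exact_mod_cast h1
      subst hdd
      obtain ⟨a1, a2, a3, a4⟩ := hrest m hm0 he L t w hF d'
      tfae_have 1 → 5 := a1
      tfae_have 2 → 3 := a2
      tfae_have 3 → 4 := a3
      tfae_have 4 → 5 := a4
      tfae_have 5 → 1 := fun _ =>
        hm1 m (((le_max_left _ _).trans (le_max_right _ _)).trans hm) hm0 he L t w hF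
      tfae_have 5 → 2 := fun _ =>
        h_zdisc n r X K x m0 m G hx hG (fun m' hm' he' c hc1 hc2 hc3 γ =>
          hcurves m' hm' he' c hc1 hc2 hc3 γ (by rw [htop]; exact Submodule.mem_top))
          (((le_max_right _ _).trans (le_max_right _ _)).trans hm) hm0 he L t w hF
      tfae_finish
    · refine ⟨1, fun m hm he L _ _ t w hF d' hd'1 hd'2 => ?_⟩
      exfalso
      refine hd ⟨d', hd'1, ?_⟩
      rw [← hd'2]
      exact (trdeg_eq hx hgen hm he hF).symm

end Pool.Agent.Y192.KC
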