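import Pool.Agent.Y192.KC.Stm2

/-!
Covers of arbitrary projective varieties: definitions, and statements of the steps.
-/

set_option autoImplicit false

namespace Pool.Agent.Y192.KC

open MvPolynomial Metric FF Pool.Agent.W602.GT Pool.Agent.Y192.OG Pool.Agent.W603.BP

/-- the part of weight `k` of a polynomial, for the weights `l` of the variables -/
noncomputable def wp {n : ℕ} (l : Fin (n + 1) → ℤ) (k : ℤ) (A : MvPolynomial (Fin (n + 1)) ℂ) :
    MvPolynomial (Fin (n + 1)) ℂ := by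
  classical
  exact ∑ c ∈ A.support.filter fun c => ∑ i, l i * c i = k, monomial c (coeff c A)

/-- The data of a cover of an irreducible projective variety `Z`, which is given by a homogeneous
prime ideal `I` and does not lie in a coordinate hyperplane: forms `F j` of degree `d j` and a form
`G` of degree `q` which do not vanish on `Z`, and exponents `e j`. -/
structure ZCov (n r : ℕ) extends Cov n r where
  I : Ideal (MvPolynomial (Fin (n + 1)) ℂ)
  prime : I.IsPrime
  hom : ∀ f ∈ I, ∀ k, homogeneousComponent k f ∈ I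
  hX : ∀ i, MvPolynomial.X i ∉ I
  hFI : ∀ j, F j ∉ I
  hGI : G ∉ I

variable {n r : ℕ}

/-- `L` is the function field of an irreducible component of the cover of `Z` with the equations
`f (t 0 ^ m, …, t n ^ m) = 0`, `f ∈ I`, and `w j ^ e j = F j (t 0 ^ m, …, t n ^ m)`, and `t`, `w` are
homogeneous coordinates of its generic point. -/
structure ZField (X : ZCov n r) (m : ℕ) (L : Type) [Field L] [Algebra ℂ L] (t : Fin (n + 1) → L)
    (w : Fin r → L) : Prop where
  ne : t 0 ≠ 0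
  van : ∀ (f : MvPolynomial (Fin (n + 1)) ℂ) (k : ℕ), f.IsHomogeneous k →
    (aeval (fun i => t i ^ m) f = 0 ↔ f ∈ X.I)
  eqn : ∀ j, w j ^ X.e j = aeval (fun i => t i ^ m) (X.F j)
  gen : IntermediateField.adjoin ℂ (Set.range (fun i => t i / t 0) ∪
    Set.range (fun j => w j / t 0 ^ X.wt m j)) = ⊤

/-- There is a one-parameter group which acts nontrivially on projective space and preserves `Z` and
the essential branch divisors: on `Z`, the form `G` is homogeneous for the weights `l`, and the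
`F j` are products of `e j`-th powers and quotients of forms which are homogeneous for `l`. -/
def ZRed (X : ZCov n r) : Prop :=
  ∃ l : Fin (n + 1) → ℤ, (∃ i j, l i ≠ l j) ∧ (∀ f ∈ X.I, ∀ k, wp l k f ∈ X.I) ∧
    (∃ k, X.G - wp l k X.G ∈ X.I) ∧
    ∀ j, ∃ D H S : MvPolynomial (Fin (n + 1)) ℂ, D ∉ X.I ∧ H ∉ X.I ∧ S ∉ X.I ∧ Hom l D ∧ Hom l H ∧
      (∃ a, D.IsHomogeneous a) ∧ (∃ a, H.IsHomogeneous a) ∧ (∃ a, S.IsHomogeneous a) ∧
      D * X.F j - H * S ^ X.e j ∈ X.I

/-- there is a one-parameter group which preserves a subvariety of a torus and the essential parts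
of the divisors `F j = 0` -/
def RedL {N r : ℕ} {K : Type} [Field K] [Algebra ℂ K] (x : Fin N → Kˣ) (F : Fin r → Lau N)
    (e : Fin r → ℕ) : Prop :=
  ∃ l : Fin N → ℤ, l ≠ 0 ∧ (∀ g ∈ RingHom.ker (ep x), ∀ k, wpart l k g ∈ RingHom.ker (ep x)) ∧
    ∃ (A D S : Fin r → Lau N) (a : Fin r → Fin N → ℤ), ∀ j,
      (∀ m ∈ (D j).coeff.support, ∑ i, l i * m i = 0) ∧
      (∀ m ∈ (A j).coeff.support, ∑ i, l i * m i = 0) ∧
      ep x (D j) ≠ 0 ∧ ep x (A j) ≠ 0 ∧ ep x (S j) ≠ 0 ∧
      ep x (D j * F j) = ep x (A j * AddMonoidAlgebra.single (a j) 1 * S j ^ e j)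

/-- the Laurent polynomials of the data -/
noncomputable def ZCov.FL (X : ZCov n r) : Fin (r + 1) → Lau n :=
  Fin.cons (α := fun _ => Lau n) (laur X.G) fun j => laur (X.F j)

/-- the multiplicities of the data, zero (infinite multiplicity) for `G` -/
def ZCov.eL (X : ZCov n r) : Fin (r + 1) → ℕ := Fin.cons (α := fun _ => ℕ) 0 X.e

/-- one-parameter groups of the projective variety and of its intersection with the torus -/
def St_zred : Prop :=
  ∀ (n r : ℕ) (X : ZCov n r) (K : Type) [Field K] [Algebra ℂ K] (x : Fin n → Kˣ),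
    (∀ (f : MvPolynomial (Fin (n + 1)) ℂ) (k : ℕ), f.IsHomogeneous k →
      (ep x (laur f) = 0 ↔ f ∈ X.I)) →
    (RedL x X.FL X.eL → ZRed X)

/-- big Picard for the covers -/
def St_zdisc : Prop :=
  ∀ (n r : ℕ) (X : ZCov n r) (K : Type) [Field K] [Algebra ℂ K] (x : Fin n → Kˣ) (m0 m : ℕ)
    (G0 : Lau n),
    (∀ (f : MvPolynomial (Fin (n + 1)) ℂ) (k : ℕ), f.IsHomogeneous k →
      (ep x (laur f) = 0 ↔ f ∈ X.I)) → ep x G0 ≠ 0 →
    (∀ m, m0 ≤ m → (∀ j, X.eL j ≠ 0 → X.eL j ∣ m) → ∀ c : Curve n, AdmG X.FL X.eL m c →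
        (∀ g, ep x g = 0 → c.ev g = 0) → c.ev G0 ≠ 0 → ∀ γ, MInf c γ) →
    m0 ≤ m → 0 < m → (∀ j, X.e j ∣ m) →
    ∀ (L : Type) [Field L] [Algebra ℂ L] (t : Fin (n + 1) → L) (w : Fin r → L),
    ZField X m L t w → PseudoPicard X.toCov m t w

/-- from punctured discs to entire curves -/
def St_zexp : Prop :=
  ∀ (n r : ℕ) (X : ZCov n r) (m : ℕ), 0 < m → (∀ j, X.e j ∣ m) →
    ∀ (L : Type) [Field L] [Algebra ℂ L] (t : Fin (n + 1) → L) (w : Fin r → L),
    ZField X m L t w →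
    (PseudoPicard X.toCov m t w → PseudoBrody X.toCov m t w) ∧
      (PseudoBrody X.toCov m t w → PseudoGm X.toCov m t w)

/-- one-parameter groups acting on the cover -/
def St_zgm : Prop :=
  ∀ (n r : ℕ) (X : ZCov n r) (m : ℕ), 0 < m → (∀ j, X.e j ∣ m) → ZRed X →
    ∀ (L : Type) [Field L] [Algebra ℂ L] (t : Fin (n + 1) → L) (w : Fin r → L),
    ZField X m L t w → ¬ PseudoGm X.toCov m t w

/-- a cover with a one-parameter group is not of log general type -/
def St_zngt : Prop :=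
  ∀ (n r : ℕ) (X : ZCov n r) (m : ℕ), 0 < m → (∀ j, X.e j ∣ m) → ZRed X →
    ∀ (L : Type) [Field L] [Algebra ℂ L] (t : Fin (n + 1) → L) (w : Fin r → L),
    ZField X m L t w → ∀ d : ℕ, ¬ LogGeneralType ℂ L d (OffG X.toCov m t)

/-- the logarithmic Gauss map of a hypersurface in a torus is dominant, over any field -/
def St_gaussK : Prop :=
  ∀ (k K : Type) [Field k] [CharZero k] [Field K] [Algebra k K] (b : ℕ) (X : Fin b → K)
    (g : MvPolynomial (Fin b) k), AlgebraicIndependent k X →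
    IntermediateField.adjoin k (Set.range X) = ⊤ → g ≠ 0 → (∀ l : Fin b → ℤ, l ≠ 0 → ¬ HomL l g) →
    AlgebraicIndependent k (fun i => aeval X (MvPolynomial.X i * pderiv i g) / aeval X g)

/-- the logarithmic Gauss map of a subvariety of a torus with finite stabilizer is generically
finite -/
def St_gaussV : Prop :=
  ∀ (K : Type) [Field K] [Algebra ℂ K] (N d : ℕ) (x : Fin N → Kˣ),
    (∀ z : K, IsAlgebraic (IntermediateField.adjoin ℂ (Set.range fun i => (x i : K))) z) →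
    Algebra.trdeg ℂ K = d →
    (∀ l : Fin N → ℤ, l ≠ 0 → ∃ g ∈ RingHom.ker (ep x), ∃ k, wpart l k g ∉ RingHom.ker (ep x)) →
    ∃ s : Fin d → Fin N, AlgebraicIndependent ℂ (fun i => (x (s i) : K)) ∧
      ∃ θ : Fin d → Derivation ℂ K K, (∀ i j, θ i (x (s j) : K) = if i = j then (x (s j) : K) else 0) ∧
      ∀ z : K, IsAlgebraic (IntermediateField.adjoin ℂ (Set.range fun s' : Fin d → Fin N =>
        (Matrix.of fun i j : Fin d => θ i (x (s' j) : K) / (x (s' j) : K)).det)) z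

/-- places with centre on the torus, for a rational function field over a field which is generated
by units: logarithmic derivatives and regular derivations -/
def St_deepZ : Prop :=
  ∀ (k K : Type) [Field k] [Field K] [Algebra ℂ k] [Algebra ℂ K] [Algebra k K]
    [IsScalarTower ℂ k K] (N a b : ℕ) (y : Fin N → kˣ) (X : Fin b → Kˣ)
    (g : MvPolynomial (Fin b) k),
    (∀ z : k, IsAlgebraic (IntermediateField.adjoin ℂ (Set.range fun i => (y i : k))) z) →
    Algebra.trdeg ℂ k = a → AlgebraicIndependent k (fun i => (X i : K)) →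
    IntermediateField.adjoin k (Set.range fun i => (X i : K)) = ⊤ → g ≠ 0 → Squarefree g →
    ∀ P : Place ℂ K, (∀ i, P.ord (algebraMap k K (y i)) = 0) → (∀ i, P.ord (X i : K) = 0) →
    (∀ i, P.Reg (aeval (fun i => (X i : K)) (MvPolynomial.X i * pderiv i g) /
      aeval (fun i => (X i : K)) g)) ∨
    (∀ (z : Fin (a + b) → K), (∀ i, (∃ m : Fin N → ℤ, z i = algebraMap k K (xm y m : kˣ)) ∨
        ∃ j, z i = X j) →
      ∀ D : Fin (a + b) → Derivation ℂ K K, (∀ i, DerReg P (D i)) →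
      (Matrix.of fun i j => D i (z j)).det = 0 ∨ 1 ≤ P.ord (Matrix.of fun i j => D i (z j)).det) ∨
    ∃ p : MvPolynomial (Fin b) k, Irreducible p ∧ p ∣ g ∧ (∀ c : k, c ≠ 0 → P.ord (algebraMap k K c) = 0) ∧
      ∀ (A : MvPolynomial (Fin b) k) (s : ℕ), ¬ p ∣ A →
        P.ord (aeval (fun i => (X i : K)) (p ^ s * A)) = s

/-- the essential part of finitely many polynomials, and its prime factors -/
def St_badZ : Prop :=
  ∀ (k : Type) [Field k] [CharZero k] (b r : ℕ) (F : Fin r → MvPolynomial (Fin b) k)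
    (e : Fin r → ℕ), (∀ j, F j ≠ 0) →
    ∃ (g : MvPolynomial (Fin b) k) (H S : Fin r → MvPolynomial (Fin b) k),
      Squarefree g ∧ (∀ j, F j = H j * S j ^ e j) ∧ (∀ l, HomL l g → ∀ j, HomL l (H j)) ∧
      ∀ p, Irreducible p → p ∣ g → (∀ i, ¬ p ∣ MvPolynomial.X i) ∧
        ∃ (j : Fin r) (s : ℕ) (A : MvPolynomial (Fin b) k), F j = p ^ s * A ∧ ¬ p ∣ A ∧ ¬ e j ∣ s

/-- subvarieties of tori with divisors are of log general type, if there is no one-parameter
group -/
def St_zlg : Prop :=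
  ∀ (N r : ℕ) (K : Type) [Field K] [Algebra ℂ K] (x : Fin N → Kˣ) (F : Fin r → Lau N)
    (e : Fin r → ℕ) (d : ℕ), (∀ j, ep x (F j) ≠ 0) →
    IntermediateField.adjoin ℂ (Set.range fun i => (x i : K)) = ⊤ →
    Algebra.trdeg ℂ K = d → 1 ≤ d → ¬ RedL x F e →
    LogGeneralType ℂ K d (fun P => (∃ i, P.ord (x i : K) ≠ 0) ∨
      ∃ j, ¬ ((e j : ℤ) ∣ P.ord (ep x (F j))))

/-- log general type of finite extensions which are highly ramified -/
def St_lgtG : Prop :=
  ∀ (K : Type) [Field K] [Algebra ℂ K] [Algebra.EssFiniteType ℂ K] (n d : ℕ)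
    (y : Fin (n + 1) → K) (B : Place ℂ K → Prop), 1 ≤ d → (∀ i, y i ≠ 0) →
    (∀ z : K, IsAlgebraic (IntermediateField.adjoin ℂ (Set.range fun i => y i / y 0)) z) →
    LogGeneralType ℂ K d (fun P => (∃ i, P.ord (y i) ≠ P.ord (y 0)) ∨ B P) →
    ∃ m : ℕ, ∀ (L : Type) [Field L] [Algebra ℂ L] [Algebra.EssFiniteType ℂ L] [Algebra K L]
      [IsScalarTower ℂ K L] [Algebra.IsAlgebraic K L] (Bd : Place ℂ L → Prop),
      (∀ P : Place ℂ L, ¬ Bd P →
        ((∀ i, P.ord (algebraMap K L (y i)) = P.ord (algebraMap K L (y 0))) ∧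
          ∀ (P0 : Place ℂ K) (s : ℕ), (∀ z : K, P.ord (algebraMap K L z) = s * P0.ord z) → B P0 →
            2 ≤ s) ∨
        ∃ i j, P.ord (algebraMap K L (y i)) + m ≤ P.ord (algebraMap K L (y j))) →
      LogGeneralType ℂ L d Bd

/-- the covers are of log general type -/
def St_zup : Prop :=
  ∀ (n r : ℕ) (X : ZCov n r) (K : Type) [Field K] [Algebra ℂ K] (x : Fin n → Kˣ) (d : ℕ), 1 ≤ d →
    (∀ (f : MvPolynomial (Fin (n + 1)) ℂ) (k : ℕ), f.IsHomogeneous k →
      (ep x (laur f) = 0 ↔ f ∈ X.I)) →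
    IntermediateField.adjoin ℂ (Set.range fun i => (x i : K)) = ⊤ →
    LogGeneralType ℂ K d (fun P => (∃ i, P.ord (x i : K) ≠ 0) ∨
      ∃ j, ¬ ((X.eL j : ℤ) ∣ P.ord (ep x (X.FL j)))) →
    ∃ m0 : ℕ, ∀ m, m0 ≤ m → 0 < m → (∀ j, X.e j ∣ m) →
    ∀ (L : Type) [Field L] [Algebra ℂ L] (t : Fin (n + 1) → L) (w : Fin r → L),
    ZField X m L t w → LogGeneralType ℂ L d (OffG X.toCov m t)

end Pool.Agent.Y192.KC
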