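import Pool.Agent.Y192.OG.StG

/-!
Covers of projective space with the equations `w j ^ e j = F j (t 0 ^ m, …, t n ^ m)` in a weighted
projective space, and the complements of hypersurfaces `G (t 0 ^ m, …, t n ^ m) = 0` in them.
-/

set_option autoImplicit false

namespace Pool.Agent.Y192.KC

open MvPolynomial Metric FF Pool.Agent.W602.GT

/-- polynomials in the coordinates `t` and `w` -/
abbrev Poly (n r : ℕ) : Type := MvPolynomial (Fin (n + 1) ⊕ Fin r) ℂ

/-- The data of a cover: forms `F j` of degree `d j` and a form `G` of degree `q` in `n + 1`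
variables, and exponents `e j`. -/
structure Cov (n r : ℕ) where
  F : Fin r → MvPolynomial (Fin (n + 1)) ℂ
  d : Fin r → ℕ
  e : Fin r → ℕ
  G : MvPolynomial (Fin (n + 1)) ℂ
  q : ℕ
  hF : ∀ j, (F j).IsHomogeneous (d j)
  hF0 : ∀ j, F j ≠ 0
  he : ∀ j, 0 < e j
  hG : G.IsHomogeneous q
  hG0 : G ≠ 0

variable {n r : ℕ} (X : Cov n r) (m : ℕ)

/-- the weight of the coordinate `w j`; the coordinates `t i` have weight one -/
def Cov.wt (j : Fin r) : ℕ := m * X.d j / X.e j

/-- `B` is weighted homogeneous of degree `D` -/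
def WH (B : Poly n r) (D : ℕ) : Prop :=
  IsWeightedHomogeneous (Sum.elim (fun _ => 1) (X.wt m)) B D

/-- `L` is the function field of an irreducible component of the cover
`w j ^ e j = F j (t 0 ^ m, …, t n ^ m)`, and `t`, `w` are homogeneous coordinates of its generic
point. -/
structure FunctionField (L : Type) [Field L] [Algebra ℂ L] (t : Fin (n + 1) → L) (w : Fin r → L) :
    Prop where
  ne : t 0 ≠ 0
  ind : AlgebraicIndependent ℂ (fun i : Fin n => t i.succ / t 0)
  eqn : ∀ j, w j ^ X.e j = aeval (fun i => t i ^ m) (X.F j)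
  gen : IntermediateField.adjoin ℂ (Set.range (fun i => t i / t 0) ∪
    Set.range (fun j => w j / t 0 ^ X.wt m j)) = ⊤

section points

variable {L : Type} [Field L] [Algebra ℂ L] (t : Fin (n + 1) → L) (w : Fin r → L)

/-- the complex points of the variety: the points of the component with generic point `(t, w)`
which do not lie on the hypersurface `G (t 0 ^ m, …, t n ^ m) = 0` -/
def Pt (u : Fin (n + 1) → ℂ) (v : Fin r → ℂ) : Prop :=
  u ≠ 0 ∧ (∀ (B : Poly n r) (D : ℕ), WH X m B D → aeval (Sum.elim t w) B = 0 →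
    eval (Sum.elim u v) B = 0) ∧ eval (fun i => u i ^ m) X.G ≠ 0

/-- the same point of the weighted projective space -/
def Same (u : Fin (n + 1) → ℂ) (v : Fin r → ℂ) (u' : Fin (n + 1) → ℂ) (v' : Fin r → ℂ) : Prop :=
  ∃ s : ℂ, s ≠ 0 ∧ (∀ i, u' i = s * u i) ∧ ∀ j, v' j = s ^ X.wt m j * v j

/-- (nonconstant) entire curves in the variety, in homogeneous coordinates -/
structure Entire (u : ℂ → Fin (n + 1) → ℂ) (v : ℂ → Fin r → ℂ) : Prop where
  diffu : Differentiable ℂ u
  diffv : Differentiable ℂ v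
  mem : ∀ z, Pt X m t w (u z) (v z)
  nonconst : ∃ z z', ¬ Same X m (u z) (v z) (u z') (v z')

/-- holomorphic maps from the punctured disc to the variety, in homogeneous coordinates -/
structure Disc (u : ℂ → Fin (n + 1) → ℂ) (v : ℂ → Fin r → ℂ) : Prop where
  diffu : DifferentiableOn ℂ u (ball 0 1 \ {0})
  diffv : DifferentiableOn ℂ v (ball 0 1 \ {0})
  mem : ∀ z ∈ ball (0 : ℂ) 1 \ {0}, Pt X m t w (u z) (v z)

/-- the map extends to the origin, as a map to the projective compactification -/
def Extends (u : ℂ → Fin (n + 1) → ℂ) (v : ℂ → Fin r → ℂ) : Prop :=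
  ∃ ρ : ℝ, 0 < ρ ∧ ∃ (u' : ℂ → Fin (n + 1) → ℂ) (v' : ℂ → Fin r → ℂ),
    DifferentiableOn ℂ u' (ball 0 ρ) ∧ DifferentiableOn ℂ v' (ball 0 ρ) ∧
    (∀ z ∈ ball (0 : ℂ) ρ, u' z ≠ 0) ∧
    ∀ z ∈ ball (0 : ℂ) ρ \ {0}, Same X m (u' z) (v' z) (u z) (v z)

/-- (nonconstant) morphisms from the multiplicative group to the variety -/
structure GmCurve (p : Fin (n + 1) → Polynomial ℂ) (s : Fin r → Polynomial ℂ) : Prop where
  mem : ∀ z, z ≠ 0 → Pt X m t w (fun i => (p i).eval z) (fun j => (s j).eval z)
  nonconst : ∃ z z', z ≠ 0 ∧ z' ≠ 0 ∧ ¬ Same X m (fun i => (p i).eval z) (fun j => (s j).eval z)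
    (fun i => (p i).eval z') (fun j => (s j).eval z')

/-- pseudo Brody hyperbolic: all entire curves lie in a proper closed subset -/
def PseudoBrody : Prop :=
  ∃ (B : Poly n r) (D : ℕ), WH X m B D ∧ aeval (Sum.elim t w) B ≠ 0 ∧
    ∀ u v, Entire X m t w u v → ∀ z, eval (Sum.elim (u z) (v z)) B = 0

/-- pseudo Picard hyperbolic: the holomorphic maps from the punctured disc to the variety which are
not contained in a certain proper closed subset extend to the disc -/
def PseudoPicard : Prop :=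
  ∃ (B : Poly n r) (D : ℕ), WH X m B D ∧ aeval (Sum.elim t w) B ≠ 0 ∧
    ∀ u v, Disc X m t w u v →
      (∃ z ∈ ball (0 : ℂ) 1 \ {0}, eval (Sum.elim (u z) (v z)) B ≠ 0) → Extends X m u v

/-- the images of the nonconstant morphisms from the multiplicative group to the variety lie in a
proper closed subset -/
def PseudoGm : Prop :=
  ∃ (B : Poly n r) (D : ℕ), WH X m B D ∧ aeval (Sum.elim t w) B ≠ 0 ∧
    ∀ p s, GmCurve X m t w p s → ∀ z, z ≠ 0 →
      eval (Sum.elim (fun i => (p i).eval z) (fun j => (s j).eval z)) B = 0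

/-- the centre of the place `P` lies on the hypersurface `G (t 0 ^ m, …, t n ^ m) = 0` -/
def OffG (P : Place ℂ L) : Prop :=
  ∀ c : ℤ, (∀ i, c ≤ P.ord (t i)) → (∃ i, P.ord (t i) = c) →
    m * X.q * c < P.ord (aeval (fun i => t i ^ m) X.G)

end points

/-- `A` is homogeneous with respect to the weights `l` -/
def Hom (l : Fin (n + 1) → ℤ) (A : MvPolynomial (Fin (n + 1)) ℂ) : Prop :=
  ∃ k : ℤ, ∀ c ∈ A.support, ∑ i, l i * c i = k

/-- There is a one-parameter group which acts nontrivially on projective space and preserves the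
essential branch divisors: `G` is homogeneous for the weights `l`, and the `F j` are products of
`e j`-th powers and forms which are homogeneous for the weights `l`. -/
def Red : Prop :=
  ∃ l : Fin (n + 1) → ℤ, (∃ i j, l i ≠ l j) ∧ Hom l X.G ∧
    ∀ j, ∃ H S : MvPolynomial (Fin (n + 1)) ℂ, X.F j = H * S ^ X.e j ∧ Hom l H

end Pool.Agent.Y192.KC
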