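import Pool.Agent.Y192.KC.All1
import Pool.Agent.Y192.KC.ZMain
import Pool.Agent.Y658.KZ.Zred
import Pool.Agent.Y641.KZ.Disc
import Pool.Agent.Y961.KZ.Exp
import Pool.Agent.Y961.KZ.Bad
import Pool.Agent.Y721.KZ.Zgm
import Pool.Agent.Y721.KZ.Zngt
import Pool.Agent.Y421.KZ.GaussK
import Pool.Agent.Y421.KZ.GaussV
import Pool.Agent.Y179.KZ.DeepZ
import Pool.Agent.Y968.KZ.Main
import Pool.Agent.Y547.KZ.LgtG
import Pool.Agent.Y153.KZ.Zup

/-!
The steps together: the equivalence for covers of arbitrary projective varieties.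
-/

set_option autoImplicit false

namespace Pool.Agent.Y192.KC

open Pool.Agent.Y192.OG MvPolynomial Pool.Agent.W602.GT

theorem zlg_all : St_zlg :=
  Pool.Agent.Y968.KZ.t_zlg Pool.Agent.Y421.KZ.t_gaussK Pool.Agent.Y421.KZ.t_gaussV
    Pool.Agent.Y179.KZ.t_deepZ Pool.Agent.Y961.KZ.t_badZ Pool.Agent.Y333.OG.t_least
    Pool.Agent.Y809.OG.t_split Pool.Agent.Y290.OG.t_lift Pool.Agent.Y379.KG.t_desc

theorem mainZ_all {n r : ℕ} (X : ZCov n r) :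
    ∃ m0 : ℕ, ∀ m, m0 ≤ m → (∀ j, X.e j ∣ m) →
      ∀ (L : Type) [Field L] [Algebra ℂ L] (t : Fin (n + 1) → L) (w : Fin r → L),
      ZField X m L t w → ∀ d : ℕ, 1 ≤ d → Algebra.trdeg ℂ L = d →
      [LogGeneralType ℂ L d (OffG X.toCov m t), PseudoPicard X.toCov m t w,
        PseudoBrody X.toCov m t w, PseudoGm X.toCov m t w, ¬ ZRed X].TFAE :=
  mainZ prime_all Pool.Agent.Y658.KZ.t_zred Pool.Agent.Y641.KZ.t_zdisc
    Pool.Agent.Y961.KZ.t_zexp Pool.Agent.Y721.KZ.t_zgm Pool.Agent.Y721.KZ.t_zngt zlg_all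
    (Pool.Agent.Y153.KZ.t_zup Pool.Agent.Y547.KZ.t_lgtG) X

end Pool.Agent.Y192.KC
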