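import Pool.Agent.Y192.KC.Stm2

/-!
Statement: entire curves and rational curves in covers of arbitrary projective varieties.
-/

set_option autoImplicit false

namespace Pool.Agent.Y192.KC

open MvPolynomial Metric Pool.Agent.Y192.OG

/-- The projective variety with the equations `f (t 0 ^ m, …, t n ^ m) = 0`, `f ∈ E`, and
`w j ^ e j = F j (t 0 ^ m, …, t n ^ m)`, for forms `f` and `F j`, in a weighted projective space. -/
structure Proj (n r : ℕ) where
  E : Set (MvPolynomial (Fin (n + 1)) ℂ)
  F : Fin r → MvPolynomial (Fin (n + 1)) ℂ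
  d : Fin r → ℕ
  e : Fin r → ℕ
  hE : ∀ f ∈ E, ∃ k, f.IsHomogeneous k
  hF : ∀ j, (F j).IsHomogeneous (d j)
  he : ∀ j, 0 < e j

variable {n r : ℕ} (X : Proj n r) (m : ℕ)

/-- the weight of the coordinate `w j`; the coordinates `t i` have weight one -/
def Proj.wt (j : Fin r) : ℕ := m * X.d j / X.e j

/-- `B` is weighted homogeneous of degree `D` -/
def Proj.WH (B : Poly n r) (D : ℕ) : Prop :=
  IsWeightedHomogeneous (Sum.elim (fun _ => 1) (X.wt m)) B D

/-- the points of the variety -/
def Proj.Pt (u : Fin (n + 1) → ℂ) (v : Fin r → ℂ) : Prop :=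
  u ≠ 0 ∧ (∀ f ∈ X.E, eval (fun i => u i ^ m) f = 0) ∧
    ∀ j, v j ^ X.e j = eval (fun i => u i ^ m) (X.F j)

/-- the same point of the weighted projective space -/
def Proj.Same (u : Fin (n + 1) → ℂ) (v : Fin r → ℂ) (u' : Fin (n + 1) → ℂ) (v' : Fin r → ℂ) :
    Prop :=
  ∃ s : ℂ, s ≠ 0 ∧ (∀ i, u' i = s * u i) ∧ ∀ j, v' j = s ^ X.wt m j * v j

/-- (nonconstant) entire curves in the variety, in homogeneous coordinates -/
structure Proj.Entire (u : ℂ → Fin (n + 1) → ℂ) (v : ℂ → Fin r → ℂ) : Prop where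
  diffu : Differentiable ℂ u
  diffv : Differentiable ℂ v
  mem : ∀ z, X.Pt m (u z) (v z)
  nonconst : ∃ z z', ¬ X.Same m (u z) (v z) (u z') (v z')

/-- (nonconstant) rational curves in the variety, given by polynomials in one variable without
common zeros -/
structure Proj.Rational (p : Fin (n + 1) → Polynomial ℂ) (s : Fin r → Polynomial ℂ) : Prop where
  mem : ∀ z, X.Pt m (fun i => (p i).eval z) (fun j => (s j).eval z)
  nonconst : ∃ z z', ¬ X.Same m (fun i => (p i).eval z) (fun j => (s j).eval z)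
    (fun i => (p i).eval z') (fun j => (s j).eval z')

/-- Rational curves through the points of entire curves: all points of an entire curve, with
countably many exceptions, lie on rational curves. -/
def St_ratl : Prop :=
  ∀ (n r : ℕ) (X : Proj n r), ∃ m0 : ℕ, ∀ m, m0 ≤ m → (∀ j, X.e j ∣ m) →
    ∀ u v, X.Entire m u v →
      {z | ¬ ∃ (p : Fin (n + 1) → Polynomial ℂ) (s : Fin r → Polynomial ℂ), X.Rational m p s ∧
        ∃ y, X.Same m (fun i => (p i).eval y) (fun j => (s j).eval y) (u z) (v z)}.Countable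

end Pool.Agent.Y192.KC
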