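import Pool.Agent.Y192.KC.ZDefs
import Pool.Agent.Y192.KC.Fin

/-!
Statements: holomorphic maps from the punctured disc to covers of arbitrary quasi-projective
varieties, and curves isomorphic to images of the multiplicative group.
-/

set_option autoImplicit false

namespace Pool.Agent.Y192.KC

open MvPolynomial Metric Pool.Agent.Y192.OG Pool.Agent.W603.BP

/-- curves near infinity in a closed subset of a torus, highly ramified over the boundary -/
def St_coreP : Prop :=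
  ∀ (N r : ℕ) (I : Ideal (Lau N)) (F : Fin r → Lau N) (e : Fin r → ℕ),
    ∃ m0 : ℕ, ∀ m, m0 ≤ m → (∀ j, e j ≠ 0 → e j ∣ m) →
      ∀ c : Curve N, AdmG F e m c → (∀ g ∈ I, c.ev g = 0) →
      ExtC c ∨ {z | z ∈ c.U ∧ ¬ OrbPt I F e (fun i => c.xf i z)}.Countable

/-- The quasi-projective variety with the equations `f (t 0 ^ m, …, t n ^ m) = 0`, `f ∈ E`, and
`w j ^ e j = F j (t 0 ^ m, …, t n ^ m)`, and the condition `G (t 0 ^ m, …, t n ^ m) ≠ 0`. -/
structure LProj (n r : ℕ) extends Proj n r where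
  G : MvPolynomial (Fin (n + 1)) ℂ
  q : ℕ
  hG : G.IsHomogeneous q

variable {n r : ℕ} (X : LProj n r) (m : ℕ)

/-- the points of the variety -/
def LProj.Pt (u : Fin (n + 1) → ℂ) (v : Fin r → ℂ) : Prop :=
  X.toProj.Pt m u v ∧ eval (fun i => u i ^ m) X.G ≠ 0

/-- (nonconstant) entire curves in the variety, in homogeneous coordinates -/
structure LProj.Entire (u : ℂ → Fin (n + 1) → ℂ) (v : ℂ → Fin r → ℂ) : Prop where
  diffu : Differentiable ℂ u
  diffv : Differentiable ℂ v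
  mem : ∀ z, X.Pt m (u z) (v z)
  nonconst : ∃ z z', ¬ X.toProj.Same m (u z) (v z) (u z') (v z')

/-- holomorphic maps from the punctured disc to the variety, in homogeneous coordinates -/
structure LProj.Disc (u : ℂ → Fin (n + 1) → ℂ) (v : ℂ → Fin r → ℂ) : Prop where
  diffu : DifferentiableOn ℂ u (ball 0 1 \ {0})
  diffv : DifferentiableOn ℂ v (ball 0 1 \ {0})
  mem : ∀ z ∈ ball (0 : ℂ) 1 \ {0}, X.Pt m (u z) (v z)

/-- the map extends to the origin, as a map to the projective closure -/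
def LProj.Extends (u : ℂ → Fin (n + 1) → ℂ) (v : ℂ → Fin r → ℂ) : Prop :=
  ∃ ρ : ℝ, 0 < ρ ∧ ∃ (u' : ℂ → Fin (n + 1) → ℂ) (v' : ℂ → Fin r → ℂ),
    DifferentiableOn ℂ u' (ball 0 ρ) ∧ DifferentiableOn ℂ v' (ball 0 ρ) ∧
    (∀ z ∈ ball (0 : ℂ) ρ, u' z ≠ 0) ∧
    ∀ z ∈ ball (0 : ℂ) ρ \ {0}, X.toProj.Same m (u' z) (v' z) (u z) (v z)

/-- (nonconstant) morphisms from the multiplicative group to the variety -/
structure LProj.Gm (p : Fin (n + 1) → Polynomial ℂ) (s : Fin r → Polynomial ℂ) : Prop where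
  mem : ∀ z, z ≠ 0 → X.Pt m (fun i => (p i).eval z) (fun j => (s j).eval z)
  nonconst : ∃ z z', z ≠ 0 ∧ z' ≠ 0 ∧
    ¬ X.toProj.Same m (fun i => (p i).eval z) (fun j => (s j).eval z)
      (fun i => (p i).eval z') (fun j => (s j).eval z')

/-- the point lies on the image of a nonconstant morphism from the multiplicative group -/
def LProj.OnGm (u : Fin (n + 1) → ℂ) (v : Fin r → ℂ) : Prop :=
  ∃ (p : Fin (n + 1) → Polynomial ℂ) (s : Fin r → Polynomial ℂ), X.Gm m p s ∧
    ∃ y, y ≠ 0 ∧ X.toProj.Same m (fun i => (p i).eval y) (fun j => (s j).eval y) u v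

/-- punctured discs: essential singularities only along curves which are images of the
multiplicative group -/
def St_gmD : Prop :=
  ∀ (n r : ℕ) (X : LProj n r), ∃ m0 : ℕ, ∀ m, m0 ≤ m → (∀ j, X.e j ∣ m) →
    ∀ u v, X.Disc m u v → X.Extends m u v ∨
      {z | z ∈ ball (0 : ℂ) 1 \ {0} ∧ ¬ X.OnGm m (u z) (v z)}.Countable

/-- entire curves -/
def St_gmE : Prop :=
  ∀ (n r : ℕ) (X : LProj n r), ∃ m0 : ℕ, ∀ m, m0 ≤ m → (∀ j, X.e j ∣ m) →
    ∀ u v, X.Entire m u v → {z | ¬ X.OnGm m (u z) (v z)}.Countable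

end Pool.Agent.Y192.KC
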