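import Pool.Agent.Y192.KC.All1
import Pool.Agent.Y192.KC.PStm
import Pool.Agent.Y32.KP.CoreP
import Pool.Agent.Y32.KP.GmD
import Pool.Agent.Y961.KP.GmE

/-!
The steps together: punctured discs and entire curves in the covers.
-/

set_option autoImplicit false

namespace Pool.Agent.Y192.KC

theorem coreP_all : St_coreP := Pool.Agent.Y32.KP.t_coreP prime_all

theorem gmD_all : St_gmD := Pool.Agent.Y32.KP.t_gmD coreP_all

theorem gmE_all : St_gmE := Pool.Agent.Y961.KP.t_gmE gmD_all

end Pool.Agent.Y192.KC
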