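import Pool.Agent.Y192.KC.ZDefs
import Pool.Agent.W602.GT.SpecDefs

/-!
Statements: special covers of arbitrary projective varieties.
-/

set_option autoImplicit false

namespace Pool.Agent.Y192.KC

open MvPolynomial Metric FF Pool.Agent.W602.GT Pool.Agent.Y192.OG Pool.Agent.W603.BP

variable {n r : ℕ}

/-- `Z` is the closure of an orbit of a subtorus, parametrized by the monomials with the exponents
`A i` and the coefficients `c i`; on this orbit, `G` is a monomial and the `F j` are products of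
monomials and `e j`-th powers. -/
def Toric (X : ZCov n r) : Prop :=
  ∃ (p : ℕ) (A : Fin (n + 1) → Fin p → ℤ) (c : Fin (n + 1) → ℂ), (∀ i, c i ≠ 0) ∧
    (∀ (f : MvPolynomial (Fin (n + 1)) ℂ) (k : ℕ), f.IsHomogeneous k →
      (aeval (fun i => (AddMonoidAlgebra.single (A i) (c i) : Lau p)) f = 0 ↔ f ∈ X.I)) ∧
    (∃ (a : Fin p → ℤ) (α : ℂ), aeval (fun i => (AddMonoidAlgebra.single (A i) (c i) : Lau p)) X.G =
      AddMonoidAlgebra.single a α) ∧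
    ∀ j, ∃ (a : Fin p → ℤ) (S : Lau p),
      aeval (fun i => (AddMonoidAlgebra.single (A i) (c i) : Lau p)) (X.F j) =
        AddMonoidAlgebra.single a 1 * S ^ X.e j

/-- Brody special: there is a holomorphic map from the complex plane to the variety with Zariski
dense image -/
def DenseCurve (X : ZCov n r) (m : ℕ) {L : Type} [Field L] [Algebra ℂ L] (t : Fin (n + 1) → L)
    (w : Fin r → L) : Prop :=
  ∃ (u : ℂ → Fin (n + 1) → ℂ) (v : ℂ → Fin r → ℂ), Differentiable ℂ u ∧ Differentiable ℂ v ∧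
    (∀ z, Pt X.toCov m t w (u z) (v z)) ∧
    ∀ (B : Poly n r) (D : ℕ), WH X.toCov m B D → (∀ z, eval (Sum.elim (u z) (v z)) B = 0) →
      aeval (Sum.elim t w) B = 0

/-- a minimal group of characters -/
def St_min : Prop :=
  ∀ (N r : ℕ) (K : Type) [Field K] [Algebra ℂ K] (x : Fin N → Kˣ) (F : Fin r → Lau N)
    (e : Fin r → ℕ), (∀ j, ep x (F j) ≠ 0) →
    ∃ (ρ : ℕ) (γ : Fin ρ → Fin N → ℤ) (Γ : Submodule ℤ (Fin N → ℤ)) (F' : Fin r → Lau ρ)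
      (B S : Fin r → Lau N) (a : Fin r → Fin N → ℤ),
      (∀ a : Fin ρ → ℤ, ∑ i, a i • γ i = 0 → a = 0) ∧
      (∀ m, m ∈ Γ ↔ ∃ a : Fin ρ → ℤ, m = ∑ i, a i • γ i) ∧ Sat Γ ∧
      (∀ g ∈ RingHom.ker (ep x), ∀ q, comp Γ q g ∈ RingHom.ker (ep x)) ∧
      (∀ g : Lau ρ, ep (fun i => xm x (γ i)) g = ep x (lm γ g)) ∧
      (∀ j, ep x (B j) ≠ 0 ∧ ep x (S j) ≠ 0 ∧ ep x (lm γ (F' j)) ≠ 0 ∧
        ep x (B j ^ e j * F j) =
          ep x (lm γ (F' j) * AddMonoidAlgebra.single (a j) 1 * S j ^ e j)) ∧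
      ¬ RedL (fun i => xm x (γ i)) F' e

/-- the pull-back of logarithmic pluricanonical forms to highly ramified extensions of larger
transcendence degree -/
def St_bogG : Prop :=
  ∀ (K : Type) [Field K] [Algebra ℂ K] [Algebra.EssFiniteType ℂ K] (n p : ℕ)
    (y : Fin (n + 1) → K) (B : Place ℂ K → Prop), 1 ≤ p → (∀ i, y i ≠ 0) →
    (∀ z : K, IsAlgebraic (IntermediateField.adjoin ℂ (Set.range fun i => y i / y 0)) z) →
    LogGeneralType ℂ K p (fun P => (∃ i, P.ord (y i) ≠ P.ord (y 0)) ∨ B P) →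
    ∃ m : ℕ, ∀ (L : Type) [Field L] [Algebra ℂ L] [Algebra.EssFiniteType ℂ L] [Algebra K L]
      [IsScalarTower ℂ K L] (d : ℕ) (Bd : Place ℂ L → Prop), Algebra.trdeg ℂ L = d →
      (∀ P : Place ℂ L, ¬ Bd P →
        ((∀ i, P.ord (algebraMap K L (y i)) = P.ord (algebraMap K L (y 0))) ∧
          ∀ (P0 : Place ℂ K) (s : ℕ), (∀ z : K, P.ord (algebraMap K L z) = s * P0.ord z) → B P0 →
            s ≠ 1) ∨
        ∃ i j, P.ord (algebraMap K L (y i)) + m ≤ P.ord (algebraMap K L (y j))) →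
      BogSheaf ℂ L d Bd p

/-- the covers have Bogomolov sheaves, if the quotient of `Z` is of log general type -/
def St_zbog : Prop :=
  ∀ (n r : ℕ) (X : ZCov n r) (K : Type) [Field K] [Algebra ℂ K] (x : Fin n → Kˣ),
    (∀ (f : MvPolynomial (Fin (n + 1)) ℂ) (k : ℕ), f.IsHomogeneous k →
      (ep x (laur f) = 0 ↔ f ∈ X.I)) →
    ∀ (ρ p : ℕ) (γ : Fin ρ → Fin n → ℤ) (Γ : Submodule ℤ (Fin n → ℤ)) (F' : Fin (r + 1) → Lau ρ)
      (B S : Fin (r + 1) → Lau n) (a : Fin (r + 1) → Fin n → ℤ),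
      (∀ m, m ∈ Γ ↔ ∃ a : Fin ρ → ℤ, m = ∑ i, a i • γ i) → Sat Γ →
      (∀ g ∈ RingHom.ker (ep x), ∀ q, comp Γ q g ∈ RingHom.ker (ep x)) →
      (∀ j, ep x (B j) ≠ 0 ∧ ep x (S j) ≠ 0 ∧ ep x (lm γ (F' j)) ≠ 0 ∧
        ep x (B j ^ X.eL j * X.FL j) =
          ep x (lm γ (F' j) * AddMonoidAlgebra.single (a j) 1 * S j ^ X.eL j)) →
    ∀ (K' : Type) [Field K'] [Algebra ℂ K'] (x' : Fin ρ → K'ˣ),
      (∀ g : Lau ρ, ep x' g = 0 ↔ ep x (lm γ g) = 0) →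
      IntermediateField.adjoin ℂ (Set.range fun i => (x' i : K')) = ⊤ → 1 ≤ p →
      LogGeneralType ℂ K' p (fun P => (∃ i, P.ord (x' i : K') ≠ 0) ∨
        ∃ j, ¬ ((X.eL j : ℤ) ∣ P.ord (ep x' (F' j)))) →
      ∃ m0 : ℕ, ∀ m, m0 ≤ m → 0 < m → (∀ j, X.e j ∣ m) →
        ∀ (L : Type) [Field L] [Algebra ℂ L] (t : Fin (n + 1) → L) (w : Fin r → L),
        ZField X m L t w → ∀ d : ℕ, Algebra.trdeg ℂ L = d →
          BogSheaf ℂ L d (OffG X.toCov m t) p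

/-- toric covers are special -/
def St_tspec : Prop :=
  ∀ (n r : ℕ) (X : ZCov n r) (m : ℕ), 0 < m → (∀ j, X.e j ∣ m) → Toric X →
    ∀ (L : Type) [Field L] [Algebra ℂ L] (t : Fin (n + 1) → L) (w : Fin r → L),
    ZField X m L t w → ∀ d : ℕ, Algebra.trdeg ℂ L = d → Special ℂ L d (OffG X.toCov m t)

/-- toric covers are Brody special -/
def St_tdense : Prop :=
  ∀ (n r : ℕ) (X : ZCov n r) (m : ℕ), 0 < m → (∀ j, X.e j ∣ m) → Toric X →
    ∀ (L : Type) [Field L] [Algebra ℂ L] (t : Fin (n + 1) → L) (w : Fin r → L),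
    ZField X m L t w → DenseCurve X m t w

/-- Zariski dense entire curves: the characters which are meromorphic at infinity for all curves are
constant -/
def St_dconst : Prop :=
  ∀ (n r : ℕ) (X : ZCov n r) (K : Type) [Field K] [Algebra ℂ K] (x : Fin n → Kˣ) (m0 m : ℕ)
    (G0 : Lau n) (Γ : Submodule ℤ (Fin n → ℤ)),
    (∀ (f : MvPolynomial (Fin (n + 1)) ℂ) (k : ℕ), f.IsHomogeneous k →
      (ep x (laur f) = 0 ↔ f ∈ X.I)) → ep x G0 ≠ 0 →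
    (∀ m, m0 ≤ m → (∀ j, X.eL j ≠ 0 → X.eL j ∣ m) → ∀ c : Curve n, AdmG X.FL X.eL m c →
        (∀ g, ep x g = 0 → c.ev g = 0) → c.ev G0 ≠ 0 → ∀ γ ∈ Γ, MInf c γ) →
    m0 ≤ m → 0 < m → (∀ j, X.e j ∣ m) →
    ∀ (L : Type) [Field L] [Algebra ℂ L] (t : Fin (n + 1) → L) (w : Fin r → L),
    ZField X m L t w → DenseCurve X m t w → ∀ γ ∈ Γ, ∃ c : ℂ, (xm x γ : K) = algebraMap ℂ K c

/-- the toric case -/
def St_toric : Prop :=
  ∀ (n r : ℕ) (X : ZCov n r) (K : Type) [Field K] [Algebra ℂ K] (x : Fin n → Kˣ)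
    (Γ : Submodule ℤ (Fin n → ℤ)) (A B S : Fin (r + 1) → Lau n) (a : Fin (r + 1) → Fin n → ℤ),
    (∀ (f : MvPolynomial (Fin (n + 1)) ℂ) (k : ℕ), f.IsHomogeneous k →
      (ep x (laur f) = 0 ↔ f ∈ X.I)) → Sat Γ →
    (∀ g ∈ RingHom.ker (ep x), ∀ q, comp Γ q g ∈ RingHom.ker (ep x)) →
    (∀ j, (∀ m ∈ (A j).coeff.support, m ∈ Γ) ∧ ep x (A j) ≠ 0 ∧ ep x (B j) ≠ 0 ∧
      ep x (S j) ≠ 0 ∧ ep x (B j ^ X.eL j * X.FL j) =
        ep x (A j * AddMonoidAlgebra.single (a j) 1 * S j ^ X.eL j)) →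
    (∀ γ ∈ Γ, ∃ c : ℂ, (xm x γ : K) = algebraMap ℂ K c) → Toric X

end Pool.Agent.Y192.KC
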