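import Pool.Agent.Y192.KC.SStm
import Pool.Agent.Y192.KC.ZMain
import Pool.Agent.Y379.KG.Desc
import Pool.Agent.Y438.KS.Min

/-!
Special covers: the main theorem from the steps.
-/

set_option autoImplicit false

namespace Pool.Agent.Y192.KC

open MvPolynomial Metric FF Pool.Agent.W602.GT Pool.Agent.Y192.OG Pool.Agent.W603.BP

/-- an element of a supported subring -/
theorem lm_supp {ρ N : ℕ} (γ : Fin ρ → Fin N → ℤ) (Γ : Submodule ℤ (Fin N → ℤ))
    (hΓ : ∀ m, m ∈ Γ ↔ ∃ a : Fin ρ → ℤ, m = ∑ i, a i • γ i) (g : Lau ρ) :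
    ∀ m ∈ (lm γ g).coeff.support, m ∈ Γ := by
  classical
  induction g using AddMonoidAlgebra.induction_linear with
  | zero =>
    intro m hm
    rw [map_zero] at hm
    exact absurd rfl (Finsupp.mem_support_iff.mp hm)
  | add f g hf hg =>
    intro m hm
    rw [map_add] at hm
    by_contra hcon
    have h1 : (lm γ f).coeff m = 0 := by
      by_contra h
      exact hcon (hf m (Finsupp.mem_support_iff.mpr h))
    have h2 : (lm γ g).coeff m = 0 := by
      by_contra h
      exact hcon (hg m (Finsupp.mem_support_iff.mpr h))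
    apply Finsupp.mem_support_iff.mp hm
    rw [AddMonoidAlgebra.coeff_add, Finsupp.add_apply, h1, h2, add_zero]
  | single a c =>
    intro m hm
    have h1 : lm γ (AddMonoidAlgebra.single a c) =
        AddMonoidAlgebra.single (∑ i, a i • γ i) c := by
      unfold lm
      rw [AddMonoidAlgebra.lift_single]
      change c • AddMonoidAlgebra.single (∑ i, a i • γ i) (1 : ℂ) = _
      rw [AddMonoidAlgebra.smul_single, smul_eq_mul, mul_one]
    rw [h1] at hm
    have h2 : m = ∑ i, a i • γ i := by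
      by_contra hne
      apply Finsupp.mem_support_iff.mp hm
      rw [AddMonoidAlgebra.coeff_single, Finsupp.single_apply, if_neg (Ne.symm hne)]
    exact (hΓ m).mpr ⟨a, h2⟩

/-- finite transcendence degree -/
theorem finite_trdeg {N : ℕ} {K : Type} [Field K] [Algebra ℂ K] (x : Fin N → K)
    (hgen : IntermediateField.adjoin ℂ (Set.range x) = ⊤) :
    ∃ p : ℕ, Algebra.trdeg ℂ K = p := by
  have halg : Algebra.IsAlgebraic (Algebra.adjoin ℂ (Set.range x)) K := by
    refine ⟨fun z => ?_⟩
    have hz : z ∈ IntermediateField.adjoin ℂ (Set.range x) := by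
      rw [hgen]
      exact IntermediateField.mem_top
    obtain ⟨P, Q, h⟩ := (IntermediateField.mem_adjoin_range_iff ℂ x z).mp hz
    have hm : ∀ P : MvPolynomial (Fin N) ℂ, aeval x P ∈ Algebra.adjoin ℂ (Set.range x) := by
      intro P
      rw [Algebra.adjoin_range_eq_range_aeval]
      exact ⟨P, rfl⟩
    have h1 : ∀ P : MvPolynomial (Fin N) ℂ,
        IsAlgebraic (Algebra.adjoin ℂ (Set.range x)) (aeval x P) := fun P =>
      isAlgebraic_algebraMap (⟨aeval x P, hm P⟩ : Algebra.adjoin ℂ (Set.range x))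
    rw [h, div_eq_mul_inv]
    exact (h1 P).mul (h1 Q).inv
  have h2 := Algebra.IsAlgebraic.trdeg_le_cardinalMk ℂ (Set.range x) (A := K)
  have h3 : Cardinal.mk (Set.range x) < Cardinal.aleph0 :=
    Cardinal.lt_aleph0_iff_set_finite.mpr (Set.finite_range x)
  obtain ⟨p, hp⟩ := Cardinal.lt_aleph0.mp (h2.trans_lt h3)
  exact ⟨p, hp⟩

theorem mainS (h_prime : St_prime) (h_zlg : St_zlg) (h_min : St_min)
    (h_zbog : St_zbog) (h_tspec : St_tspec) (h_tdense : St_tdense) (h_dconst : St_dconst)
    (h_toric : St_toric) {n r : ℕ} (X : ZCov n r) :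
    ∃ m0 : ℕ, ∀ m, m0 ≤ m → (∀ j, X.e j ∣ m) →
      ∀ (L : Type) [Field L] [Algebra ℂ L] (t : Fin (n + 1) → L) (w : Fin r → L),
      ZField X m L t w → ∀ d : ℕ, Algebra.trdeg ℂ L = d →
      [Special ℂ L d (OffG X.toCov m t), DenseCurve X m t w, Toric X].TFAE := by
  classical
  have hfin : ∀ m, 0 < m → (∀ j, X.e j ∣ m) →
      ∀ (L : Type) [Field L] [Algebra ℂ L] (t : Fin (n + 1) → L) (w : Fin r → L),
      ZField X m L t w → ∀ d : ℕ, Algebra.trdeg ℂ L = d →
      (Toric X → Special ℂ L d (OffG X.toCov m t)) ∧ (Toric X → DenseCurve X m t w) :=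
    fun m hm he L _ _ t w hF d hd =>
      ⟨fun h => h_tspec n r X m hm he h L t w hF d hd, fun h => h_tdense n r X m hm he h L t w hF⟩
  by_cases hT : Toric X
  · refine ⟨1, fun m hm he L _ _ t w hF d hd => ?_⟩
    obtain ⟨a1, a2⟩ := hfin m hm he L t w hF d hd
    tfae_have 1 → 3 := fun _ => hT
    tfae_have 2 → 3 := fun _ => hT
    tfae_have 3 → 1 := a1
    tfae_have 3 → 2 := a2
    tfae_finish
  obtain ⟨K, i1, i2, x, hx, hgen⟩ := exists_K X
  have hFne : ∀ j, ep x (X.FL j) ≠ 0 := by
    intro j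
    refine Fin.cases ?_ (fun j => ?_) j
    · intro h
      exact X.hGI ((hx X.G X.q X.hG).mp h)
    · intro h
      exact X.hFI j ((hx (X.F j) (X.d j) (X.hF j)).mp h)
  -- dense curves
  obtain ⟨Γ, A, D, S, a, m1, G, hs, hG, hk, hj, hcurves⟩ :=
    h_prime n (r + 1) K x X.FL X.eL hFne
  have hdense : ∀ m, m1 ≤ m → 0 < m → (∀ j, X.e j ∣ m) →
      ∀ (L : Type) [Field L] [Algebra ℂ L] (t : Fin (n + 1) → L) (w : Fin r → L),
      ZField X m L t w → ¬ DenseCurve X m t w := by
    intro m hm1 hm he L _ _ t w hF hD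
    apply hT
    have hc := h_dconst n r X K x m1 m G Γ hx hG hcurves hm1 hm he L t w hF hD
    have hdvd : ∀ B : Lau n, B ∣ G → ep x B ≠ 0 := by
      rintro B ⟨C, hC⟩ h
      rw [hC, map_mul, h, zero_mul] at hG
      exact hG rfl
    have hconst : ∀ B : Lau n, (∀ m ∈ B.coeff.support, m ∈ Γ) → ∃ c : ℂ,
        ep x B = algebraMap ℂ K c := by
      intro B hB
      have h1 : B = ∑ m ∈ B.coeff.support, AddMonoidAlgebra.single m (B.coeff m) := by
        apply AddMonoidAlgebra.coeff_injective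
        rw [AddMonoidAlgebra.coeff_sum]
        simp only [AddMonoidAlgebra.coeff_single]
        exact (Finsupp.sum_single B.coeff).symm
      have h2 : ∀ m ∈ B.coeff.support, ∃ c : ℂ,
          ep x (AddMonoidAlgebra.single m (B.coeff m)) = algebraMap ℂ K c := by
        intro m hm
        obtain ⟨c, hc⟩ := hc m (hB m hm)
        refine ⟨B.coeff m * c, ?_⟩
        rw [ep_single, hc, map_mul, Algebra.smul_def]
      choose! c hc using h2
      refine ⟨∑ m ∈ B.coeff.support, c m, ?_⟩
      rw [h1, map_sum, map_sum]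
      rw [← h1]
      exact Finset.sum_congr rfl fun m hm => hc m hm
    -- the exponents of the general form
    refine h_toric n r X K x Γ
      (fun j => if X.eL j = 0 then
        AddMonoidAlgebra.single 0 (Classical.choose (hconst (A j) (hj j).2.1) /
          Classical.choose (hconst (D j) (hj j).1)) else A j * D j ^ (X.eL j - 1))
      (fun j => D j) S a hx hs hk (fun j => ?_) hc
    obtain ⟨p1, p2, p3, p4, p5, p6⟩ := hj j
    have hcA := Classical.choose_spec (hconst (A j) (hj j).2.1)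
    have hcD := Classical.choose_spec (hconst (D j) (hj j).1)
    set cA := Classical.choose (hconst (A j) (hj j).2.1)
    set cD := Classical.choose (hconst (D j) (hj j).1)
    have hA0 : cA ≠ 0 := by
      intro h
      apply hdvd _ p4
      rw [hcA, h, map_zero]
    have hD0 : cD ≠ 0 := by
      intro h
      apply hdvd _ p3
      rw [hcD, h, map_zero]
    by_cases he0 : X.eL j = 0
    · rw [if_pos he0, he0]
      refine ⟨?_, ?_, hdvd _ p3, hdvd _ p5, ?_⟩
      · intro m hm
        have hm' : m = 0 := by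
          by_contra hne
          apply Finsupp.mem_support_iff.mp hm
          rw [AddMonoidAlgebra.coeff_single, Finsupp.single_apply, if_neg (Ne.symm hne)]
        rw [hm']
        exact Γ.zero_mem
      · rw [ep_single, xm_zero, Units.val_one, Algebra.smul_def, mul_one]
        exact (map_ne_zero _).mpr (div_ne_zero hA0 hD0)
      · rw [he0, pow_zero, mul_one, map_mul, map_mul, hcD, hcA] at p6
        rw [pow_zero, one_mul, pow_zero, mul_one, map_mul, ep_single, xm_zero, Units.val_one,
          Algebra.smul_def, mul_one, map_div₀]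
        have hD1 : algebraMap ℂ K cD ≠ 0 := (map_ne_zero _).mpr hD0
        field_simp
        rw [mul_comm]
        exact p6
    · rw [if_neg he0]
      refine ⟨?_, ?_, hdvd _ p3, hdvd _ p5, ?_⟩
      · exact Pool.Agent.Y438.KS.supp_mul Γ p2 (Pool.Agent.Y438.KS.supp_pow Γ p1 _)
      · rw [map_mul, map_pow]
        exact mul_ne_zero (hdvd _ p4) (pow_ne_zero _ (hdvd _ p3))
      · obtain ⟨k, hk'⟩ := Nat.exists_eq_succ_of_ne_zero he0
        rw [hk', Nat.succ_eq_add_one] at p6 ⊢
        rw [Nat.add_sub_cancel]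
        rw [map_mul, map_mul, map_mul, map_pow] at p6
        rw [map_mul, map_mul, map_mul, map_mul, map_pow, map_pow, map_pow, pow_succ]
        linear_combination (ep x (D j)) ^ k * p6
  -- Bogomolov sheaves
  obtain ⟨ρ, γ, Γ', F', B, S', a', q1, q2, q3, q4, q5, q6, q7⟩ :=
    h_min n (r + 1) K x X.FL X.eL hFne
  let K' : IntermediateField ℂ K := IntermediateField.adjoin ℂ (Set.range fun i => (xm x (γ i) : K))
  have hmem : ∀ i, (xm x (γ i) : K) ∈ K' := fun i => IntermediateField.subset_adjoin _ _ ⟨i, rfl⟩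
  let x0 : Fin ρ → K' := fun i => ⟨(xm x (γ i) : K), hmem i⟩
  have hx0 : ∀ i, x0 i ≠ 0 := fun i h => (xm x (γ i)).ne_zero (congrArg Subtype.val h)
  let x' : Fin ρ → K'ˣ := fun i => Units.mk0 (x0 i) (hx0 i)
  have hep : ∀ g : Lau ρ, K'.val (ep x' g) = ep (fun i => xm x (γ i)) g := by
    intro g
    induction g using AddMonoidAlgebra.induction_linear with
    | zero => rw [map_zero, map_zero, map_zero]
    | add f g hf hg => rw [map_add, map_add, map_add, hf, hg]
    | single m c =>
      rw [ep_single, ep_single, map_smul]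
      congr 1
      unfold xm
      rw [Units.coe_prod, Units.coe_prod, map_prod]
      refine Finset.prod_congr rfl fun i _ => ?_
      rw [Units.val_zpow_eq_zpow_val, Units.val_zpow_eq_zpow_val, map_zpow₀]
      rfl
  have hker : ∀ g : Lau ρ, ep x' g = 0 ↔ ep x (lm γ g) = 0 := by
    intro g
    rw [← q5 g, ← hep g]
    exact (map_eq_zero_iff K'.val K'.val.injective).symm
  have hker2 : ∀ g : Lau ρ, g ∈ RingHom.ker (ep x') ↔
      g ∈ RingHom.ker (ep fun i => xm x (γ i)) := by
    intro g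
    rw [RingHom.mem_ker, RingHom.mem_ker, hker, q5]
  have hgen' : IntermediateField.adjoin ℂ (Set.range fun i => (x' i : K')) = ⊤ := by
    have h3 : (Set.range fun i => (x' i : K')) = Set.range x0 := rfl
    rw [h3]
    apply IntermediateField.lift_injective
    rw [IntermediateField.lift_top, IntermediateField.lift_adjoin]
    congr 1
    rw [← Set.range_comp]
    rfl
  have hred' : ¬ RedL x' F' X.eL := by
    rintro ⟨l, hl0, hl, A1, D1, S1, a1, h1⟩
    refine q7 ⟨l, hl0, fun g hg k => (hker2 _).mp (hl g ((hker2 _).mpr hg) k), A1, D1, S1, a1,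
      fun j => ?_⟩
    obtain ⟨h2, h3, h4, h5, h6, h7⟩ := h1 j
    have hne : ∀ g : Lau ρ, ep x' g ≠ 0 → ep (fun i => xm x (γ i)) g ≠ 0 := by
      intro g hg h
      exact hg ((hker2 g).mpr h)
    refine ⟨h2, h3, hne _ h4, hne _ h5, hne _ h6, ?_⟩
    rw [← hep, ← hep, h7]
  obtain ⟨p, hp⟩ := finite_trdeg (fun i => (x' i : K')) hgen'
  by_cases hp0 : p = 0
  · exfalso
    apply hT
    have halg : Algebra.IsAlgebraic ℂ K' := by
      rw [← trdeg_eq_zero_iff (R := ℂ) (A := K'), hp, hp0, Nat.cast_zero]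
    have hc1 : ∀ i, ∃ c : ℂ, (xm x (γ i) : K) = algebraMap ℂ K c := by
      intro i
      obtain ⟨c, hc⟩ := (IsAlgClosed.algebraMap_bijective_of_isIntegral (k := ℂ) (K := K')).2 (x0 i)
      exact ⟨c, (congrArg Subtype.val hc).symm⟩
    have hc : ∀ g ∈ Γ', ∃ c : ℂ, (xm x g : K) = algebraMap ℂ K c := by
      intro g hg
      obtain ⟨b, rfl⟩ := (q2 g).mp hg
      choose c hc using hc1
      refine ⟨∏ i, c i ^ b i, ?_⟩
      have h1 : (xm x (∑ i, b i • γ i) : K) = ∏ i, (xm x (γ i) : K) ^ b i := by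
        rw [Pool.Agent.Y379.KG.xm_sum, Units.coe_prod]
        refine Finset.prod_congr rfl fun i _ => ?_
        rw [Pool.Agent.Y379.KG.xm_smul, Units.val_zpow_eq_zpow_val]
      rw [h1, map_prod]
      exact Finset.prod_congr rfl fun i _ => by rw [hc i, map_zpow₀]
    refine h_toric n r X K x Γ' (fun j => lm γ (F' j)) B S' a' hx q3 q4 (fun j => ?_) hc
    obtain ⟨r1, r2, r3, r4⟩ := q6 j
    exact ⟨lm_supp γ Γ' q2 _, r3, r1, r2, r4⟩
  · have hp1 : 1 ≤ p := Nat.one_le_iff_ne_zero.mpr hp0
    have hF' : ∀ j, ep x' (F' j) ≠ 0 := fun j h => (q6 j).2.2.1 ((hker _).mp h)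
    have hlg := h_zlg ρ (r + 1) K' x' F' X.eL p hF' hgen' hp hp1 hred'
    obtain ⟨m2, hm2⟩ := h_zbog n r X K x hx ρ p γ Γ' F' B S' a' q2 q3 q4 q6 K' x' hker hgen' hp1
      hlg
    refine ⟨max 1 (max m1 m2), fun m hm he L _ _ t w hF d hd => ?_⟩
    have hm0 : 0 < m := lt_of_lt_of_le one_pos ((le_max_left _ _).trans hm)
    have e1 : ¬ Special ℂ L d (OffG X.toCov m t) := fun h =>
      h p hp1 (hm2 m (((le_max_right _ _).trans (le_max_right _ _)).trans hm) hm0 he L t w hF d hd)
    have e2 := hdense m (((le_max_left _ _).trans (le_max_right _ _)).trans hm) hm0 he L t w hF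
    tfae_have 1 → 3 := fun h => absurd h e1
    tfae_have 2 → 3 := fun h => absurd h e2
    tfae_have 3 → 1 := fun h => absurd h hT
    tfae_have 3 → 2 := fun h => absurd h hT
    tfae_finish

end Pool.Agent.Y192.KC
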