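import Pool.Agent.Y192.KC.AStm
import Pool.Agent.Y192.KC.SMain
import Pool.Agent.Y192.KC.All2
import Pool.Agent.Y658.KA.Ax
import Pool.Agent.Y484.KA.A1g
import Pool.Agent.Y960.KA.A1u
import Pool.Agent.Y199.NN.NegA1

/-!
Logarithmic Kodaira dimension `-∞` and `A¹`-uniruledness of the covers: the theorem from the steps.
-/

set_option autoImplicit false

namespace Pool.Agent.Y192.KC

open MvPolynomial Metric FF Pool.Agent.W602.GT Pool.Agent.Y192.OG Pool.Agent.W603.BP
  Pool.Agent.W619.PL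

/-- points are of log general type -/
theorem lgt_zero {K : Type} [Field K] [Algebra ℂ K] (h : Algebra.trdeg ℂ K = (0 : ℕ))
    (Bd : Place ℂ K → Prop) : LogGeneralType ℂ K 0 Bd := by
  refine ⟨h, 1, one_pos, fun _ _ => 1, fun _ A D => ?_, fun P _ _ D _ => ?_,
    fun P _ _ _ D _ => ?_, fun i => i.elim0, one_ne_zero, ?_⟩
  · rw [Matrix.det_isEmpty, one_pow, one_mul]
  · exact Or.inr P.ord_one.ge
  · exact Or.inr P.ord_one.ge
  · rw [algebraicIndependent_empty_type_iff]
    exact (algebraMap ℂ K).injective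

theorem mainA (h_zlg : St_zlg) (h_min : St_min) (h_a1u : St_a1u) (h_a1x : St_a1x)
    {n r : ℕ} (X : ZCov n r) :
    ∃ m0 : ℕ, ∀ m, m0 ≤ m → (∀ j, X.e j ∣ m) →
      ∀ (L : Type) [Field L] [Algebra ℂ L] (t : Fin (n + 1) → L) (w : Fin r → L),
      ZField X m L t w → ∀ d : ℕ, Algebra.trdeg ℂ L = d →
      [LogKodairaNeg ℂ L d (OffG X.toCov m t), IsA1Uniruled ℂ L d (OffG X.toCov m t),
        ZLim X].TFAE := by
  classical
  have hess : ∀ m, ∀ (L : Type) [Field L] [Algebra ℂ L] (t : Fin (n + 1) → L) (w : Fin r → L),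
      ZField X m L t w → Algebra.EssFiniteType ℂ L := by
    intro m L _ _ t w hF
    have h1 : (⊤ : IntermediateField ℂ L).FG := by
      rw [← hF.gen]
      exact IntermediateField.fg_adjoin_of_finite ((Set.finite_range _).union (Set.finite_range _))
    exact IntermediateField.fg_top_iff.mp h1
  have h21 : ∀ m, ∀ (L : Type) [Field L] [Algebra ℂ L] (t : Fin (n + 1) → L) (w : Fin r → L),
      ZField X m L t w → ∀ d : ℕ, Algebra.trdeg ℂ L = d →
      IsA1Uniruled ℂ L d (OffG X.toCov m t) → LogKodairaNeg ℂ L d (OffG X.toCov m t) := by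
    intro m L _ _ t w hF d hd h
    haveI := hess m L t w hF
    exact Pool.Agent.Y199.NN.neg_of_a1 hd h
  by_cases hT : ZLim X
  · refine ⟨1, fun m hm he L _ _ t w hF d hd => ?_⟩
    tfae_have 1 → 3 := fun _ => hT
    tfae_have 3 → 2 := fun h => h_a1u n r X m hm he h L t w hF d hd
    tfae_have 2 → 1 := h21 m L t w hF d hd
    tfae_finish
  obtain ⟨K, i1, i2, x, hx, hgen⟩ := exists_K X
  have hFne : ∀ j, ep x (X.FL j) ≠ 0 := by
    intro j
    refine Fin.cases ?_ (fun j => ?_) j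
    · intro h
      exact X.hGI ((hx X.G X.q X.hG).mp h)
    · intro h
      exact X.hFI j ((hx (X.F j) (X.d j) (X.hF j)).mp h)
  -- logarithmic forms
  obtain ⟨ρ, γ, Γ', F', B, S', a', q1, q2, q3, q4, q5, q6, q7⟩ :=
    h_min n (r + 1) K x X.FL X.eL hFne
  let K' : IntermediateField ℂ K := IntermediateField.adjoin ℂ (Set.range fun i => (xm x (γ i) : K))
  have hmem : ∀ i, (xm x (γ i) : K) ∈ K' := fun i => IntermediateField.subset_adjoin _ _ ⟨i, rfl⟩
  let x0 : Fin ρ → K' := fun i => ⟨(xm x (γ i) : K), hmem i⟩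
  have hx0 : ∀ i, x0 i ≠ 0 := fun i h => (xm x (γ i)).ne_zero (congrArg Subtype.val h)
  let x' : Fin ρ → K'ˣ := fun i => Units.mk0 (x0 i) (hx0 i)
  have hep : ∀ g : Lau ρ, K'.val (ep x' g) = ep (fun i => xm x (γ i)) g := by
    intro g
    induction g using AddMonoidAlgebra.induction_linear with
    | zero => rw [map_zero, map_zero, map_zero]
    | add f g hf hg => rw [map_add, map_add, map_add, hf, hg]
    | single m c =>
      rw [ep_single, ep_single, map_smul]
      congr 1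
      unfold xm
      rw [Units.coe_prod, Units.coe_prod, map_prod]
      refine Finset.prod_congr rfl fun i _ => ?_
      rw [Units.val_zpow_eq_zpow_val, Units.val_zpow_eq_zpow_val, map_zpow₀]
      rfl
  have hker : ∀ g : Lau ρ, ep x' g = 0 ↔ ep x (lm γ g) = 0 := by
    intro g
    rw [← q5 g, ← hep g]
    exact (map_eq_zero_iff K'.val K'.val.injective).symm
  have hker2 : ∀ g : Lau ρ, g ∈ RingHom.ker (ep x') ↔
      g ∈ RingHom.ker (ep fun i => xm x (γ i)) := by
    intro g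
    rw [RingHom.mem_ker, RingHom.mem_ker, hker, q5]
  have hgen' : IntermediateField.adjoin ℂ (Set.range fun i => (x' i : K')) = ⊤ := by
    have h3 : (Set.range fun i => (x' i : K')) = Set.range x0 := rfl
    rw [h3]
    apply IntermediateField.lift_injective
    rw [IntermediateField.lift_top, IntermediateField.lift_adjoin]
    congr 1
    rw [← Set.range_comp]
    rfl
  have hred' : ¬ RedL x' F' X.eL := by
    rintro ⟨l, hl0, hl, A1, D1, S1, a1, h1⟩
    refine q7 ⟨l, hl0, fun g hg k => (hker2 _).mp (hl g ((hker2 _).mpr hg) k), A1, D1, S1, a1,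
      fun j => ?_⟩
    obtain ⟨h2, h3, h4, h5, h6, h7⟩ := h1 j
    have hne : ∀ g : Lau ρ, ep x' g ≠ 0 → ep (fun i => xm x (γ i)) g ≠ 0 := by
      intro g hg h
      exact hg ((hker2 g).mpr h)
    refine ⟨h2, h3, hne _ h4, hne _ h5, hne _ h6, ?_⟩
    rw [← hep, ← hep, h7]
  obtain ⟨p, hp⟩ := finite_trdeg (fun i => (x' i : K')) hgen'
  have hF' : ∀ j, ep x' (F' j) ≠ 0 := fun j h => (q6 j).2.2.1 ((hker _).mp h)
  have hlg : LogGeneralType ℂ K' p (fun P => (∃ i, P.ord (x' i : K') ≠ 0) ∨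
      ∃ j, ¬ ((X.eL j : ℤ) ∣ P.ord (ep x' (F' j)))) := by
    rcases Nat.eq_zero_or_pos p with hp0 | hp1
    · subst hp0
      exact lgt_zero hp _
    · exact h_zlg ρ (r + 1) K' x' F' X.eL p hF' hgen' hp hp1 hred'
  obtain ⟨m2, hm2⟩ := h_a1x n r X K x hx hgen ρ p γ Γ' F' B S' a' q1 q2 q3 q4 q6 K' x' hker hgen'
    hlg hT
  refine ⟨max 1 m2, fun m hm he L _ _ t w hF d hd => ?_⟩
  have hm0 : 0 < m := lt_of_lt_of_le one_pos ((le_max_left _ _).trans hm)
  have e1 := hm2 m ((le_max_right _ _).trans hm) hm0 he L t w hF d hd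
  tfae_have 1 → 3 := fun h => absurd h e1
  tfae_have 3 → 2 := fun h => absurd h hT
  tfae_have 2 → 1 := h21 m L t w hF d hd
  tfae_finish

theorem mainA_all {n r : ℕ} (X : ZCov n r) :
    ∃ m0 : ℕ, ∀ m, m0 ≤ m → (∀ j, X.e j ∣ m) →
      ∀ (L : Type) [Field L] [Algebra ℂ L] (t : Fin (n + 1) → L) (w : Fin r → L),
      ZField X m L t w → ∀ d : ℕ, Algebra.trdeg ℂ L = d →
      [LogKodairaNeg ℂ L d (OffG X.toCov m t), IsA1Uniruled ℂ L d (OffG X.toCov m t),
        ZLim X].TFAE :=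
  mainA zlg_all Pool.Agent.Y438.KS.t_min Pool.Agent.Y960.KA.t_a1u
    (Pool.Agent.Y658.KA.t_a1x Pool.Agent.Y484.KA.t_a1g) X

end Pool.Agent.Y192.KC
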