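import Pool.Agent.Y192.KC.SStm
import Pool.Agent.W619.PL.LDefs

/-!
Statements: logarithmic Kodaira dimension `-∞` and `A¹`-uniruledness of the covers.
-/

set_option autoImplicit false

namespace Pool.Agent.Y192.KC

open MvPolynomial Metric FF Pool.Agent.W602.GT Pool.Agent.Y192.OG Pool.Agent.W603.BP
  Pool.Agent.W619.PL

variable {n r : ℕ}

/-- There is a one-parameter group which acts nontrivially on projective space and preserves `Z` and
the essential branch divisors, and such that, for all points `x` of `Z` with `G x ≠ 0`, the limit of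
`s ^ l * x` for `s → 0` satisfies `G ≠ 0` as well: on `Z`, the form `G` is homogeneous for the
weights `l`, of weight `q * min l`, and the `F j` are products of `e j`-th powers of quotients of
forms and quotients of forms which are homogeneous for `l`. -/
def ZLim (X : ZCov n r) : Prop :=
  ∃ l : Fin (n + 1) → ℤ, (∃ i j, l i ≠ l j) ∧ (∀ f ∈ X.I, ∀ k, wp l k f ∈ X.I) ∧
    (∃ a : ℤ, (∀ i, a ≤ l i) ∧ (∃ i, l i = a) ∧ X.G - wp l (X.q * a) X.G ∈ X.I) ∧
    ∀ j, ∃ D H B S : MvPolynomial (Fin (n + 1)) ℂ, D ∉ X.I ∧ H ∉ X.I ∧ B ∉ X.I ∧ S ∉ X.I ∧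
      Hom l D ∧ Hom l H ∧ (∃ a, D.IsHomogeneous a) ∧ (∃ a, H.IsHomogeneous a) ∧
      (∃ a, B.IsHomogeneous a) ∧ (∃ a, S.IsHomogeneous a) ∧
      D * B ^ X.e j * X.F j - H * S ^ X.e j ∈ X.I

/-- covers with a one-parameter group with limits are `A¹`-uniruled -/
def St_a1u : Prop :=
  ∀ (n r : ℕ) (X : ZCov n r) (m : ℕ), 0 < m → (∀ j, X.e j ∣ m) → ZLim X →
    ∀ (L : Type) [Field L] [Algebra ℂ L] (t : Fin (n + 1) → L) (w : Fin r → L),
    ZField X m L t w → ∀ d : ℕ, Algebra.trdeg ℂ L = d → IsA1Uniruled ℂ L d (OffG X.toCov m t)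

/-- logarithmic pluricanonical forms: the product of the pull-back of a form from a variety of log
general type, and a power of the logarithmic form `∧ d s c / s c` -/
def St_a1g : Prop :=
  ∀ (K : Type) [Field K] [Algebra ℂ K] [Algebra.EssFiniteType ℂ K] (n p q : ℕ)
    (y : Fin (n + 1) → K) (B : Place ℂ K → Prop), (∀ i, y i ≠ 0) →
    (∀ z : K, IsAlgebraic (IntermediateField.adjoin ℂ (Set.range fun i => y i / y 0)) z) →
    LogGeneralType ℂ K p (fun P => (∃ i, P.ord (y i) ≠ P.ord (y 0)) ∨ B P) →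
    ∃ m : ℕ, ∀ (L : Type) [Field L] [Algebra ℂ L] [Algebra.EssFiniteType ℂ L] [Algebra K L]
      [IsScalarTower ℂ K L] (s : Fin q → L) (Bd : Place ℂ L → Prop),
      Algebra.trdeg ℂ L = (p + q : ℕ) → (∀ c, s c ≠ 0) → AlgebraicIndependent K s →
      (∀ P : Place ℂ L, ¬ Bd P →
        ((∀ i, P.ord (algebraMap K L (y i)) = P.ord (algebraMap K L (y 0))) ∧
          (∀ (P0 : Place ℂ K) (e : ℕ), (∀ z : K, P.ord (algebraMap K L z) = e * P0.ord z) → B P0 →
            e ≠ 1) ∧ ∀ c, P.ord (s c) = 0) ∨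
        ∃ i j, P.ord (algebraMap K L (y i)) + m ≤ P.ord (algebraMap K L (y j))) →
      ¬ LogKodairaNeg ℂ L (p + q) Bd

/-- the covers have logarithmic pluricanonical forms, if there is no one-parameter group with
limits -/
def St_a1x : Prop :=
  ∀ (n r : ℕ) (X : ZCov n r) (K : Type) [Field K] [Algebra ℂ K] (x : Fin n → Kˣ),
    (∀ (f : MvPolynomial (Fin (n + 1)) ℂ) (k : ℕ), f.IsHomogeneous k →
      (ep x (laur f) = 0 ↔ f ∈ X.I)) →
    IntermediateField.adjoin ℂ (Set.range fun i => (x i : K)) = ⊤ →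
    ∀ (ρ p : ℕ) (γ : Fin ρ → Fin n → ℤ) (Γ : Submodule ℤ (Fin n → ℤ)) (F' : Fin (r + 1) → Lau ρ)
      (B S : Fin (r + 1) → Lau n) (a : Fin (r + 1) → Fin n → ℤ),
      (∀ a : Fin ρ → ℤ, ∑ i, a i • γ i = 0 → a = 0) →
      (∀ m, m ∈ Γ ↔ ∃ a : Fin ρ → ℤ, m = ∑ i, a i • γ i) → Sat Γ →
      (∀ g ∈ RingHom.ker (ep x), ∀ q, comp Γ q g ∈ RingHom.ker (ep x)) →
      (∀ j, ep x (B j) ≠ 0 ∧ ep x (S j) ≠ 0 ∧ ep x (lm γ (F' j)) ≠ 0 ∧
        ep x (B j ^ X.eL j * X.FL j) =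
          ep x (lm γ (F' j) * AddMonoidAlgebra.single (a j) 1 * S j ^ X.eL j)) →
    ∀ (K' : Type) [Field K'] [Algebra ℂ K'] (x' : Fin ρ → K'ˣ),
      (∀ g : Lau ρ, ep x' g = 0 ↔ ep x (lm γ g) = 0) →
      IntermediateField.adjoin ℂ (Set.range fun i => (x' i : K')) = ⊤ →
      LogGeneralType ℂ K' p (fun P => (∃ i, P.ord (x' i : K') ≠ 0) ∨
        ∃ j, ¬ ((X.eL j : ℤ) ∣ P.ord (ep x' (F' j)))) → ¬ ZLim X →
      ∃ m0 : ℕ, ∀ m, m0 ≤ m → 0 < m → (∀ j, X.e j ∣ m) →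
        ∀ (L : Type) [Field L] [Algebra ℂ L] (t : Fin (n + 1) → L) (w : Fin r → L),
        ZField X m L t w → ∀ d : ℕ, Algebra.trdeg ℂ L = d →
          ¬ LogKodairaNeg ℂ L d (OffG X.toCov m t)

end Pool.Agent.Y192.KC
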