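import Pool.Agent.Y192.OG.EAll
import Pool.Agent.Y487.KG.Prime
import Pool.Agent.Y32.KG.T
import Pool.Agent.Y32.KG.Quot
import Pool.Agent.Y32.KG.BadG
import Pool.Agent.Y317.KG.Step
import Pool.Agent.Y379.KG.Desc
import Pool.Agent.Y220.KG.Core
import Pool.Agent.H70KG.A3

/-!
The steps together: the theorem for irreducible subvarieties of tori, entire curves in closed subsets
of tori, rational curves.
-/

set_option autoImplicit false

namespace Pool.Agent.Y192.KC

open Pool.Agent.Y192.OG

theorem T_all : St_T :=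
  Pool.Agent.Y32.KG.t_T (Pool.Agent.Y290.OG.t_gr Pool.Agent.Y809.OG.t_split)
    Pool.Agent.Y809.OG.t_comp

theorem step_all : St_step :=
  Pool.Agent.Y317.KG.t_step Pool.Agent.Y32.KG.t_badG T_all Pool.Agent.Y809.OG.t_split
    Pool.Agent.Y290.OG.t_lift

theorem prime_all : St_prime :=
  Pool.Agent.Y487.KG.t_prime Pool.Agent.Y333.OG.t_least Pool.Agent.Y32.KG.t_quot T_all step_all
    Pool.Agent.Y379.KG.t_desc

theorem core_all : St_core := Pool.Agent.Y220.KG.t_core prime_all

theorem ratl_all : St_ratl := Pool.Agent.H70KG.t_ratl core_all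

end Pool.Agent.Y192.KC
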