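import Pool.Agent.Y192.KC.All2
import Pool.Agent.Y192.KC.SMain
import Pool.Agent.Y547.KS.BogG
import Pool.Agent.Y547.KS.Zbog
import Pool.Agent.Y379.KS.Spec
import Pool.Agent.Y379.KS.Dense
import Pool.Agent.Y961.KS.Dconst
import Pool.Agent.Y658.KS.Toric

/-!
The steps together: special and Brody special covers.
-/

set_option autoImplicit false

namespace Pool.Agent.Y192.KC

open MvPolynomial Pool.Agent.W602.GT

theorem mainS_all {n r : ℕ} (X : ZCov n r) :
    ∃ m0 : ℕ, ∀ m, m0 ≤ m → (∀ j, X.e j ∣ m) →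
      ∀ (L : Type) [Field L] [Algebra ℂ L] (t : Fin (n + 1) → L) (w : Fin r → L),
      ZField X m L t w → ∀ d : ℕ, Algebra.trdeg ℂ L = d →
      [Special ℂ L d (OffG X.toCov m t), DenseCurve X m t w, Toric X].TFAE :=
  mainS prime_all zlg_all Pool.Agent.Y438.KS.t_min
    (Pool.Agent.Y547.KS.t_zbog Pool.Agent.Y547.KS.t_bogG) Pool.Agent.Y379.KS.t_tspec
    Pool.Agent.Y379.KS.t_tdense Pool.Agent.Y961.KS.t_dconst Pool.Agent.Y658.KS.t_toric X

end Pool.Agent.Y192.KC
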