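import Pool.Agent.Y192.KC.All2
import Pool.Agent.Y192.KC.Proj
import Pool.Agent.W602.GT.KGen

/-!
Covers of arbitrary projective varieties: they are of general type or ruled.
-/

set_option autoImplicit false

namespace Pool.Agent.Y192.KC

open MvPolynomial FF IntermediateField Pool.Agent.W602.GT Pool.Agent.W603.LV

/-- a cover with a one-parameter group is ruled -/
theorem ruled_of_zred {n r : ℕ} {X : ZCov n r} {m : ℕ} (hm : 0 < m) (hem : ∀ j, X.e j ∣ m)
    (hRed : ZRed X) {L : Type} [Field L] [Algebra ℂ L] {t : Fin (n + 1) → L} {w : Fin r → L}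
    (hF : ZField X m L t w) : Ruled ℂ L := by
  obtain ⟨l, hl, hI, ⟨kG, hkG⟩, hH⟩ := hRed
  choose D H S hDI hHI hSI hDhom hHhom haD haH haS hFS using hH
  choose kD hkD using hDhom
  choose kH hkH using hHhom
  choose aD haD using haD
  choose aH haH using haH
  choose aS haS using haS
  obtain ⟨δ, σ, hσ0, hσ, htop, -⟩ := Pool.Agent.Y721.KZ.zcore hm hem hF l hl hI kG hkG D H S hDI
    hHI hSI aD aH aS haD haH haS hFS kD kH hkD hkH
  refine ⟨consts δ, σ, ?_, htop⟩
  intro halg
  have h1 : Algebra.IsAlgebraic (consts δ) L := by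
    have h2 : Algebra.IsAlgebraic (consts δ) (consts δ)⟮σ⟯ :=
      IntermediateField.isAlgebraic_adjoin_simple halg.isIntegral
    constructor
    intro z
    have h3 := h2.isAlgebraic (⟨z, by rw [htop]; exact IntermediateField.mem_top⟩ : (consts δ)⟮σ⟯)
    exact h3.algebraMap (A := L)
  have h2 : Algebra.IsAlgebraic (IntermediateField.adjoin ℂ (consts δ : Set L)) L := by
    rw [IntermediateField.adjoin_self]
    exact h1
  have h3 := der_eq_zero δ _ h2 (fun s hs => hs)
  rw [h3] at hσ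
  exact hσ0 hσ.symm

theorem dich_all {n r : ℕ} (X : ZCov n r) (hG : X.G = 1) :
    ∃ m0 : ℕ, ∀ m, m0 ≤ m → (∀ j, X.e j ∣ m) →
      ∀ (L : Type) [Field L] [Algebra ℂ L] (t : Fin (n + 1) → L) (w : Fin r → L),
      ZField X m L t w → ∀ d : ℕ, 1 ≤ d → Algebra.trdeg ℂ L = d →
      [¬ KodGe ℂ L d (fun _ => False) 0, ¬ Psef ℂ L d (fun _ => False), Ruled ℂ L,
        ¬ GeneralType ℂ L d, ¬ PseudoRational X.toCov m t w, ¬ PseudoBrody X.toCov m t w,
        ¬ PseudoPicard X.toCov m t w, ZRed X].TFAE := by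
  obtain ⟨m0, hm0⟩ := mainZ_all X
  refine ⟨max m0 1, fun m hm he L _ _ t w hF d hd htr => ?_⟩
  have h := hm0 m ((le_max_left _ _).trans hm) he L t w hF d hd htr
  have hmp : 0 < m := lt_of_lt_of_le one_pos ((le_max_right _ _).trans hm)
  have h1 : GeneralType ℂ L d ↔ PseudoBrody X.toCov m t w :=
    (general_iff (X := X.toCov) (m := m) (t := t) hG d).symm.trans (h.out 0 2)
  have h2 : PseudoBrody X.toCov m t w → PseudoRational X.toCov m t w := brody_rational
  have h3 : PseudoRational X.toCov m t w → PseudoBrody X.toCov m t w := fun h2 =>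
    (h.out 3 2).mp (rational_gm (X := X.toCov) hG he hF.eqn h2)
  have h4 : PseudoBrody X.toCov m t w ↔ ¬ ZRed X := h.out 2 4
  have h5 : PseudoBrody X.toCov m t w ↔ PseudoPicard X.toCov m t w := h.out 2 1
  tfae_have 8 → 3 := fun hz => ruled_of_zred hmp he hz hF
  tfae_have 3 → 2 := fun ⟨C, σ, hσ, htop⟩ => not_psef_of htr C hσ htop
  tfae_have 2 → 1 := fun h6 h7 => h6 (psef_of_kodGe h7)
  tfae_have 1 → 4 := fun h6 h7 => h6 (kod_of_general h7)
  tfae_have 4 ↔ 6 := not_congr h1
  tfae_have 5 ↔ 6 := not_congr ⟨h3, h2⟩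
  tfae_have 6 ↔ 7 := not_congr h5
  tfae_have 6 ↔ 8 := by rw [h4, not_not]
  tfae_finish

end Pool.Agent.Y192.KC
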