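import Pool.Agent.W602.GT.KGen
import Pool.Agent.TH143.GT.Pull

/-!
Fibrations of function fields with a one-parameter group: the base and the general fibre do not both
have pluricanonical forms.
-/

set_option autoImplicit false

namespace Pool.Agent.Y192.KC.Iit

open FF IntermediateField Pool.Agent.W602.GT Pool.Agent.W603.LV Pool.Agent.TH143.GT

section iit

variable {k K L : Type} [Field k] [Field K] [Field L] [Algebra k K] [Algebra k L] [Algebra K L]
  [IsScalarTower k K L]

/-- the coordinates of a derivation -/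
def crd {b : ℕ} (y : Fin b → K) : Derivation k K K →ₗ[K] (Fin b → K) where
  toFun := fun D j => D (y j)
  map_add' := fun _ _ => rfl
  map_smul' := fun _ _ => rfl

/-- the determinant form -/
noncomputable def detf {b : ℕ} (y : Fin b → K) :
    MultilinearMap K (fun _ : Fin b => Derivation k K K) K :=
  ((Matrix.detRowAlternating : (Fin b → K) [⋀^Fin b]→ₗ[K] K).compLinearMap (crd y)).toMultilinearMap

theorem detf_apply {b : ℕ} (y : Fin b → K) (D : Fin b → Derivation k K K) :
    detf y D = (Matrix.of fun i j => D i (y j)).det := rfl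

omit [IsScalarTower k K L] in
theorem pull_det {b : ℕ} {y : Fin b → K} {E : Fin b → Derivation k K K} (h : Dual y E)
    (D : Fin b → Derivation k L L) :
    pull (detf y) y E D = (Matrix.of fun i j => D i (algebraMap K L (y j))).det := by
  classical
  have h1 : (Matrix.of fun i j => D i (algebraMap K L (y j))).det =
      (Matrix.detRowAlternating : (Fin b → L) [⋀^Fin b]→ₗ[L] L).toMultilinearMap
        (fun i => ∑ l, D i (algebraMap K L (y l)) • (Pi.single l 1 : Fin b → L)) := by
    change Matrix.det _ = Matrix.det _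
    congr 1
    ext i j
    simp [Finset.sum_apply, Pi.single_apply]
  rw [h1, MultilinearMap.map_sum]
  unfold pull
  refine Finset.sum_congr rfl fun J _ => ?_
  rw [MultilinearMap.map_smul_univ, smul_eq_mul]
  congr 1
  rw [detf_apply, RingHom.map_det]
  change Matrix.det _ = Matrix.det _
  congr 1
  ext i j
  simp [h.2, Pi.single_apply, eq_comm]

theorem pull_kill [CharZero k] [Algebra.EssFiniteType k K] {b n : ℕ}
    (hb : Algebra.trdeg k K = b) (hn : Algebra.trdeg k L = n)
    (δ : Derivation k L L) {σ : L} (hσ0 : σ ≠ 0) (hσ : δ σ = σ) (htop : (consts δ)⟮σ⟯ = ⊤)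
    {N : ℕ} (hN : 0 < N) {f : K} (hf : f ≠ 0)
    {y : Fin b → K} {E : Fin b → Derivation k K K} (h : Dual y E)
    (hlog : ∀ v : Place k K, Divisorial b v → ∀ D : Fin b → Derivation k K K,
      (∀ i, DerLog v (D i)) → v.Reg (f * detf y D ^ N))
    (hreg : ∀ v : Place k K, Divisorial b v → ∀ D : Fin b → Derivation k K K,
      (∀ i, DerReg v (D i)) → v.Reg (f * detf y D ^ N))
    (j0 : Fin b) (D : Fin b → Derivation k L L) (hj : D j0 = δ)
    (hc : ∀ i z, D i (δ z) = δ (D i z)) (hs : ∀ i, i ≠ j0 → D i σ = 0) :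
    pull (detf y) y E D = 0 := by
  classical
  have key : ∀ (δ' : Derivation k L L) (σ' : L), σ' ≠ 0 → δ' σ' = σ' → (consts δ')⟮σ'⟯ = ⊤ →
      ∀ D' : Fin b → Derivation k L L, (∀ i z, D' i (δ' z) = δ' (D' i z)) →
      δ' (algebraMap K L f * pull (detf y) y E D' ^ N) = 0 := by
    intro δ' σ' h1 h2 h3 D' h4
    refine spec_const (Bd := fun _ => False) hn δ' h1 h2 h3 (fun _ _ _ h => h) D' h4 ?_ ?_
    · intro P hP hD
      exact (local_reg (Bd := fun _ => False) hb hn (detf y) hN f (fun v hv D hD => hlog v hv D hD)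
        (fun v hv _ D hD => hreg v hv D hD) h P hP D').1 hD
    · intro P hP _ hD
      exact (local_reg (Bd := fun _ => False) hb hn (detf y) hN f (fun v hv D hD => hlog v hv D hD)
        (fun v hv _ D hD => hreg v hv D hD) h P hP D').2 hD (fun _ _ _ h => h)
  have hchL : CharZero L := charZero_of_injective_algebraMap (algebraMap k L).injective
  -- the second one-parameter group
  have hσ1 : σ + 1 ≠ 0 := by
    intro h0
    have h1 : δ (σ + 1) = 0 := by rw [h0, map_zero]
    rw [map_add, δ.map_one_eq_zero, add_zero, hσ] at h1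
    exact hσ0 h1
  set s : L := (σ + 1) / σ with hsd
  have hs0 : s ≠ 0 := div_ne_zero hσ1 hσ0
  have hs1 : s = 1 + σ⁻¹ := by rw [hsd]; field_simp
  have hδs : δ s = - σ⁻¹ := by
    rw [hs1, map_add, δ.map_one_eq_zero, zero_add, δ.leibniz_inv, hσ]
    simp only [smul_eq_mul]
    field_simp
  set δ' : Derivation k L L := s • δ with hδ'
  have hcon : consts δ' = consts δ := by
    ext z
    change s • δ z = 0 ↔ δ z = 0
    rw [smul_eq_mul, mul_eq_zero]
    exact ⟨fun h => h.resolve_left hs0, Or.inr⟩
  have htop' : (consts δ')⟮σ + 1⟯ = ⊤ := by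
    rw [hcon, eq_top_iff, ← htop, IntermediateField.adjoin_simple_le_iff]
    have h1 := IntermediateField.mem_adjoin_simple_self (consts δ) (σ + 1)
    have h2 := sub_mem h1 (one_mem (consts δ)⟮σ + 1⟯)
    rwa [add_sub_cancel_right] at h2
  have hδσ' : δ' (σ + 1) = σ + 1 := by
    change s • δ (σ + 1) = σ + 1
    rw [map_add, δ.map_one_eq_zero, add_zero, hσ, smul_eq_mul, hsd, div_mul_cancel₀ _ hσ0]
  have hA := key δ σ hσ0 hσ htop D hc
  have hB := key δ' (σ + 1) hσ1 hδσ' htop' (Function.update D j0 δ') (by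
    intro i z
    by_cases hi : i = j0
    · subst hi
      rw [Function.update_self]
    · rw [Function.update_of_ne hi]
      change D i (s • δ z) = s • δ (D i z)
      have h1 : D i s = 0 := by
        rw [hs1, map_add, (D i).map_one_eq_zero, zero_add, (D i).leibniz_inv, hs i hi]
        simp
      rw [smul_eq_mul, (D i).leibniz, h1, hc, smul_zero, add_zero])
  have hpull : pull (detf y) y E (Function.update D j0 δ') = s * pull (detf y) y E D := by
    rw [pull_det h, pull_det h]
    have h1 : (Matrix.of fun i j => Function.update D j0 δ' i (algebraMap K L (y j))) =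
        (Matrix.of fun i j => D i (algebraMap K L (y j))).updateRow j0
          (s • (Matrix.of fun i j => D i (algebraMap K L (y j))) j0) := by
      ext i j
      by_cases hi : i = j0
      · subst hi
        rw [Matrix.updateRow_self]
        simp only [Matrix.of_apply, Function.update_self, Pi.smul_apply, hδ']
        rw [← hj]
        rfl
      · rw [Matrix.updateRow_ne hi]
        simp only [Matrix.of_apply, Function.update_of_ne hi]
    rw [h1, Matrix.det_updateRow_smul, Matrix.updateRow_eq_self]
  by_contra hne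
  set g := algebraMap K L f * pull (detf y) y E D ^ N with hg
  have hg0 : g ≠ 0 := mul_ne_zero (by simpa using hf) (pow_ne_zero _ hne)
  have hB' : δ (s ^ N * g) = 0 := by
    have h1 : algebraMap K L f * pull (detf y) y E (Function.update D j0 δ') ^ N = s ^ N * g := by
      rw [hpull, hg, mul_pow]
      ring
    rw [h1] at hB
    have h2 : s • δ (s ^ N * g) = 0 := hB
    rw [smul_eq_mul, mul_eq_zero] at h2
    exact h2.resolve_left hs0
  rw [δ.leibniz, hA, smul_zero, zero_add, δ.leibniz_pow, hδs] at hB'
  simp only [smul_eq_mul, nsmul_eq_mul, mul_eq_zero, Nat.cast_eq_zero, neg_eq_zero,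
    inv_eq_zero] at hB'
  rcases hB' with h1 | h1 | h1 | h1
  · exact hg0 h1
  · omega
  · exact pow_ne_zero _ hs0 h1
  · exact hσ0 h1

/-- a frame -/
theorem frame [CharZero k] {n : ℕ} (hn : Algebra.trdeg k L = n) (δ : Derivation k L L) {σ : L}
    (hσ0 : σ ≠ 0) (hσ : δ σ = σ) (htop : (consts δ)⟮σ⟯ = ⊤) :
    ∃ (i0 : Fin n) (Δ : Fin n → Derivation k L L), Δ i0 = δ ∧ (∀ i, i ≠ i0 → Δ i σ = 0) ∧
      (∀ i z, Δ i (δ z) = δ (Δ i z)) ∧
      ∀ D : Derivation k L L, ∃ c : Fin n → L, D = ∑ l, c l • Δ l := by
  classical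
  set C := consts δ with hC
  have hσt : Transcendental C σ := by
    intro halg
    have h1 : Algebra.IsAlgebraic C L := by
      have h2 : Algebra.IsAlgebraic C C⟮σ⟯ :=
        IntermediateField.isAlgebraic_adjoin_simple halg.isIntegral
      constructor
      intro z
      have h3 := h2.isAlgebraic (⟨z, by rw [htop]; exact IntermediateField.mem_top⟩ : C⟮σ⟯)
      exact h3.algebraMap (A := L)
    have h2 : Algebra.IsAlgebraic (IntermediateField.adjoin k (C : Set L)) L := by
      rw [IntermediateField.adjoin_self]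
      exact h1
    have h3 := der_eq_zero δ _ h2 (fun s hs => hs)
    rw [h3] at hσ
    exact hσ0 hσ.symm
  obtain ⟨B, hB⟩ := exists_isTranscendenceBasis k C
  have hσb : IsTranscendenceBasis C (fun _ : Unit => σ) := by
    have h1 : AlgebraicIndependent C (fun _ : Unit => σ) :=
      (algebraicIndependent_unique_type_iff).2 hσt
    rw [h1.isTranscendenceBasis_iff_isAlgebraic]
    apply alg_adjoin
    have h2 : Set.range (fun _ : Unit => σ) = {σ} := by simp
    rw [h2, htop]
    infer_instance
  have hBσ := hB.sumElim_comp hσb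
  have hcard := hBσ.cardinalMk_eq_trdeg
  rw [hn] at hcard
  have hfin : Finite (Unit ⊕ B) := by
    rw [← Cardinal.lt_aleph0_iff_finite, hcard]
    exact Cardinal.natCast_lt_aleph0
  have : Fintype (Unit ⊕ B) := Fintype.ofFinite _
  have hcard' : Fintype.card (Unit ⊕ B) = n := by
    rw [Cardinal.mk_fintype] at hcard
    exact_mod_cast hcard
  let e : Fin n ≃ Unit ⊕ B := (Fintype.equivFinOfCardEq hcard').symm
  set x : Fin n → L := Sum.elim (fun _ => σ) (fun c : B => ((c : C) : L)) ∘ e with hxd
  have hx : IsTranscendenceBasis k x := by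
    have h1 := hBσ.comp_equiv e
    exact h1
  set i0 : Fin n := e.symm (Sum.inl ()) with hi0
  have hx0 : x i0 = σ := by simp [hxd, hi0]
  have hx1 : ∀ i, i ≠ i0 → δ (x i) = 0 := by
    intro i hi
    rcases hei : e i with u | c
    · exact absurd (by rw [hi0, Equiv.eq_symm_apply, hei]) hi
    · have h1 : x i = ((c : C) : L) := by simp [hxd, hei]
      rw [h1]
      exact (c : C).2
  obtain ⟨Δ, hΔ, hcomm, hspan⟩ := exists_frame x hx
  have hΔ0 : Δ i0 = δ := by
    apply der_ext x hx
    intro i
    rw [hΔ]
    by_cases hi : i = i0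
    · rw [if_pos hi, hi, hx0, hσ]
    · rw [if_neg hi, hx1 i hi]
  refine ⟨i0, Δ, hΔ0, fun i hi => ?_, fun i z => ?_, fun D => ⟨_, hspan D⟩⟩
  · rw [← hx0, hΔ, if_neg (Ne.symm hi)]
  · rw [← hΔ0]
    exact hcomm i i0 z

/-- **The base.** If a field generated by `σ` over the constants of `δ`, `δ σ = σ`, contains a field
`K` which is not killed by `δ` then `K` has Kodaira dimension `-∞`. -/
theorem base_neg [CharZero k] [Algebra.EssFiniteType k K] {b n : ℕ}
    (hb : Algebra.trdeg k K = b) (hn : Algebra.trdeg k L = n)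
    (δ : Derivation k L L) {σ : L} (hσ0 : σ ≠ 0) (hσ : δ σ = σ) (htop : (consts δ)⟮σ⟯ = ⊤)
    (hK : ∃ z : K, δ (algebraMap K L z) ≠ 0) : ¬ KodGe k K b (fun _ => False) 0 := by
  classical
  rintro ⟨N, hN, ω, hω, D0, hD0, -⟩
  have hchK : CharZero K := charZero_of_injective_algebraMap (algebraMap k K).injective
  -- a dual basis
  obtain ⟨y, hy⟩ : ∃ y : Fin b → K, IsTranscendenceBasis k y := by
    obtain ⟨B, hB⟩ := exists_isTranscendenceBasis k K
    have hcard := hB.cardinalMk_eq_trdeg
    rw [hb] at hcard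
    have hfin : Finite B := by
      rw [← Cardinal.lt_aleph0_iff_finite, hcard]
      exact Cardinal.natCast_lt_aleph0
    have : Fintype B := Fintype.ofFinite _
    have hcard' : Fintype.card B = b := by
      rw [Cardinal.mk_fintype] at hcard
      exact_mod_cast hcard
    exact ⟨_, hB.comp_equiv (Fintype.equivFinOfCardEq hcard').symm⟩
  have hE : ∀ i : Fin b, ∃ E : Derivation k K K, ∀ j, E (y j) = if i = j then 1 else 0 :=
    fun i => exists_der y hy _
  choose E hE using hE
  have h : Dual y E := ⟨hy, hE⟩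
  have hωD : ∀ D : Fin b → Derivation k K K, ω 0 D = ω 0 E * detf y D ^ N := by
    intro D
    have h1 := (hω 0).1 (Matrix.of fun i j => D i (y j)) E
    have h2 : (fun i => ∑ j, (Matrix.of fun i j => D i (y j) : Matrix _ _ K) i j • E j) = D := by
      funext i
      exact (h.expand (D i)).symm
    rw [h2] at h1
    rw [h1, detf_apply, mul_comm]
  have hf : ω 0 E ≠ 0 := by
    intro h0
    apply hD0
    rw [hωD, h0, zero_mul]
  -- the derivation does not kill all coordinates
  obtain ⟨j0, hj0⟩ : ∃ j0, δ (algebraMap K L (y j0)) ≠ 0 := by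
    by_contra hno
    push Not at hno
    obtain ⟨z, hz⟩ := hK
    apply hz
    rw [h.chain δ z]
    exact Finset.sum_eq_zero fun j _ => by rw [hno, zero_mul]
  have hker : ∀ D : Fin b → Derivation k L L, D j0 = δ → pull (detf y) y E D = 0 := by
    intro D hD
    obtain ⟨i0, Δ, hΔ0, hΔσ, hΔc, hspan⟩ := frame hn δ hσ0 hσ htop
    have hc : ∀ i, ∃ c : Fin n → L, D i = ∑ l, c l • Δ l ∧ (i = j0 → ∀ l, l ≠ i0 → c l = 0) := by
      intro i
      by_cases hi : i = j0
      · refine ⟨fun l => if l = i0 then 1 else 0, ?_, fun _ l hl => if_neg hl⟩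
        rw [hi, hD, Finset.sum_eq_single i0]
        · simp only [if_true, one_smul, hΔ0]
        · intro l _ hl
          simp only [if_neg hl, zero_smul]
        · intro hh
          exact absurd (Finset.mem_univ i0) hh
      · obtain ⟨c, hc⟩ := hspan (D i)
        exact ⟨c, hc, fun h => absurd h hi⟩
    choose c hc hc0 using hc
    have h1 : D = fun i => ∑ l, c i l • Δ l := funext hc
    rw [h1, pull_linear]
    refine Finset.sum_eq_zero fun Q _ => ?_
    by_cases hQ : Q j0 = i0
    · by_cases hQ' : ∃ i, i ≠ j0 ∧ Q i = i0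
      · obtain ⟨i, hi, hQi⟩ := hQ'
        have h2 : pull (detf y) y E (fun i => Δ (Q i)) = 0 := by
          rw [pull_det h]
          apply Matrix.det_zero_of_row_eq hi
          funext j
          simp only [Matrix.of_apply]
          rw [hQi, hQ]
        rw [h2, mul_zero]
      · push Not at hQ'
        have h2 : pull (detf y) y E (fun i => Δ (Q i)) = 0 := by
          refine pull_kill hb hn δ hσ0 hσ htop hN hf h (fun v hv D' hD' => ?_)
            (fun v hv D' hD' => ?_) j0 _ ?_ (fun i z => hΔc _ z) (fun i hi => hΔσ _ (hQ' i hi))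
          · rw [← hωD]
            exact (hω 0).2.1 v hv D' hD'
          · rw [← hωD]
            exact (hω 0).2.2 v hv (fun h => h) D' hD'
          · change Δ (Q j0) = δ
            rw [hQ, hΔ0]
        rw [h2, mul_zero]
    · have h2 : ∏ i, c i (Q i) = 0 := Finset.prod_eq_zero (Finset.mem_univ j0) (hc0 j0 rfl _ hQ)
      rw [h2, zero_mul]
  -- a tuple with nonzero value
  obtain ⟨B, hB⟩ := exists_isTranscendenceBasis K L
  have hyB := hy.sumElim_comp hB
  have hD : ∀ i : Fin b, ∃ D : Derivation k L L, (i = j0 → D = δ) ∧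
      (i ≠ j0 → ∀ j, D (algebraMap K L (y j)) = if i = j then 1 else 0) := by
    intro i
    by_cases hi : i = j0
    · exact ⟨δ, fun _ => rfl, fun h => absurd hi h⟩
    · obtain ⟨D, hD⟩ := exists_der _ hyB (Sum.elim (fun _ => 0) fun j => if i = j then 1 else 0)
      exact ⟨D, fun h => absurd h hi, fun _ j => hD (Sum.inr j)⟩
  choose D hD1 hD2 using hD
  have h1 := hker D (hD1 j0 rfl)
  rw [pull_det h] at h1
  have h2 : (Matrix.of fun i j => D i (algebraMap K L (y j))) =
      (1 : Matrix (Fin b) (Fin b) L).updateRow j0 (fun j => δ (algebraMap K L (y j))) := by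
    ext i j
    by_cases hi : i = j0
    · rw [hi, Matrix.updateRow_self, Matrix.of_apply, hD1 j0 rfl]
    · rw [Matrix.updateRow_ne hi, Matrix.of_apply, hD2 i hi, Matrix.one_apply]
  rw [h2, ← Matrix.cramer_transpose_apply, Matrix.transpose_one, Matrix.cramer_one] at h1
  exact hj0 h1

end iit

section fib

variable {k L : Type} [Field k] [Field L] [Algebra k L]

/-- **The fibres.** If a field generated by `σ` over the constants of `δ`, `δ σ = σ`, is an extension
of a field `M` of constants then its Kodaira dimension over `M` is `-∞`. -/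
theorem fib_neg [CharZero k] (M : IntermediateField k L) {e : ℕ} (he : Algebra.trdeg M L = e)
    (δ : Derivation k L L) {σ : L} (hσ0 : σ ≠ 0) (hσ : δ σ = σ) (htop : (consts δ)⟮σ⟯ = ⊤)
    (hM : ∀ z : M, δ (z : L) = 0) : ¬ KodGe M L e (fun _ => False) 0 := by
  intro hk
  have hchM : CharZero M := charZero_of_injective_algebraMap (algebraMap k M).injective
  let δ' : Derivation M L L :=
    { toLinearMap :=
        { toFun := δ
          map_add' := fun x y => map_add δ x y
          map_smul' := fun c x => by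
            rw [Algebra.smul_def, δ.leibniz]
            change (c : L) • δ x + x • δ (c : L) = c • δ x
            rw [hM, smul_zero, add_zero]
            rfl }
      map_one_eq_zero' := δ.map_one_eq_zero
      leibniz' := fun a b => δ.leibniz a b }
  have hδ' : ∀ z, δ' z = δ z := fun z => rfl
  have htop' : (consts δ')⟮σ⟯ = ⊤ := by
    rw [eq_top_iff]
    intro z _
    have hz : z ∈ (consts δ)⟮σ⟯ := by rw [htop]; exact IntermediateField.mem_top
    have h1 : ∀ z : L, z ∈ (consts δ)⟮σ⟯ → z ∈ (consts δ')⟮σ⟯ := by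
      intro z hz
      induction hz using IntermediateField.adjoin_induction with
      | mem x hx =>
        rw [Set.mem_singleton_iff] at hx
        rw [hx]
        exact IntermediateField.mem_adjoin_simple_self _ _
      | algebraMap c =>
        have h2 : δ' (c : L) = 0 := c.2
        exact IntermediateField.algebraMap_mem _ (⟨(c : L), h2⟩ : consts δ')
      | add x y _ _ hx hy => exact add_mem hx hy
      | inv x _ hx => exact inv_mem hx
      | mul x y _ _ hx hy => exact mul_mem hx hy
    exact h1 z hz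
  exact not_psef (Bd := fun _ => False) he δ' hσ0 hσ htop' (fun _ _ _ h => h) (psef_of_kodGe hk)

/-- the Kodaira dimension of a variety of general type -/
theorem kod_le_of_general {d : ℕ} (h : GeneralType k L d) {a : ℕ} (ha : a ≤ d) :
    KodGe k L d (fun _ => False) a := by
  obtain ⟨-, N, hN, ω, h1, h2, D, hD, h3⟩ := h
  have hle : a + 1 ≤ d + 1 := by omega
  refine ⟨N, hN, fun j => ω (Fin.castLE hle j), fun j => ⟨h1 _, fun P hP D hDP => ?_,
    fun P hP _ => h2 P hP _⟩, D, ?_, ?_⟩
  · refine h2 P hP _ D fun i f hf => ?_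
    by_cases h0 : f = 0
    · rw [h0, map_zero]
      exact P.reg_zero
    · have h3 := P.reg_mul (hDP i f) hf
      rwa [div_mul_cancel₀ _ h0] at h3
  · exact hD
  · exact h3.comp (Fin.castLE ha) (Fin.castLE_injective ha)

/-- the Kodaira dimension is at most the dimension -/
theorem le_of_kod {b a : ℕ} (hb : Algebra.trdeg k L = b) {Bd : Place k L → Prop}
    (h : KodGe k L b Bd a) : a ≤ b := by
  obtain ⟨N, hN, ω, h1, D, hD, h2⟩ := h
  have h3 := h2.cardinalMk_le_trdeg
  rw [hb, Cardinal.mk_fin] at h3
  exact_mod_cast h3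

theorem kod_zero {b a : ℕ} {Bd : Place k L → Prop} (h : KodGe k L b Bd a) : KodGe k L b Bd 0 := by
  obtain ⟨N, hN, ω, h1, D, hD, h2⟩ := h
  refine ⟨N, hN, fun _ => ω 0, fun _ => h1 0, D, hD, ?_⟩
  rw [algebraicIndependent_empty_type_iff]
  exact (algebraMap k L).injective

/-- **Fibrations.** -/
theorem fibration_neg [CharZero k] (M : IntermediateField k L) (hfg : M.FG) {b e d : ℕ}
    (hb : Algebra.trdeg k M = b) (he : Algebra.trdeg M L = e) (hd : Algebra.trdeg k L = d)
    (δ : Derivation k L L) {σ : L} (hσ0 : σ ≠ 0) (hσ : δ σ = σ) (htop : (consts δ)⟮σ⟯ = ⊤) :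
    ¬ (KodGe k M b (fun _ => False) 0 ∧ KodGe M L e (fun _ => False) 0) := by
  rintro ⟨h1, h2⟩
  have hess : Algebra.EssFiniteType k M := IntermediateField.essFiniteType_iff.2 hfg
  by_cases hM : ∀ z : M, δ (z : L) = 0
  · exact fib_neg M he δ hσ0 hσ htop hM h2
  · push Not at hM
    exact base_neg (K := M) hb hd δ hσ0 hσ htop hM h1

end fib

end Pool.Agent.Y192.KC.Iit
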