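import Pool.Agent.Y192.KC.Dich
import Pool.Agent.Y192.KC.Iit

/-!
Covers of arbitrary projective varieties: fibrations.
-/

set_option autoImplicit false

namespace Pool.Agent.Y192.KC

open MvPolynomial FF IntermediateField Pool.Agent.W602.GT Pool.Agent.W603.LV

/-- the one-parameter group on the function field of a cover -/
theorem gm_of_zred {n r : ℕ} {X : ZCov n r} {m : ℕ} (hm : 0 < m) (hem : ∀ j, X.e j ∣ m)
    (hRed : ZRed X) {L : Type} [Field L] [Algebra ℂ L] {t : Fin (n + 1) → L} {w : Fin r → L}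
    (hF : ZField X m L t w) :
    ∃ (δ : Derivation ℂ L L) (σ : L), σ ≠ 0 ∧ δ σ = σ ∧ (consts δ)⟮σ⟯ = ⊤ := by
  obtain ⟨l, hl, hI, ⟨kG, hkG⟩, hH⟩ := hRed
  choose D H S hDI hHI hSI hDhom hHhom haD haH haS hFS using hH
  choose kD hkD using hDhom
  choose kH hkH using hHhom
  choose aD haD using haD
  choose aH haH using haH
  choose aS haS using haS
  obtain ⟨δ, σ, hσ0, hσ, htop, -⟩ := Pool.Agent.Y721.KZ.zcore hm hem hF l hl hI kG hkG D H S hDI
    hHI hSI aD aH aS haD haH haS hFS kD kH hkD hkH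
  exact ⟨δ, σ, hσ0, hσ, htop⟩

theorem iitaka_all {n r : ℕ} (X : ZCov n r) (hG : X.G = 1) :
    ∃ m0 : ℕ, ∀ m, m0 ≤ m → (∀ j, X.e j ∣ m) →
      ∀ (L : Type) [Field L] [Algebra ℂ L] (t : Fin (n + 1) → L) (w : Fin r → L),
      ZField X m L t w → ∀ d : ℕ, 1 ≤ d → Algebra.trdeg ℂ L = d →
      ∀ M : IntermediateField ℂ L, M.FG → ∀ b e : ℕ, Algebra.trdeg ℂ M = b →
      Algebra.trdeg M L = e → ∀ g h : ℕ, KodGe ℂ M b (fun _ => False) g →
      KodGe M L e (fun _ => False) h →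
        GeneralType ℂ L d ∧ KodGe ℂ L d (fun _ => False) (g + h) := by
  obtain ⟨m0, hm0⟩ := dich_all X hG
  refine ⟨max m0 1, fun m hm he L _ _ t w hF d hd htr M hfg b e hb hee g h hB hFb => ?_⟩
  have ht := hm0 m ((le_max_left _ _).trans hm) he L t w hF d hd htr
  have hmp : 0 < m := lt_of_lt_of_le one_pos ((le_max_right _ _).trans hm)
  have h1 : ¬ GeneralType ℂ L d ↔ ZRed X := ht.out 3 7
  have hgt : GeneralType ℂ L d := by
    by_contra hno
    obtain ⟨δ, σ, hσ0, hσ, htop⟩ := gm_of_zred hmp he (h1.1 hno) hF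
    exact Iit.fibration_neg M hfg hb hee htr δ hσ0 hσ htop ⟨Iit.kod_zero hB, Iit.kod_zero hFb⟩
  refine ⟨hgt, Iit.kod_le_of_general hgt ?_⟩
  have h2 := Iit.le_of_kod hb hB
  have h3 := Iit.le_of_kod hee hFb
  have h4 := _root_.trdeg_add_eq (R := ℂ) (S := M) (A := L)
  rw [hb, hee, htr] at h4
  have h5 : b + e = d := by exact_mod_cast h4
  omega

end Pool.Agent.Y192.KC
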