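import Pool.Agent.Y192.KC.AMain
import Pool.Agent.W602.GT.KPsefS

/-!
Covers of arbitrary projective varieties: nonvanishing for the log canonical bundle.
-/

set_option autoImplicit false

namespace Pool.Agent.Y192.KC

open MvPolynomial FF IntermediateField Pool.Agent.W602.GT Pool.Agent.W603.LV Pool.Agent.W619.PL

/-- pluricanonical forms with logarithmic poles -/
theorem kodGe_of_not_neg {L : Type} [Field L] [Algebra ℂ L] {d : ℕ} {Bd : Place ℂ L → Prop}
    (h : ¬ LogKodairaNeg ℂ L d Bd) : KodGe ℂ L d Bd 0 := by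
  unfold LogKodairaNeg at h
  push Not at h
  obtain ⟨N, hN, ω, h1, h2, h3, D, hD⟩ := h
  refine ⟨N, hN, fun _ => ω, fun _ => ⟨h1, fun P hP D hDP => ?_, fun P hP hBd => h2 P hP hBd⟩,
    D, hD, ?_⟩
  · by_cases hBd : Bd P
    · exact h3 P hP hBd D hDP
    · refine h2 P hP hBd D fun i f hf => ?_
      by_cases h0 : f = 0
      · rw [h0, map_zero]
        exact P.reg_zero
      · have h3 := P.reg_mul (hDP i f) hf
        rwa [div_mul_cancel₀ _ h0] at h3
  · rw [algebraicIndependent_empty_type_iff]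
    exact (algebraMap ℂ L).injective

/-- covers with a one-parameter group with limits have no pseudo-effective log canonical bundle -/
theorem not_psef_of_zlim {n r : ℕ} {X : ZCov n r} {m : ℕ} (hm : 0 < m) (hem : ∀ j, X.e j ∣ m)
    (hRed : ZLim X) {L : Type} [Field L] [Algebra ℂ L] {t : Fin (n + 1) → L} {w : Fin r → L}
    (hF : ZField X m L t w) {d : ℕ} (hd : Algebra.trdeg ℂ L = d) :
    ¬ Psef ℂ L d (OffG X.toCov m t) := by
  obtain ⟨l, hl, hI, ⟨a0, ha0, ⟨i0, hi0⟩, hkG⟩, hH⟩ := hRed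
  choose D H B S hDI hHI hBI hSI hDhom hHhom haD haH haB haS hFS using hH
  choose kD hkD using hDhom
  choose kH hkH using hHhom
  choose aD haD using haD
  choose aH haH using haH
  choose aB haB using haB
  choose aS haS using haS
  obtain ⟨δ, σ, E, h1, h2, h3, h4, h5, h6⟩ := Pool.Agent.Y960.KA.acore hm hem hF l hl hI a0 ha0 i0
    hi0 hkG D H B S hDI hHI hBI hSI aD aH aB aS haD haH haB haS hFS kD kH hkD hkH
  have htop : (consts δ)⟮σ⟯ = ⊤ := by
    have hle : (E⟮σ⟯).toSubfield ≤ ((consts δ)⟮σ⟯).toSubfield := by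
      change Subfield.closure _ ≤ _
      rw [Subfield.closure_le]
      rintro y (⟨c, rfl⟩ | hy)
      · exact ((consts δ)⟮σ⟯).algebraMap_mem (⟨c, h4 c.2⟩ : consts δ)
      · rw [Set.mem_singleton_iff.mp hy]
        exact IntermediateField.mem_adjoin_simple_self _ _
    rw [eq_top_iff]
    intro y _
    have hy : y ∈ E⟮σ⟯ := by
      rw [h5]
      exact IntermediateField.mem_top
    exact hle hy
  refine not_psef hd δ h1 h2 htop fun P hP hPσ hoff => ?_
  obtain ⟨h7, h8⟩ := h6 P hP hPσ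
  have := hoff (P.ord (t i0)) h7 ⟨i0, rfl⟩
  rw [h8] at this
  exact lt_irrefl _ this

/-- **Nonvanishing.** -/
theorem lpsef_all {n r : ℕ} (X : ZCov n r) :
    ∃ m0 : ℕ, ∀ m, m0 ≤ m → (∀ j, X.e j ∣ m) →
      ∀ (L : Type) [Field L] [Algebra ℂ L] (t : Fin (n + 1) → L) (w : Fin r → L),
      ZField X m L t w → ∀ d : ℕ, Algebra.trdeg ℂ L = d →
      [Psef ℂ L d (OffG X.toCov m t), KodGe ℂ L d (OffG X.toCov m t) 0,
        ¬ IsA1Uniruled ℂ L d (OffG X.toCov m t), ¬ ZLim X].TFAE := by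
  obtain ⟨m0, hm0⟩ := mainA_all X
  refine ⟨max m0 1, fun m hm he L _ _ t w hF d hd => ?_⟩
  have h := hm0 m ((le_max_left _ _).trans hm) he L t w hF d hd
  have hmp : 0 < m := lt_of_lt_of_le one_pos ((le_max_right _ _).trans hm)
  have h1 : LogKodairaNeg ℂ L d (OffG X.toCov m t) ↔ ZLim X := h.out 0 2
  have h2 : IsA1Uniruled ℂ L d (OffG X.toCov m t) ↔ ZLim X := h.out 1 2
  tfae_have 1 → 4 := fun h3 h4 => not_psef_of_zlim hmp he h4 hF hd h3
  tfae_have 4 → 2 := fun h3 => kodGe_of_not_neg fun h4 => h3 (h1.mp h4)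
  tfae_have 2 → 1 := psef_of_kodGe
  tfae_have 3 ↔ 4 := not_congr h2
  tfae_finish

end Pool.Agent.Y192.KC
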