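import Pool.Agent.Y192.KC.All3
import Pool.Agent.Y192.KC.Proj2
import Pool.Agent.W602.GT.SConst
import Pool.Agent.TH710.SP.Defs

/-!
Tensor differentials on the covers of arbitrary projective varieties. The lemmas on tensor
differentials (`powT`, `special_of_noTensors`, `tensor_const`, `noTensors_of_rational`) are copied
from helper216's files `Pool/Agent/Y216/SV/Tns.lean` and `Not.lean`, to keep the imports small.
-/

set_option autoImplicit false

open FF Pool.Agent.W603.LV Pool.Agent.W602.GT Pool.Agent.TH710.SP IntermediateField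
  Pool.Agent.Y192.KC

namespace Pool.Agent.Y192.KC.Mum

variable {k : Type} [Field k] {w : ℕ} {K : Type} [Field K] [Algebra k K]

/-- `K` is a field of rational functions: it is generated by finitely many algebraically
independent elements. -/
def Rational (k K : Type) [Field k] [Field K] [Algebra k K] : Prop :=
  ∃ (σ : Type) (_ : Finite σ) (t : σ → K), AlgebraicIndependent k t ∧
    IntermediateField.adjoin k (Set.range t) = ⊤

/-- a power of an alternating form, as a tensor -/
def powT {p : ℕ} (θ : AlternatingMap K (Derivation k K K) K (Fin p)) (M : ℕ) (g : K) :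
    MultilinearMap K (fun _ : Fin (M * p) => Derivation k K K) K where
  toFun D := g * ∏ a : Fin M, θ (fun i => D (finProdFinEquiv (a, i)))
  map_update_add' := by
    intro _ D j x x'
    obtain ⟨⟨a0, i0⟩, rfl⟩ := finProdFinEquiv.surjective j
    have h1 : ∀ z, ∏ a : Fin M, θ (fun i => Function.update D (finProdFinEquiv (a0, i0)) z
        (finProdFinEquiv (a, i))) =
        θ (Function.update (fun i => D (finProdFinEquiv (a0, i))) i0 z) *
          ∏ a ∈ Finset.univ.erase a0, θ (fun i => D (finProdFinEquiv (a, i))) := by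
      intro z
      rw [← Finset.mul_prod_erase Finset.univ _ (Finset.mem_univ a0)]
      congr 1
      · congr 1
        funext i
        by_cases hi : i = i0
        · rw [hi, Function.update_self, Function.update_self]
        · rw [Function.update_of_ne hi, Function.update_of_ne]
          intro h2
          have h3 := finProdFinEquiv.injective h2
          exact hi (Prod.ext_iff.1 h3).2
      · refine Finset.prod_congr rfl fun a ha => ?_
        congr 1
        funext i
        rw [Function.update_of_ne]
        intro h2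
        have h3 := finProdFinEquiv.injective h2
        exact Finset.ne_of_mem_erase ha (Prod.ext_iff.1 h3).1
    rw [h1, h1, h1, θ.map_update_add]
    ring
  map_update_smul' := by
    intro _ D j c x
    obtain ⟨⟨a0, i0⟩, rfl⟩ := finProdFinEquiv.surjective j
    have h1 : ∀ z, ∏ a : Fin M, θ (fun i => Function.update D (finProdFinEquiv (a0, i0)) z
        (finProdFinEquiv (a, i))) =
        θ (Function.update (fun i => D (finProdFinEquiv (a0, i))) i0 z) *
          ∏ a ∈ Finset.univ.erase a0, θ (fun i => D (finProdFinEquiv (a, i))) := by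
      intro z
      rw [← Finset.mul_prod_erase Finset.univ _ (Finset.mem_univ a0)]
      congr 1
      · congr 1
        funext i
        by_cases hi : i = i0
        · rw [hi, Function.update_self, Function.update_self]
        · rw [Function.update_of_ne hi, Function.update_of_ne]
          intro h2
          have h3 := finProdFinEquiv.injective h2
          exact hi (Prod.ext_iff.1 h3).2
      · refine Finset.prod_congr rfl fun a ha => ?_
        congr 1
        funext i
        rw [Function.update_of_ne]
        intro h2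
        have h3 := finProdFinEquiv.injective h2
        exact Finset.ne_of_mem_erase ha (Prod.ext_iff.1 h3).1
    rw [h1, h1, θ.map_update_smul]
    simp only [smul_eq_mul]
    ring

theorem powT_apply {p : ℕ} (θ : AlternatingMap K (Derivation k K K) K (Fin p)) (M : ℕ) (g : K)
    (D : Fin (M * p) → Derivation k K K) :
    powT θ M g D = g * ∏ a : Fin M, θ (fun i => D (finProdFinEquiv (a, i))) := rfl

/-- **Bogomolov sheaves give tensor differentials.** -/
theorem special_of_noTensors (hs : ∀ B, NoTensors k K w B) :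
    Special k K w (fun _ => False) := by
  classical
  rintro p hp ⟨θ, hθ, M, hM, f, -, hreg, hf0, -⟩
  have h1 := hs (M * p) (M * p) (Nat.mul_pos hM hp) le_rfl (powT θ M (f 0)) (by
    intro P hPd D hD
    rw [powT_apply]
    have h2 : ∀ a : Fin M, P.Reg (f 0 * θ (fun i => D (finProdFinEquiv (a, i))) ^ M) :=
      fun a => hreg P hPd (fun h => h) _ (fun i => hD _) 0
    by_cases hz : ∃ a : Fin M, θ (fun i => D (finProdFinEquiv (a, i))) = 0
    · obtain ⟨a, ha⟩ := hz
      rw [Finset.prod_eq_zero (Finset.mem_univ a) ha, mul_zero]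
      exact Or.inl rfl
    · push Not at hz
      have hpr : ∏ a : Fin M, θ (fun i => D (finProdFinEquiv (a, i))) ≠ 0 :=
        Finset.prod_ne_zero_iff.2 fun a _ => hz a
      right
      rw [P.ord_mul hf0 hpr, ord_prod' P _ _ fun a _ => hz a]
      have h3 : ∀ a : Fin M, 0 ≤ P.ord (f 0) +
          M * P.ord (θ (fun i => D (finProdFinEquiv (a, i)))) := by
        intro a
        rcases h2 a with h4 | h4
        · exact absurd h4 (mul_ne_zero hf0 (pow_ne_zero _ (hz a)))
        · rwa [P.ord_mul hf0 (pow_ne_zero _ (hz a)), P.ord_pow] at h4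
      have h5 : (0 : ℤ) ≤ ∑ a : Fin M, (P.ord (f 0) +
          M * P.ord (θ (fun i => D (finProdFinEquiv (a, i))))) :=
        Finset.sum_nonneg fun a _ => h3 a
      rw [Finset.sum_add_distrib, ← Finset.mul_sum, Finset.sum_const, Finset.card_univ,
        Fintype.card_fin, nsmul_eq_mul, ← mul_add] at h5
      exact nonneg_of_mul_nonneg_right h5 (by exact_mod_cast hM))
  apply hθ
  ext D
  have h2 := congrArg (fun ω => ω (fun j => D (finProdFinEquiv.symm j).2)) h1
  simp only [powT_apply, Equiv.symm_apply_apply, Finset.prod_const, Finset.card_univ,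
    Fintype.card_fin, zero_apply] at h2
  simpa using (eq_zero_of_pow_eq_zero ((mul_eq_zero.1 h2).resolve_left hf0))

/-- the values of a tensor differential on a frame are constants -/
theorem tensor_const [CharZero k] [IsAlgClosed k] (σ : Fin w → K)
    (hσ : IsTranscendenceBasis k σ) (htop : IntermediateField.adjoin k (Set.range σ) = ⊤) {r : ℕ}
    (ω : MultilinearMap K (fun _ : Fin r => Derivation k K K) K)
    (hω : ∀ P : Place k K, Divisorial w P → ∀ D : Fin r → Derivation k K K,
      (∀ j, DerReg P (D j)) → P.Reg (ω D))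
    (δ : Fin w → Derivation k K K) (hδ : ∀ l m, δ l (σ m) = if m = l then σ m else 0)
    (hcomm : ∀ l m z, δ l (δ m z) = δ m (δ l z))
    (hspan : ∀ D : Derivation k K K, D = ∑ l, (D (σ l) / σ l) • δ l) (I : Fin r → Fin w) :
    ∃ c : k, ω (fun i => δ (I i)) = algebraMap k K c := by
  classical
  have htr : Algebra.trdeg k K = w := by
    have h1 := hσ.cardinalMk_eq_trdeg
    rw [Cardinal.mk_fin] at h1
    exact h1.symm
  have hσ0 : ∀ l, σ l ≠ 0 := fun l => hσ.1.ne_zero l
  have hδtop : ∀ l, (consts (δ l))⟮σ l⟯ = ⊤ := by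
    intro l
    have h1 : ((consts (δ l))⟮σ l⟯).restrictScalars k = ⊤ := by
      rw [eq_top_iff, ← htop, IntermediateField.adjoin_le_iff]
      rintro _ ⟨m, rfl⟩
      by_cases hm : m = l
      · rw [hm]
        exact IntermediateField.mem_adjoin_simple_self _ _
      · have h2 : δ l (σ m) = 0 := by rw [hδ, if_neg hm]
        exact ((consts (δ l))⟮σ l⟯).algebraMap_mem (⟨σ m, h2⟩ : consts (δ l))
    rw [eq_top_iff]
    intro x _
    have h2 : x ∈ ((consts (δ l))⟮σ l⟯).restrictScalars k := by
      rw [h1]; exact IntermediateField.mem_top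
    exact h2
  have h1 : ∀ l, δ l (ω (fun i => δ (I i))) = 0 := by
    intro l
    refine spec_const htr (Bd := fun _ => False) (δ l) (hσ0 l) (by rw [hδ, if_pos rfl])
      (hδtop l) (fun _ _ _ h => h) (fun i => δ (I i)) (fun i z => (hcomm _ _ _)) ?_ ?_
    · intro P hdiv hD
      refine hω P hdiv _ fun j => ?_
      intro f hf
      rcases eq_or_ne f 0 with rfl | hf0
      · rw [map_zero]
        exact Or.inl rfl
      · have h2 := hD j f
        have h3 : δ (I j) f = δ (I j) f / f * f := by field_simp
        rw [h3]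
        exact P.reg_mul h2 hf
    · intro P hdiv _ hD
      exact hω P hdiv _ hD
  obtain ⟨lam, hlam⟩ := exists_lam k w
  obtain ⟨D0, hD0⟩ := exists_der σ hσ (fun j => algebraMap k K (lam j) * σ j)
  refine const_of_der σ hσ lam hlam D0 hD0 ?_
  have h0 : ∀ (t : Finset (Fin w)) (c : Fin w → K) (z : K),
      (∑ l ∈ t, c l • δ l) z = ∑ l ∈ t, c l * δ l z := by
    intro t c z
    induction t using Finset.induction_on with
    | empty => simp
    | insert l t hl ih =>
      rw [Finset.sum_insert hl, Finset.sum_insert hl, Derivation.add_apply, ih]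
      rfl
  rw [hspan D0, h0]
  exact Finset.sum_eq_zero fun l _ => by rw [h1 l, mul_zero]

/-- **Rational varieties have no tensor differentials.** -/
theorem noTensors_of_rational [CharZero k] [IsAlgClosed k] (hdim : Algebra.trdeg k K = w)
    (h : Rational k K) (B : ℕ) : NoTensors k K w B := by
  classical
  obtain ⟨τ, hτ, σ', hind, htop⟩ := h
  have hbasis : IsTranscendenceBasis k σ' := by
    rw [hind.isTranscendenceBasis_iff_isAlgebraic]
    apply alg_adjoin
    rw [htop]
    exact ⟨fun x => isAlgebraic_algebraMap (A := K) (⟨x, trivial⟩ : (⊤ : IntermediateField k K))⟩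
  obtain ⟨w', ⟨φ⟩⟩ := Finite.exists_equiv_fin τ
  let σ : Fin w' → K := σ' ∘ φ.symm
  have hσ : IsTranscendenceBasis k σ := hbasis.comp_equiv φ.symm
  obtain rfl : w' = w := by
    have h1 := hσ.cardinalMk_eq_trdeg
    rw [Cardinal.mk_fin, hdim] at h1
    exact_mod_cast h1
  have hσtop : IntermediateField.adjoin k (Set.range σ) = ⊤ := by
    have h1 : Set.range σ = Set.range σ' := by
      ext x
      constructor
      · rintro ⟨b, rfl⟩
        exact ⟨φ.symm b, rfl⟩
      · rintro ⟨b, rfl⟩
        exact ⟨φ b, by simp [σ]⟩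
    rw [h1, htop]
  -- the shifted basis
  let σ1 : Fin w' → K := fun l => σ l - 1
  have hσ1top : IntermediateField.adjoin k (Set.range σ1) = ⊤ := by
    rw [eq_top_iff, ← hσtop, IntermediateField.adjoin_le_iff]
    rintro _ ⟨l, rfl⟩
    have h1 : σ l = σ1 l + 1 := by simp [σ1]
    rw [h1]
    exact add_mem (IntermediateField.subset_adjoin k _ ⟨l, rfl⟩) (one_mem _)
  have hσ1 : IsTranscendenceBasis k σ1 := by
    have h2 : Algebra.IsAlgebraic (Algebra.adjoin k (Set.range σ1)) K := by
      rw [← IntermediateField.isAlgebraic_adjoin_iff_top, hσ1top]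
      infer_instance
    exact Algebra.IsAlgebraic.isTranscendenceBasis_of_le_trdeg_of_finite k σ1 (by
      rw [Cardinal.mk_fin, hdim])
  have hσ0 : ∀ l, σ l ≠ 0 := fun l => hσ.1.ne_zero l
  have hσ10 : ∀ l, σ1 l ≠ 0 := fun l => hσ1.1.ne_zero l
  obtain ⟨δ, hδ, hcomm, hspan⟩ := exists_frame σ hσ
  obtain ⟨δ1, hδ1, hcomm1, hspan1⟩ := exists_frame σ1 hσ1
  have hδδ : ∀ l, δ1 l = (σ1 l / σ l) • δ l := by
    intro l
    apply der_ext σ hσ
    intro q
    have h1 : δ1 l (σ q) = δ1 l (σ1 q) := by
      have h2 : σ q = σ1 q + 1 := by simp [σ1]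
      rw [h2, map_add, Derivation.map_one_eq_zero, add_zero]
    rw [h1, hδ1, Derivation.smul_apply, hδ, smul_eq_mul]
    split_ifs with h3
    · rw [h3]
      have := hσ0 l
      field_simp
    · rw [mul_zero]
  intro r hr _ ω hω
  have hzero : ∀ I : Fin r → Fin w', ω (fun i => δ (I i)) = 0 := by
    intro I
    obtain ⟨c, hc⟩ := tensor_const σ hσ hσtop ω hω δ hδ hcomm hspan I
    obtain ⟨c1, hc1⟩ := tensor_const σ1 hσ1 hσ1top ω hω δ1 hδ1 hcomm1 hspan1 I
    have h1 : (fun i => δ1 (I i)) = fun i => (σ1 (I i) / σ (I i)) • δ (I i) :=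
      funext fun i => hδδ _
    rw [h1, ω.map_smul_univ, hc, smul_eq_mul, Finset.prod_div_distrib] at hc1
    have hp : (∏ i, σ (I i)) ≠ 0 := Finset.prod_ne_zero_iff.2 fun i _ => hσ0 _
    have h2 : (∏ i, σ1 (I i)) * algebraMap k K c = algebraMap k K c1 * ∏ i, σ (I i) := by
      rw [← hc1]
      field_simp
    let P : MvPolynomial (Fin w') k :=
      (∏ i, (MvPolynomial.X (I i) - 1)) * MvPolynomial.C c -
        MvPolynomial.C c1 * ∏ i, MvPolynomial.X (I i)
    have hP : MvPolynomial.aeval σ P = 0 := by
      simp only [P, map_sub, map_mul, map_prod, MvPolynomial.aeval_X, MvPolynomial.aeval_C,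
        map_one]
      rw [sub_eq_zero]
      exact h2
    have hP0 : P = 0 := (injective_iff_map_eq_zero _).1 hσ.1 P hP
    have h3 := congrArg (MvPolynomial.eval fun _ => (1 : k)) hP0
    have h4 := congrArg (MvPolynomial.eval fun _ => (2 : k)) hP0
    simp only [P, map_sub, map_mul, map_prod, MvPolynomial.eval_X, MvPolynomial.eval_C,
      map_one, map_zero, sub_self, Finset.prod_const, Finset.card_univ, Fintype.card_fin,
      one_pow, mul_one] at h3 h4
    rw [zero_pow (by omega), zero_mul, zero_sub, neg_eq_zero] at h3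
    rw [h3, zero_mul, sub_zero] at h4
    have h5 : (2 : k) - 1 = 1 := by norm_num
    rw [h5, one_pow, one_mul] at h4
    rw [hc, h4, map_zero]
  ext D
  have h1 : D = fun i => ∑ l, (D i (σ l) / σ l) • δ l := by
    funext i
    exact hspan (D i)
  rw [h1]
  have h2 := ω.map_sum (fun i l => (D i (σ l) / σ l) • δ l)
  rw [h2]
  refine Finset.sum_eq_zero fun I _ => ?_
  rw [MultilinearMap.map_smul_univ, hzero I, smul_zero]

/-- **Tensor differentials on covers.** -/
theorem mum_all {n r : ℕ} (X : ZCov n r) (hG : X.G = 1) :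
    ∃ m0 : ℕ, ∀ m, m0 ≤ m → (∀ j, X.e j ∣ m) →
      ∀ (L : Type) [Field L] [Algebra ℂ L] (t : Fin (n + 1) → L) (w : Fin r → L),
      ZField X m L t w → ∀ d : ℕ, Algebra.trdeg ℂ L = d →
      [∀ B, NoTensors ℂ L d B, Special ℂ L d (fun _ => False),
        (∃ σ : Fin d → L, AlgebraicIndependent ℂ σ ∧
          IntermediateField.adjoin ℂ (Set.range σ) = ⊤), Toric X].TFAE := by
  obtain ⟨m0, hm0⟩ := mainS_all X
  refine ⟨max 1 m0, fun m hm he L _ _ t w hF d htr => ?_⟩
  have h := hm0 m ((le_max_right _ _).trans hm) he L t w hF d htr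
  have hoff : OffG X.toCov m t = fun _ => False := off_false (X := X.toCov) hG
  have h1 : Special ℂ L d (fun _ => False) ↔ Toric X := by
    rw [← hoff]
    exact h.out 0 2
  have h2 : Toric X → ∃ σ : Fin d → L, AlgebraicIndependent ℂ σ ∧
      IntermediateField.adjoin ℂ (Set.range σ) = ⊤ := by
    intro hT
    obtain ⟨δ, σ, hb, htop, -⟩ := Pool.Agent.Y379.KS.toric_frame X
      (lt_of_lt_of_le one_pos ((le_max_left _ _).trans hm)) he hT hF
    have hδ : δ = d := by
      have h3 := hb.cardinalMk_eq_trdeg
      rw [htr, Cardinal.mk_fin] at h3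
      exact_mod_cast h3
    subst hδ
    exact ⟨fun k => (σ k : L), hb.1, htop⟩
  have h3 : (∃ σ : Fin d → L, AlgebraicIndependent ℂ σ ∧
      IntermediateField.adjoin ℂ (Set.range σ) = ⊤) → ∀ B, NoTensors ℂ L d B := by
    rintro ⟨σ, hσ, htop⟩ B
    exact noTensors_of_rational htr ⟨Fin d, inferInstance, σ, hσ, htop⟩ B
  tfae_have 1 → 2 := fun h => special_of_noTensors h
  tfae_have 2 ↔ 4 := h1
  tfae_have 4 → 3 := h2
  tfae_have 3 → 1 := h3
  tfae_finish

end Pool.Agent.Y192.KC.Mum
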