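import Pool.Agent.Y192.KC.Defs
import Pool.Agent.Y192.OG.Geo

/-!
Statements of the steps. Each `St_` is a proposition that is proved in another file.
-/

set_option autoImplicit false

namespace Pool.Agent.Y192.KC

open MvPolynomial Metric FF Pool.Agent.W602.GT Pool.Agent.Y192.OG

/-- the Laurent polynomial of a form, in the coordinates `x i / x 0` -/
noncomputable def laur {n : ℕ} (g : MvPolynomial (Fin (n + 1)) ℂ) : Lau n :=
  aeval (Fin.cons (α := fun _ => Lau n) 1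
    (fun i => AddMonoidAlgebra.single (Pi.single i 1) (1 : ℂ))) g

/-- the essential part of the branch divisors -/
def St_bad : Prop :=
  ∀ (n r : ℕ) (X : Cov n r), ∃ (g : MvPolynomial (Fin (n + 1)) ℂ) (k : ℕ),
    g.IsHomogeneous k ∧ Squarefree g ∧ (∀ i, ¬ (MvPolynomial.X i ∣ g)) ∧
    (∀ v : MvPolynomial (Fin (n + 1)) ℂ → WithTop ℤ, IsV v → (∀ i, v (MvPolynomial.X i) = 0) →
      v X.G = 0 → (∀ j, ∃ a : ℤ, v (X.F j) = ((X.e j * a : ℤ) : WithTop ℤ)) → v g ≠ 1) ∧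
    ∀ l : Fin (n + 1) → ℤ, Hom l g → Hom l X.G ∧
      ∀ j, ∃ H S : MvPolynomial (Fin (n + 1)) ℂ, X.F j = H * S ^ X.e j ∧ Hom l H

/-- the dehomogenization of a squarefree form generates a radical ideal in the ring of Laurent
polynomials, and its stabilizer -/
def St_rad : Prop :=
  ∀ (n k : ℕ) (g : MvPolynomial (Fin (n + 1)) ℂ), g.IsHomogeneous k → Squarefree g →
    (∀ i, ¬ (MvPolynomial.X i ∣ g)) →
    laur g ≠ 0 ∧ (Ideal.span {laur g}).IsRadical ∧
    ((∀ l : Fin (n + 1) → ℤ, (∃ i j, l i ≠ l j) → ¬ Hom l g) →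
      ∀ l : Fin n → ℤ, l ≠ 0 → ∀ a, ∃ c ∈ (laur g).coeff.support, ∑ i, l i * c i ≠ a)

/-- the logarithmic derivative of a Laurent polynomial -/
noncomputable def dl {n : ℕ} (i : Fin n) (g : Lau n) : Lau n :=
  ∑ c ∈ g.coeff.support, AddMonoidAlgebra.single c ((c i : ℂ) * g.coeff c)

/-- the logarithmic Gauss map of a hypersurface in a torus is dominant -/
def St_gauss : Prop :=
  ∀ (K : Type) [Field K] [Algebra ℂ K] (n : ℕ) (x : Fin n → Kˣ) (g : Lau n),
    AlgebraicIndependent ℂ (fun i => (x i : K)) →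
    IntermediateField.adjoin ℂ (Set.range fun i => (x i : K)) = ⊤ → g ≠ 0 →
    (∀ l : Fin n → ℤ, l ≠ 0 → ∀ a, ∃ c ∈ g.coeff.support, ∑ i, l i * c i ≠ a) →
    AlgebraicIndependent ℂ (fun i => ep x (dl i g) / ep x g)

/-- places of the field of rational functions with centre on the torus: derivations -/
def St_deep : Prop :=
  ∀ (K : Type) [Field K] [Algebra ℂ K] (n : ℕ) (x : Fin n → Kˣ) (g : Lau n),
    AlgebraicIndependent ℂ (fun i => (x i : K)) →
    IntermediateField.adjoin ℂ (Set.range fun i => (x i : K)) = ⊤ → g ≠ 0 →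
    (Ideal.span {g}).IsRadical →
    ∀ P : Place ℂ K, (∀ i, P.ord (x i : K) = 0) → 2 ≤ P.ord (ep x g) →
    ∀ D : Fin n → Derivation ℂ K K, (∀ i, DerReg P (D i)) →
      (Matrix.of fun i k : Fin n => D i (x k : K)).det = 0 ∨
        1 ≤ P.ord (Matrix.of fun i k : Fin n => D i (x k : K)).det

/-- the complement of a hypersurface in a torus is of log general type -/
def St_lg : Prop :=
  ∀ (K : Type) [Field K] [Algebra ℂ K] (n : ℕ) (x : Fin n → Kˣ) (g : Lau n), 1 ≤ n →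
    AlgebraicIndependent ℂ (fun i => (x i : K)) →
    IntermediateField.adjoin ℂ (Set.range fun i => (x i : K)) = ⊤ → g ≠ 0 →
    (Ideal.span {g}).IsRadical →
    (∀ l : Fin n → ℤ, l ≠ 0 → ∀ a, ∃ c ∈ g.coeff.support, ∑ i, l i * c i ≠ a) →
    LogGeneralType ℂ K n (fun P => (∃ i, P.ord (x i : K) ≠ 0) ∨ P.ord (ep x g) = 1)

/-- maps from the punctured disc with values in the torus or highly ramified over its boundary -/
def St_disc : Prop :=
  ∀ (n r : ℕ) (X : Cov n r) (m μ : ℕ) (g : MvPolynomial (Fin (n + 1)) ℂ) (k : ℕ) (G : Lau n),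
    g.IsHomogeneous k → G ≠ 0 → laur g ≠ 0 → μ ≤ m → 0 < m → (∀ j, X.e j ∣ m) →
    (∀ v : MvPolynomial (Fin (n + 1)) ℂ → WithTop ℤ, IsV v → (∀ i, v (MvPolynomial.X i) = 0) →
      v X.G = 0 → (∀ j, ∃ a : ℤ, v (X.F j) = ((X.e j * a : ℤ) : WithTop ℤ)) → v g ≠ 1) →
    (∀ c : Curve n, Adm ⊥ (laur g) μ c → c.ev G ≠ 0 →
      ∀ i, ∃ S : ℂ → ℂ, MeromorphicAt (fun w => S w⁻¹) 0 ∧ ∃ R0 : ℝ, ∀ z, R0 < ‖z‖ →
        c.X i z = S z * c.X 0 z) →
    ∀ (L : Type) [Field L] [Algebra ℂ L] (t : Fin (n + 1) → L) (w : Fin r → L),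
    FunctionField X m L t w → PseudoPicard X m t w

/-- from punctured discs to entire curves -/
def St_exp : Prop :=
  ∀ (n r : ℕ) (X : Cov n r) (m : ℕ), 0 < m → (∀ j, X.e j ∣ m) →
    ∀ (L : Type) [Field L] [Algebra ℂ L] (t : Fin (n + 1) → L) (w : Fin r → L),
    FunctionField X m L t w →
    (PseudoPicard X m t w → PseudoBrody X m t w) ∧ (PseudoBrody X m t w → PseudoGm X m t w)

/-- one-parameter groups acting on the cover -/
def St_red : Prop :=
  ∀ (n r : ℕ) (X : Cov n r) (m : ℕ), 0 < m → (∀ j, X.e j ∣ m) → Red X →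
    ∀ (L : Type) [Field L] [Algebra ℂ L] (t : Fin (n + 1) → L) (w : Fin r → L),
    FunctionField X m L t w → ¬ PseudoGm X m t w

/-- a cover with a one-parameter group is not of log general type -/
def St_ngt : Prop :=
  ∀ (n r : ℕ) (X : Cov n r) (m : ℕ), 0 < m → (∀ j, X.e j ∣ m) → Red X →
    ∀ (L : Type) [Field L] [Algebra ℂ L] (t : Fin (n + 1) → L) (w : Fin r → L),
    FunctionField X m L t w → ¬ LogGeneralType ℂ L n (OffG X m t)

/-- covers which are highly ramified are of log general type -/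
def St_up : Prop :=
  ∀ (n r : ℕ) (X : Cov n r) (g : MvPolynomial (Fin (n + 1)) ℂ) (k : ℕ), 1 ≤ n →
    g.IsHomogeneous k → laur g ≠ 0 →
    (∀ v : MvPolynomial (Fin (n + 1)) ℂ → WithTop ℤ, IsV v → (∀ i, v (MvPolynomial.X i) = 0) →
      v X.G = 0 → (∀ j, ∃ a : ℤ, v (X.F j) = ((X.e j * a : ℤ) : WithTop ℤ)) → v g ≠ 1) →
    (∀ (K : Type) [Field K] [Algebra ℂ K] (x : Fin n → Kˣ),
      AlgebraicIndependent ℂ (fun i => (x i : K)) →
      IntermediateField.adjoin ℂ (Set.range fun i => (x i : K)) = ⊤ →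
      LogGeneralType ℂ K n (fun P => (∃ i, P.ord (x i : K) ≠ 0) ∨ P.ord (ep x (laur g)) = 1)) →
    ∃ m0 : ℕ, ∀ m, m0 ≤ m → 0 < m → (∀ j, X.e j ∣ m) →
    ∀ (L : Type) [Field L] [Algebra ℂ L] (t : Fin (n + 1) → L) (w : Fin r → L),
    FunctionField X m L t w → LogGeneralType ℂ L n (OffG X m t)

end Pool.Agent.Y192.KC
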