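import Pool.Agent.Y192.KC.StrMain
import Pool.Agent.Y304.STR.Ext
import Pool.Agent.Y450.STR.Gtm
import Pool.Agent.Y547.KZ.LgtG

/-!
The structure of the covers of arbitrary projective varieties: all steps together.
-/

set_option autoImplicit false

namespace Pool.Agent.Y192.KC

open MvPolynomial FF Pool.Agent.W602.GT Pool.Agent.Y192.OG

theorem struct_all {n r : ℕ} (X : ZCov n r) (hG : X.G = 1) :
    ∃ m0 p : ℕ, ∀ m, m0 ≤ m → (∀ j, X.e j ∣ m) →
      ∀ (L : Type) [Field L] [Algebra ℂ L] (t : Fin (n + 1) → L) (w : Fin r → L),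
      ZField X m L t w → ∀ d : ℕ, 1 ≤ d → Algebra.trdeg ℂ L = d →
      [¬ KodGe ℂ L d (fun _ => False) 0, ¬ Psef ℂ L d (fun _ => False), Ruled ℂ L,
        ¬ GeneralType ℂ L d, ¬ PseudoRational X.toCov m t w, ¬ PseudoBrody X.toCov m t w,
        ¬ PseudoPicard X.toCov m t w, ZRed X].TFAE ∧
      ∃ k, d = p + k ∧ ProdGT L p k ∧ (k = 0 ↔ ¬ ZRed X) :=
  struct_main Pool.Agent.Y304.STR.t_ext (Pool.Agent.Y450.STR.t_gtm Pool.Agent.Y547.KZ.t_lgtG) X hG

end Pool.Agent.Y192.KC
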