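import Pool.Agent.Y192.KC.StrStm
import Pool.Agent.Y192.KC.SMain
import Pool.Agent.Y192.KC.Dich
import Pool.Agent.Y190.SN.Fibg
import Pool.Agent.TH466.QG.Equiv

/-!
The function fields of the covers are purely transcendental extensions of the function fields of
varieties of general type: the theorem from the steps.
-/

set_option autoImplicit false

namespace Pool.Agent.Y192.KC

open MvPolynomial FF Pool.Agent.W602.GT Pool.Agent.Y192.OG

/-- The varieties with function field `L` are birational to `Y × P^k`, where `Y` is a point, if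
`p = 0`, and a variety of general type of dimension `p`, if `p > 0`. -/
def ProdGT (L : Type) [Field L] [Algebra ℂ L] (p k : ℕ) : Prop :=
  ∃ (M : IntermediateField ℂ L) (s : Fin k → L), (p = 0 → M = ⊥) ∧ (0 < p → GeneralType ℂ M p) ∧
    AlgebraicIndependent M s ∧ IntermediateField.adjoin M (Set.range s) = ⊤

theorem str_main (h_ext : St_ext) (h_gtm : St_gtm) {n r : ℕ} (X : ZCov n r) :
    ∃ m0 p : ℕ, ∀ m, m0 ≤ m → (∀ j, X.e j ∣ m) →
      ∀ (L : Type) [Field L] [Algebra ℂ L] (t : Fin (n + 1) → L) (w : Fin r → L),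
      ZField X m L t w → ∀ d : ℕ, Algebra.trdeg ℂ L = d → ∃ k, d = p + k ∧ ProdGT L p k := by
  classical
  obtain ⟨K, i1, i2, x, hx, hgen⟩ := exists_K X
  have hFne : ∀ j, ep x (laur (X.F j)) ≠ 0 := fun j h => X.hFI j ((hx (X.F j) (X.d j) (X.hF j)).mp h)
  obtain ⟨ρ, γ, Γ', F', B, S', a', q1, q2, q3, q4, q5, q6, q7⟩ :=
    Pool.Agent.Y438.KS.t_min n r K x (fun j => laur (X.F j)) X.e hFne
  let K' : IntermediateField ℂ K := IntermediateField.adjoin ℂ (Set.range fun i => (xm x (γ i) : K))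
  have hmem : ∀ i, (xm x (γ i) : K) ∈ K' := fun i => IntermediateField.subset_adjoin _ _ ⟨i, rfl⟩
  let x0 : Fin ρ → K' := fun i => ⟨(xm x (γ i) : K), hmem i⟩
  have hx0 : ∀ i, x0 i ≠ 0 := fun i h => (xm x (γ i)).ne_zero (congrArg Subtype.val h)
  let x' : Fin ρ → K'ˣ := fun i => Units.mk0 (x0 i) (hx0 i)
  have hep : ∀ g : Lau ρ, K'.val (ep x' g) = ep (fun i => xm x (γ i)) g := by
    intro g
    induction g using AddMonoidAlgebra.induction_linear with
    | zero => rw [map_zero, map_zero, map_zero]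
    | add f g hf hg => rw [map_add, map_add, map_add, hf, hg]
    | single m c =>
      rw [ep_single, ep_single, map_smul]
      congr 1
      unfold xm
      rw [Units.coe_prod, Units.coe_prod, map_prod]
      refine Finset.prod_congr rfl fun i _ => ?_
      rw [Units.val_zpow_eq_zpow_val, Units.val_zpow_eq_zpow_val, map_zpow₀]
      rfl
  have hker : ∀ g : Lau ρ, ep x' g = 0 ↔ ep x (lm γ g) = 0 := by
    intro g
    rw [← q5 g, ← hep g]
    exact (map_eq_zero_iff K'.val K'.val.injective).symm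
  have hker2 : ∀ g : Lau ρ, g ∈ RingHom.ker (ep x') ↔
      g ∈ RingHom.ker (ep fun i => xm x (γ i)) := by
    intro g
    rw [RingHom.mem_ker, RingHom.mem_ker, hker, q5]
  have hgen' : IntermediateField.adjoin ℂ (Set.range fun i => (x' i : K')) = ⊤ := by
    have h3 : (Set.range fun i => (x' i : K')) = Set.range x0 := rfl
    rw [h3]
    apply IntermediateField.lift_injective
    rw [IntermediateField.lift_top, IntermediateField.lift_adjoin]
    congr 1
    rw [← Set.range_comp]
    rfl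
  have hred' : ¬ RedL x' F' X.e := by
    rintro ⟨l, hl0, hl, A1, D1, S1, a1, h1⟩
    refine q7 ⟨l, hl0, fun g hg k => (hker2 _).mp (hl g ((hker2 _).mpr hg) k), A1, D1, S1, a1,
      fun j => ?_⟩
    obtain ⟨h2, h3, h4, h5, h6, h7⟩ := h1 j
    have hne : ∀ g : Lau ρ, ep x' g ≠ 0 → ep (fun i => xm x (γ i)) g ≠ 0 := by
      intro g hg h
      exact hg ((hker2 g).mpr h)
    refine ⟨h2, h3, hne _ h4, hne _ h5, hne _ h6, ?_⟩
    rw [← hep, ← hep, h7]
  obtain ⟨p, hp⟩ := finite_trdeg (fun i => (x' i : K')) hgen'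
  have hF' : ∀ j, ep x' (F' j) ≠ 0 := fun j h => (q6 j).2.2.1 ((hker _).mp h)
  -- the dimension of the quotient
  have hdim : ∀ (L : Type) [Field L] [Algebra ℂ L] (M : IntermediateField ℂ L) (φ : K' →ₐ[ℂ] M)
      (z : Fin ρ → M) (v : Fin r → M) (m : ℕ), 0 < m → (∀ i, z i ^ m = φ (x' i)) →
      (∀ j, v j ^ X.e j = φ (ep x' (F' j))) →
      IntermediateField.adjoin ℂ (Set.range z ∪ Set.range v) = ⊤ → Algebra.trdeg ℂ M = p := by
    intro L _ _ M φ z v m hm hz hv htop
    letI : Algebra K' M := φ.toRingHom.toAlgebra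
    haveI : IsScalarTower ℂ K' M := IsScalarTower.of_algebraMap_eq fun c => (φ.commutes c).symm
    have hφ : ∀ y, algebraMap K' M y = φ y := fun _ => rfl
    have halg : Algebra.IsAlgebraic K' M := by
      have h1 : ∀ y ∈ Set.range z ∪ Set.range v, IsAlgebraic K' y := by
        rintro y (⟨i, rfl⟩ | ⟨j, rfl⟩)
        · refine IsAlgebraic.of_pow hm ?_
          rw [hz i, ← hφ]
          exact isAlgebraic_algebraMap _
        · refine IsAlgebraic.of_pow (X.he j) ?_
          rw [hv j, ← hφ]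
          exact isAlgebraic_algebraMap _
      refine ⟨fun y => ?_⟩
      have h2 : y ∈ IntermediateField.adjoin ℂ (Set.range z ∪ Set.range v) := by
        rw [htop]
        exact IntermediateField.mem_top
      induction h2 using IntermediateField.adjoin_induction with
      | mem u hu => exact h1 u hu
      | algebraMap u =>
        rw [IsScalarTower.algebraMap_apply ℂ K' M]
        exact isAlgebraic_algebraMap _
      | add u v _ _ h h' => exact h.add h'
      | inv u _ h => exact h.inv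
      | mul u v _ _ h h' => exact h.mul h'
    haveI : FaithfulSMul K' M :=
      (faithfulSMul_iff_algebraMap_injective K' M).mpr (algebraMap K' M).injective
    have h3 := _root_.trdeg_add_eq (R := ℂ) (S := K') (A := M)
    rw [hp, _root_.trdeg_eq_zero_iff.2 halg, add_zero] at h3
    exact h3.symm
  have hfin : ∀ (m1 : ℕ), (∀ m, m1 ≤ m → 0 < m → ∀ (M : Type) [Field M] [Algebra ℂ M]
      (φ : K' →ₐ[ℂ] M) (z : Fin ρ → M) (v : Fin r → M), (∀ i, z i ^ m = φ (x' i)) →
      (∀ j, v j ^ X.e j = φ (ep x' (F' j))) →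
      IntermediateField.adjoin ℂ (Set.range z ∪ Set.range v) = ⊤ →
      0 < p → GeneralType ℂ M p) →
      ∃ m0 p : ℕ, ∀ m, m0 ≤ m → (∀ j, X.e j ∣ m) →
      ∀ (L : Type) [Field L] [Algebra ℂ L] (t : Fin (n + 1) → L) (w : Fin r → L),
      ZField X m L t w → ∀ d : ℕ, Algebra.trdeg ℂ L = d → ∃ k, d = p + k ∧ ProdGT L p k := by
    intro m1 hm1
    refine ⟨max 1 m1, p, fun m hm he L _ _ t w hF d hd => ?_⟩
    have hm0 : 0 < m := lt_of_lt_of_le one_pos ((le_max_left _ _).trans hm)
    obtain ⟨M, φ, k, s, z, v, hz, hv, htop, hs, hst⟩ := h_ext n r X K x hx ρ γ Γ' F' B S' a' q1 q2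
      q3 q4 q6 K' x' hker hgen' m hm0 he L t w hF
    have hM := hdim L M φ z v m hm0 hz hv htop
    have hb : IsTranscendenceBasis M s := by
      rw [hs.isTranscendenceBasis_iff_isAlgebraic, ← IntermediateField.isAlgebraic_adjoin_iff_top,
        hst]
      infer_instance
    have hk : Algebra.trdeg M L = k := by
      rw [← hb.cardinalMk_eq_trdeg, Cardinal.mk_fin]
    have h3 := _root_.trdeg_add_eq (R := ℂ) (S := M) (A := L)
    rw [hM, hk, hd] at h3
    refine ⟨k, by exact_mod_cast h3.symm, M, s, fun hp0 => ?_, fun hp0 => ?_, hs, hst⟩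
    · have halg : Algebra.IsAlgebraic ℂ M := by
        rw [← _root_.trdeg_eq_zero_iff, hM, hp0, Nat.cast_zero]
      rw [eq_bot_iff]
      intro y hy
      obtain ⟨c, hc⟩ := (IsAlgClosed.algebraMap_bijective_of_isIntegral (k := ℂ) (K := M)).2
        ⟨y, hy⟩
      rw [IntermediateField.mem_bot]
      exact ⟨c, congrArg Subtype.val hc⟩
    · exact hm1 m ((le_max_right _ _).trans hm) hm0 M φ z v hz hv htop hp0
  rcases Nat.eq_zero_or_pos p with hp0 | hp0
  · refine hfin 0 fun m _ _ M _ _ φ z v _ _ _ h => ?_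
    omega
  · obtain ⟨m1, hm1⟩ := h_gtm ρ r p K' x' F' X.e X.he hp0 hgen'
      (zlg_all ρ r K' x' F' X.e p hF' hgen' hp hp0 hred')
    exact hfin m1 fun m hm hm0 M _ _ φ z v hz hv htop _ => hm1 m hm hm0 M φ z v hz hv htop

/-- if `Y × P^0` is of general type then so is the variety -/
theorem general_of_prod {L : Type} [Field L] [Algebra ℂ L] {p : ℕ} (hp : 0 < p)
    (h : ProdGT L p 0) : GeneralType ℂ L p := by
  obtain ⟨M, s, -, hg, -, htop⟩ := h
  have h1 : Set.range s = ∅ := Set.range_eq_empty s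
  rw [h1, IntermediateField.adjoin_empty] at htop
  have h2 : M = ⊤ := by
    rw [eq_top_iff]
    intro y _
    have h3 : y ∈ (⊥ : IntermediateField M L) := by
      rw [htop]
      exact IntermediateField.mem_top
    obtain ⟨c, rfl⟩ := IntermediateField.mem_bot.mp h3
    exact c.2
  subst h2
  exact Pool.Agent.TH466.QG.general_of_equiv IntermediateField.topEquiv (hg hp)

/-- **The structure of the covers.** -/
theorem struct_main (h_ext : St_ext) (h_gtm : St_gtm) {n r : ℕ} (X : ZCov n r) (hG : X.G = 1) :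
    ∃ m0 p : ℕ, ∀ m, m0 ≤ m → (∀ j, X.e j ∣ m) →
      ∀ (L : Type) [Field L] [Algebra ℂ L] (t : Fin (n + 1) → L) (w : Fin r → L),
      ZField X m L t w → ∀ d : ℕ, 1 ≤ d → Algebra.trdeg ℂ L = d →
      [¬ KodGe ℂ L d (fun _ => False) 0, ¬ Psef ℂ L d (fun _ => False), Ruled ℂ L,
        ¬ GeneralType ℂ L d, ¬ PseudoRational X.toCov m t w, ¬ PseudoBrody X.toCov m t w,
        ¬ PseudoPicard X.toCov m t w, ZRed X].TFAE ∧
      ∃ k, d = p + k ∧ ProdGT L p k ∧ (k = 0 ↔ ¬ ZRed X) := by
  obtain ⟨m1, p, h1⟩ := str_main h_ext h_gtm X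
  obtain ⟨m2, h2⟩ := dich_all X hG
  refine ⟨max m1 m2, p, fun m hm he L _ _ t w hF d hd htr => ?_⟩
  have ht := h2 m ((le_max_right _ _).trans hm) he L t w hF d hd htr
  obtain ⟨k, hk, hP⟩ := h1 m ((le_max_left _ _).trans hm) he L t w hF d htr
  have h3 : ¬ GeneralType ℂ L d ↔ ZRed X := ht.out 3 7
  have h4 : Ruled ℂ L ↔ ZRed X := ht.out 2 7
  refine ⟨ht, k, hk, hP, fun h0 => ?_, fun hz => ?_⟩
  · intro hz
    subst h0
    rw [add_zero] at hk
    subst hk
    exact h3.mpr hz (general_of_prod hd hP)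
  · by_contra hk0
    obtain ⟨M, s, -, -, hs, hst⟩ := hP
    obtain ⟨C, σ, hσ, htop⟩ := Pool.Agent.Y190.SN.ruled_of_indep (Nat.pos_of_ne_zero hk0) hst hs
    exact hz (h4.mp ⟨C, σ, hσ, htop⟩)

end Pool.Agent.Y192.KC
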