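import Pool.Agent.Y192.KC.SStm

/-!
Statements: the function fields of the covers are purely transcendental extensions of the function
fields of varieties of general type.
-/

set_option autoImplicit false

namespace Pool.Agent.Y192.KC

open MvPolynomial FF Pool.Agent.W602.GT Pool.Agent.Y192.OG

/-- the function field of a cover is a purely transcendental extension of the function field of a
cover of the quotient -/
def St_ext : Prop :=
  ∀ (n r : ℕ) (X : ZCov n r) (K : Type) [Field K] [Algebra ℂ K] (x : Fin n → Kˣ),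
    (∀ (f : MvPolynomial (Fin (n + 1)) ℂ) (k : ℕ), f.IsHomogeneous k →
      (ep x (laur f) = 0 ↔ f ∈ X.I)) →
    ∀ (ρ : ℕ) (γ : Fin ρ → Fin n → ℤ) (Γ : Submodule ℤ (Fin n → ℤ)) (F' : Fin r → Lau ρ)
      (B S : Fin r → Lau n) (a : Fin r → Fin n → ℤ),
      (∀ a : Fin ρ → ℤ, ∑ i, a i • γ i = 0 → a = 0) →
      (∀ m, m ∈ Γ ↔ ∃ a : Fin ρ → ℤ, m = ∑ i, a i • γ i) → Sat Γ →
      (∀ g ∈ RingHom.ker (ep x), ∀ q, comp Γ q g ∈ RingHom.ker (ep x)) →
      (∀ j, ep x (B j) ≠ 0 ∧ ep x (S j) ≠ 0 ∧ ep x (lm γ (F' j)) ≠ 0 ∧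
        ep x (B j ^ X.e j * laur (X.F j)) =
          ep x (lm γ (F' j) * AddMonoidAlgebra.single (a j) 1 * S j ^ X.e j)) →
    ∀ (K' : Type) [Field K'] [Algebra ℂ K'] (x' : Fin ρ → K'ˣ),
      (∀ g : Lau ρ, ep x' g = 0 ↔ ep x (lm γ g) = 0) →
      IntermediateField.adjoin ℂ (Set.range fun i => (x' i : K')) = ⊤ →
    ∀ m, 0 < m → (∀ j, X.e j ∣ m) →
      ∀ (L : Type) [Field L] [Algebra ℂ L] (t : Fin (n + 1) → L) (w : Fin r → L),
      ZField X m L t w →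
      ∃ (M : IntermediateField ℂ L) (φ : K' →ₐ[ℂ] M) (k : ℕ) (s : Fin k → L) (z : Fin ρ → M)
        (v : Fin r → M), (∀ i, z i ^ m = φ (x' i)) ∧ (∀ j, v j ^ X.e j = φ (ep x' (F' j))) ∧
        IntermediateField.adjoin ℂ (Set.range z ∪ Set.range v) = ⊤ ∧
        AlgebraicIndependent M s ∧ IntermediateField.adjoin M (Set.range s) = ⊤

/-- covers of varieties of log general type with high ramification are of general type -/
def St_gtm : Prop :=
  ∀ (ρ r p : ℕ) (K' : Type) [Field K'] [Algebra ℂ K'] (x' : Fin ρ → K'ˣ) (F' : Fin r → Lau ρ)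
    (e : Fin r → ℕ), (∀ j, 0 < e j) → 1 ≤ p →
    IntermediateField.adjoin ℂ (Set.range fun i => (x' i : K')) = ⊤ →
    LogGeneralType ℂ K' p (fun P => (∃ i, P.ord (x' i : K') ≠ 0) ∨
      ∃ j, ¬ ((e j : ℤ) ∣ P.ord (ep x' (F' j)))) →
    ∃ m0 : ℕ, ∀ m, m0 ≤ m → 0 < m → ∀ (M : Type) [Field M] [Algebra ℂ M] (φ : K' →ₐ[ℂ] M)
      (z : Fin ρ → M) (v : Fin r → M), (∀ i, z i ^ m = φ (x' i)) →
      (∀ j, v j ^ e j = φ (ep x' (F' j))) →
      IntermediateField.adjoin ℂ (Set.range z ∪ Set.range v) = ⊤ → GeneralType ℂ M p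

end Pool.Agent.Y192.KC
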